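import Pool.Agent.R945.MK.Defs

/-!
# Project MK: basic facts on the quantity `u`, and the two discs
-/

set_option autoImplicit false

open Finset Real

namespace Pool.Agent.R945.MK

lemma u_one (p h : ℂ) : u p h 1 = p * h := by simp [u]

lemma u_succ (p h : ℂ) {m : ℕ} (hm : 1 ≤ m) : u p h (m + 1) = p * (1 + u p h m) := by
  obtain ⟨k, rfl⟩ : ∃ k, m = k + 1 := ⟨m - 1, by omega⟩
  unfold u
  simp only [Nat.add_sub_cancel]
  rw [sum_range_succ', mul_add, mul_add, mul_sum]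
  simp only [zero_add, pow_one, pow_succ, mul_one]
  have : ∀ x : ℂ, ∑ x_1 ∈ range k, p ^ x_1 * p * p = ∑ i ∈ range k, p * (p ^ i * p) :=
    fun _ => sum_congr rfl fun i _ => by ring
  rw [this 0]
  ring

/-- real and imaginary parts of `u (1 + y i) (a + b i) (n + 1)` -/
def rr (y a b : ℝ) : ℕ → ℝ × ℝ
  | 0 => (a - y * b, b + y * a)
  | n + 1 => (1 + (rr y a b n).1 - y * (rr y a b n).2, (rr y a b n).2 + y * (1 + (rr y a b n).1))

lemma u_rr (y : ℝ) (h : ℂ) (n : ℕ) :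
    (u (1 + y * Complex.I) h (n + 1)).re = (rr y h.re h.im n).1 ∧
      (u (1 + y * Complex.I) h (n + 1)).im = (rr y h.re h.im n).2 := by
  induction n with
  | zero =>
    rw [zero_add, u_one]
    constructor
    · simp [rr]
    · simp [rr]
  | succ n ih =>
    rw [u_succ _ _ (by omega)]
    constructor
    · simp [rr, ih.1, ih.2]
    · simp [rr, ih.1, ih.2]

lemma norm_sq_rr (y : ℝ) (h : ℂ) (n : ℕ) :
    ‖u (1 + y * Complex.I) h (n + 1)‖ ^ 2 = (rr y h.re h.im n).1 ^ 2 + (rr y h.re h.im n).2 ^ 2 := by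
  rw [← Complex.normSq_eq_norm_sq, Complex.normSq_apply, (u_rr y h n).1, (u_rr y h n).2]
  ring

/-- The basic relation. -/
lemma Z_eq (y : ℝ) (h : ℂ) {m : ℕ} (hm : 1 ≤ m) :
    (1 + y * Complex.I) ^ m * (1 + y * Complex.I * h) =
      1 + y * Complex.I * (1 + u (1 + y * Complex.I) h m) := by
  induction m, hm using Nat.le_induction with
  | base => rw [u_one]; ring
  | succ m hm ih =>
    rw [pow_succ, mul_comm _ (1 + y * Complex.I), mul_assoc, ih, u_succ _ _ hm]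
    ring

lemma disc_one {z : ℂ} {R : ℝ} (hR : 0 < R) (h : R ≤ ‖z + R‖) :
    0 ≤ z.re + 1 / (2 * R) * ‖z‖ ^ 2 := by
  have h1 : R ^ 2 ≤ ‖z + R‖ ^ 2 := pow_le_pow_left₀ hR.le h 2
  rw [← Complex.normSq_eq_norm_sq, Complex.normSq_apply] at h1
  rw [← Complex.normSq_eq_norm_sq, Complex.normSq_apply]
  simp only [Complex.add_re, Complex.ofReal_re, Complex.add_im, Complex.ofReal_im, add_zero] at h1
  have h2 : 0 ≤ 2 * R * z.re + (z.re * z.re + z.im * z.im) := by nlinarith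
  have h3 : z.re + 1 / (2 * R) * (z.re * z.re + z.im * z.im) =
      (2 * R * z.re + (z.re * z.re + z.im * z.im)) / (2 * R) := by
    field_simp
  rw [h3]
  positivity

lemma disc_two {z : ℂ} {R : ℝ} (hR : 0 < R) (h : R ≤ ‖z + R * Complex.I‖) :
    0 ≤ z.im + 1 / (2 * R) * ‖z‖ ^ 2 := by
  have h1 : R ^ 2 ≤ ‖z + R * Complex.I‖ ^ 2 := pow_le_pow_left₀ hR.le h 2
  rw [← Complex.normSq_eq_norm_sq, Complex.normSq_apply] at h1
  rw [← Complex.normSq_eq_norm_sq, Complex.normSq_apply]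
  simp only [Complex.add_re, Complex.mul_re, Complex.ofReal_re, Complex.I_re, mul_zero,
    Complex.ofReal_im, Complex.I_im, mul_one, sub_self, add_zero, Complex.add_im, Complex.mul_im,
    zero_add] at h1
  have h2 : 0 ≤ 2 * R * z.im + (z.re * z.re + z.im * z.im) := by nlinarith
  have h3 : z.im + 1 / (2 * R) * (z.re * z.re + z.im * z.im) =
      (2 * R * z.im + (z.re * z.re + z.im * z.im)) / (2 * R) := by
    field_simp
  rw [h3]
  positivity

/-- from the `Z`-plane to the `u`-plane, first disc -/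
lemma disc_one_Z {y : ℝ} (hy : 0 < y) {R : ℝ} (hR : 0 < R) {z : ℂ}
    (h : R * y ≤ ‖1 + y * Complex.I * (1 + z) - (1 - (R - 1) * y * Complex.I)‖) :
    0 ≤ z.re + 1 / (2 * R) * ‖z‖ ^ 2 := by
  refine disc_one hR ?_
  have e : 1 + y * Complex.I * (1 + z) - (1 - (R - 1) * y * Complex.I) =
      (y * Complex.I) * (z + R) := by ring
  rw [e, norm_mul, norm_mul, Complex.norm_I, mul_one, Complex.norm_real, Real.norm_eq_abs,
    abs_of_pos hy, mul_comm] at h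
  exact le_of_mul_le_mul_left h hy

/-- from the `Z`-plane to the `u`-plane, second disc -/
lemma disc_two_Z {y : ℝ} (hy : 0 < y) {R : ℝ} (hR : 0 < R) {z : ℂ}
    (h : R * y ≤ ‖1 + y * Complex.I * (1 + z) - (1 + R * y + y * Complex.I)‖) :
    0 ≤ z.im + 1 / (2 * R) * ‖z‖ ^ 2 := by
  refine disc_two hR ?_
  have e : 1 + y * Complex.I * (1 + z) - (1 + R * y + y * Complex.I) =
      (y * Complex.I) * (z + R * Complex.I) := by
    linear_combination (-(R : ℂ) * y) * Complex.I_sq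
  rw [e, norm_mul, norm_mul, Complex.norm_I, mul_one, Complex.norm_real, Real.norm_eq_abs,
    abs_of_pos hy, mul_comm] at h
  exact le_of_mul_le_mul_left h hy

lemma norm_p_sq (y : ℝ) : ‖(1 + y * Complex.I : ℂ)‖ ^ 2 = 1 + y ^ 2 := by
  rw [← Complex.normSq_eq_norm_sq, Complex.normSq_apply]
  simp
  ring

lemma norm_X_sq (y : ℝ) (h : ℂ) :
    ‖(1 + y * Complex.I * h : ℂ)‖ ^ 2 = (1 - h.im * y) ^ 2 + (h.re * y) ^ 2 := by
  rw [← Complex.normSq_eq_norm_sq, Complex.normSq_apply]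
  simp
  ring

lemma norm_c1 (R y : ℝ) : ‖(1 - (R - 1) * y * Complex.I : ℂ)‖ = √(1 + (R - 1) ^ 2 * y ^ 2) := by
  rw [eq_comm, Real.sqrt_eq_iff_mul_self_eq (by positivity) (norm_nonneg _), ← sq,
    ← Complex.normSq_eq_norm_sq, Complex.normSq_apply]
  simp
  ring

lemma norm_c2 (R y : ℝ) : ‖(1 + R * y + y * Complex.I : ℂ)‖ = √((1 + R * y) ^ 2 + y ^ 2) := by
  rw [eq_comm, Real.sqrt_eq_iff_mul_self_eq (by positivity) (norm_nonneg _), ← sq,
    ← Complex.normSq_eq_norm_sq, Complex.normSq_apply]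
  simp
  ring

/-- large modulus: the point avoids both discs -/
lemma far {y : ℝ} (hy : 0 < y) {h : ℂ} {m : ℕ} (hm : 1 ≤ m) {R : ℝ} (hR : 0 < R)
    (hZ : R * y + √(1 + (R - 1) ^ 2 * y ^ 2) ≤
      ‖(1 + y * Complex.I : ℂ) ^ m * (1 + y * Complex.I * h)‖) :
    0 ≤ (u (1 + y * Complex.I) h m).re + 1 / (2 * R) * ‖u (1 + y * Complex.I) h m‖ ^ 2 := by
  refine disc_one_Z hy hR ?_
  rw [← Z_eq y h hm]
  have h1 := norm_sub_norm_le ((1 + y * Complex.I : ℂ) ^ m * (1 + y * Complex.I * h))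
    (1 - (R - 1) * y * Complex.I)
  rw [norm_c1] at h1
  linarith

lemma far_two {y : ℝ} (hy : 0 < y) {h : ℂ} {m : ℕ} (hm : 1 ≤ m) {R : ℝ} (hR : 0 < R)
    (hZ : R * y + √((1 + R * y) ^ 2 + y ^ 2) ≤
      ‖(1 + y * Complex.I : ℂ) ^ m * (1 + y * Complex.I * h)‖) :
    0 ≤ (u (1 + y * Complex.I) h m).im + 1 / (2 * R) * ‖u (1 + y * Complex.I) h m‖ ^ 2 := by
  refine disc_two_Z hy hR ?_
  rw [← Z_eq y h hm]
  have h1 := norm_sub_norm_le ((1 + y * Complex.I : ℂ) ^ m * (1 + y * Complex.I * h))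
    (1 + R * y + y * Complex.I)
  rw [norm_c2] at h1
  linarith

/-- comparison of the two radii: `R₂ = 50/87`, `R₁ = 10/7` -/
lemma radii {y : ℝ} (hy : 0 ≤ y) : 50 / 87 * y + √((1 + 50 / 87 * y) ^ 2 + y ^ 2) ≤
    10 / 7 * y + √(1 + (10 / 7 - 1) ^ 2 * y ^ 2) := by
  have h1 : √((1 + 50 / 87 * y) ^ 2 + y ^ 2) ≤
      (10 / 7 - 50 / 87) * y + √(1 + (10 / 7 - 1) ^ 2 * y ^ 2) := by
    rw [Real.sqrt_le_left (by positivity)]
    have h2 : √(1 + (10 / 7 - 1) ^ 2 * y ^ 2) ^ 2 = 1 + (10 / 7 - 1) ^ 2 * y ^ 2 :=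
      Real.sq_sqrt (by positivity)
    have h3 : 1 + 3 / 40 * y ≤ √(1 + (10 / 7 - 1) ^ 2 * y ^ 2) ∨ y ≤ 9/10 := by
      by_cases hy9 : y ≤ 9 / 10
      · exact Or.inr hy9
      · left
        push Not at hy9
        apply Real.le_sqrt_of_sq_le
        nlinarith
    have h4 : 1 ≤ √(1 + (10 / 7 - 1) ^ 2 * y ^ 2) := by
      apply Real.le_sqrt_of_sq_le
      nlinarith [sq_nonneg y]
    have h5 : ((10 / 7 - 50 / 87) * y + √(1 + (10 / 7 - 1) ^ 2 * y ^ 2)) ^ 2 =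
        ((10 / 7 - 50 / 87) * y) ^ 2 + 2 * ((10 / 7 - 50 / 87) * y) * √(1 + (10 / 7 - 1) ^ 2 * y ^ 2) +
          (1 + (10 / 7 - 1) ^ 2 * y ^ 2) := by
      rw [add_sq, h2]
    rw [h5]
    rcases h3 with h3 | h3
    · nlinarith [mul_nonneg hy hy, mul_le_mul_of_nonneg_left h3 hy]
    · nlinarith [mul_nonneg hy hy, mul_le_mul_of_nonneg_left h4 hy, mul_nonneg hy (sub_nonneg.mpr h3)]
  linarith

end Pool.Agent.R945.MK
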