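import Pool.Agent.R945.MK.A1a

/-!
# Project MK: the boundary inequalities for small `y` (polar coordinates)
-/

set_option autoImplicit false

open Finset Real

namespace Pool.Agent.R945.MK

lemma quad_nonneg {ρ β D : ℝ} (hρ : 0 ≤ ρ) (hD : 0 ≤ D) (h : β ≤ 0 ∨ β ^ 2 ≤ D) :
    0 ≤ ρ ^ 2 - 2 * ρ * β + D := by
  rcases h with h | h
  · nlinarith [mul_nonneg hρ (neg_nonneg.mpr h), sq_nonneg ρ]
  · nlinarith [sq_nonneg (ρ - β)]

/-- from the quadratic condition to the first disc -/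
lemma one_of_quad {y : ℝ} (hy : 0 < y) {R : ℝ} (hR : 0 < R) {h : ℂ} {m : ℕ} (hm : 1 ≤ m) {ρ c s : ℝ}
    (hcs : c ^ 2 + s ^ 2 = 1)
    (hre : ((1 + y * Complex.I : ℂ) ^ m * (1 + y * Complex.I * h)).re = ρ * c)
    (him : ((1 + y * Complex.I : ℂ) ^ m * (1 + y * Complex.I * h)).im = ρ * s)
    (hq : 0 ≤ ρ ^ 2 - 2 * ρ * (c - (R - 1) * y * s) + (1 - (2 * R - 1) * y ^ 2)) :
    0 ≤ (u (1 + y * Complex.I) h m).re + 1 / (2 * R) * ‖u (1 + y * Complex.I) h m‖ ^ 2 := by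
  refine disc_one_Z hy hR ?_
  rw [← Z_eq y h hm]
  apply le_of_sq_le_sq _ (norm_nonneg _)
  rw [← Complex.normSq_eq_norm_sq, Complex.normSq_apply, Complex.sub_re, Complex.sub_im, hre, him]
  have e1 : (1 - (R - 1) * y * Complex.I : ℂ).re = 1 := by simp
  have e2 : (1 - (R - 1) * y * Complex.I : ℂ).im = -((R - 1) * y) := by simp
  rw [e1, e2]
  have e3 : (ρ * c - 1) * (ρ * c - 1) + (ρ * s - -((R - 1) * y)) * (ρ * s - -((R - 1) * y)) =
      ρ ^ 2 * (c ^ 2 + s ^ 2) - 2 * ρ * (c - (R - 1) * y * s) + 1 + (R - 1) ^ 2 * y ^ 2 := by ring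
  rw [e3, hcs]
  nlinarith

/-- from the quadratic condition to the second disc -/
lemma two_of_quad {y : ℝ} (hy : 0 < y) {R : ℝ} (hR : 0 < R) {h : ℂ} {m : ℕ} (hm : 1 ≤ m) {ρ c s : ℝ}
    (hcs : c ^ 2 + s ^ 2 = 1)
    (hre : ((1 + y * Complex.I : ℂ) ^ m * (1 + y * Complex.I * h)).re = ρ * c)
    (him : ((1 + y * Complex.I : ℂ) ^ m * (1 + y * Complex.I * h)).im = ρ * s)
    (hq : 0 ≤ ρ ^ 2 - 2 * ρ * ((1 + R * y) * c + y * s) + (1 + 2 * R * y + y ^ 2)) :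
    0 ≤ (u (1 + y * Complex.I) h m).im + 1 / (2 * R) * ‖u (1 + y * Complex.I) h m‖ ^ 2 := by
  refine disc_two_Z hy hR ?_
  rw [← Z_eq y h hm]
  apply le_of_sq_le_sq _ (norm_nonneg _)
  rw [← Complex.normSq_eq_norm_sq, Complex.normSq_apply, Complex.sub_re, Complex.sub_im, hre, him]
  have e1 : (1 + R * y + y * Complex.I : ℂ).re = 1 + R * y := by simp
  have e2 : (1 + R * y + y * Complex.I : ℂ).im = y := by simp
  rw [e1, e2]
  have e3 : (ρ * c - (1 + R * y)) * (ρ * c - (1 + R * y)) + (ρ * s - y) * (ρ * s - y) =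
      ρ ^ 2 * (c ^ 2 + s ^ 2) - 2 * ρ * ((1 + R * y) * c + y * s) + (1 + R * y) ^ 2 + y ^ 2 := by ring
  rw [e3, hcs]
  nlinarith

/-- Case I, first disc. -/
lemma cases_one {y R c α Θ ρ : ℝ} (hy : 0 < y) (hR : 1 < R) (hRy : R * y ≤ 1) (hρ : 0 ≤ ρ)
    (hα0 : 0 ≤ α) (hc2 : (1 + y ^ 2) * cos (2 * α) = 1 - y ^ 2)
    (hs2 : (1 + y ^ 2) * sin (2 * α) = 2 * y)
    (hΘ1 : 2 * α ≤ Θ) (hΘ2 : Θ ≤ 2 * π - c * y) (hcy : 0 ≤ c * y)
    (hend : R * y ≤ sin (c * y) - (R - 1) * y * cos (c * y)) :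
    0 ≤ ρ ^ 2 - 2 * ρ * (cos Θ - (R - 1) * y * sin Θ) + (1 - (2 * R - 1) * y ^ 2) := by
  have hy2 : R ^ 2 * y ^ 2 ≤ 1 := by
    have := pow_le_pow_left₀ (by positivity) hRy 2
    nlinarith
  have hD : 0 ≤ 1 - (2 * R - 1) * y ^ 2 := by nlinarith [mul_nonneg (sq_nonneg (R - 1)) (sq_nonneg y)]
  have hR1 : 0 ≤ (R - 1) * y := by nlinarith
  apply quad_nonneg hρ hD
  by_cases h1 : Θ ≤ π / 2
  · -- first quadrant
    have hc : cos Θ ≤ cos (2 * α) :=
      Real.cos_le_cos_of_nonneg_of_le_pi (by linarith) (by linarith [Real.pi_pos]) hΘ1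
    have hs : sin (2 * α) ≤ sin Θ :=
      Real.sin_le_sin_of_le_of_le_pi_div_two (by linarith [Real.pi_pos]) h1 hΘ1
    by_cases hb : cos Θ - (R - 1) * y * sin Θ ≤ 0
    · exact Or.inl hb
    · right
      push Not at hb
      have h3 : (1 + y ^ 2) * (cos Θ - (R - 1) * y * sin Θ) ≤ 1 - (2 * R - 1) * y ^ 2 := by
        have h4 : (R - 1) * y * sin (2 * α) ≤ (R - 1) * y * sin Θ := mul_le_mul_of_nonneg_left hs hR1
        have h5 : (1 + y ^ 2) * (cos Θ - (R - 1) * y * sin Θ) ≤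
            (1 + y ^ 2) * (cos (2 * α) - (R - 1) * y * sin (2 * α)) :=
          mul_le_mul_of_nonneg_left (by linarith) (by positivity)
        have h6 : (1 + y ^ 2) * (cos (2 * α) - (R - 1) * y * sin (2 * α)) =
            (1 + y ^ 2) * cos (2 * α) - (R - 1) * y * ((1 + y ^ 2) * sin (2 * α)) := by ring
        rw [h6, hc2, hs2] at h5
        nlinarith
      have h4 : cos Θ - (R - 1) * y * sin Θ ≤ 1 - (2 * R - 1) * y ^ 2 := by
        nlinarith [mul_pos (pow_pos hy 2) hb]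
      have h5 : 1 - (2 * R - 1) * y ^ 2 ≤ 1 := by nlinarith [sq_nonneg y]
      nlinarith
  push Not at h1
  by_cases h2 : Θ ≤ π
  · left
    have hc : cos Θ ≤ 0 := Real.cos_nonpos_of_pi_div_two_le_of_le h1.le (by linarith [Real.pi_pos])
    have hs : 0 ≤ sin Θ := Real.sin_nonneg_of_nonneg_of_le_pi (by linarith [Real.pi_pos]) h2
    nlinarith [mul_nonneg hR1 hs]
  push Not at h2
  by_cases h3 : Θ ≤ 3 * π / 2
  · have hc : cos Θ ≤ 0 := Real.cos_nonpos_of_pi_div_two_le_of_le h1.le (by linarith [Real.pi_pos])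
    by_cases hb : cos Θ - (R - 1) * y * sin Θ ≤ 0
    · exact Or.inl hb
    · right
      push Not at hb
      have h4 : cos Θ - (R - 1) * y * sin Θ ≤ (R - 1) * y := by
        nlinarith [Real.neg_one_le_sin Θ]
      nlinarith
  push Not at h3
  · -- fourth quadrant
    right
    have hθ1 : c * y ≤ 2 * π - Θ := by linarith
    have hθ2 : 2 * π - Θ ≤ π / 2 := by linarith
    have ec : cos Θ = cos (2 * π - Θ) := by
      rw [Real.cos_sub]; simp
    have es : sin Θ = - sin (2 * π - Θ) := by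
      rw [Real.sin_sub]; simp
    set θ := 2 * π - Θ with hθ
    have hc : cos θ ≤ cos (c * y) :=
      Real.cos_le_cos_of_nonneg_of_le_pi hcy (by linarith [Real.pi_pos]) hθ1
    have hs : sin (c * y) ≤ sin θ :=
      Real.sin_le_sin_of_le_of_le_pi_div_two (by linarith [Real.pi_pos]) hθ2 hθ1
    have h6 : R * y ≤ sin θ - (R - 1) * y * cos θ := by
      have := mul_le_mul_of_nonneg_left hc hR1
      linarith
    have h7 : (R * y) ^ 2 ≤ (sin θ - (R - 1) * y * cos θ) ^ 2 :=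
      pow_le_pow_left₀ (by positivity) h6 2
    rw [ec, es]
    have h8 : (cos θ - (R - 1) * y * -sin θ) ^ 2 + (sin θ - (R - 1) * y * cos θ) ^ 2 =
        (1 + (R - 1) ^ 2 * y ^ 2) * (sin θ ^ 2 + cos θ ^ 2) := by ring
    rw [Real.sin_sq_add_cos_sq] at h8
    nlinarith

/-- Case I, second disc. -/
lemma cases_two {y R c α Θ ρ : ℝ} (hy : 0 < y) (hR : 0 < R) (hR1 : R ≤ 1) (hρ : 0 ≤ ρ)
    (hα0 : 0 ≤ α) (hc2 : (1 + y ^ 2) * cos (2 * α) = 1 - y ^ 2)
    (hs2 : (1 + y ^ 2) * sin (2 * α) = 2 * y)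
    (hΘ1 : 2 * α ≤ Θ) (hΘ2 : Θ ≤ 2 * π - c * y) (hcy : 0 ≤ c * y)
    (hend : R * y ≤ sin (c * y)) :
    0 ≤ ρ ^ 2 - 2 * ρ * ((1 + R * y) * cos Θ + y * sin Θ) + (1 + 2 * R * y + y ^ 2) := by
  have hD : 0 ≤ 1 + 2 * R * y + y ^ 2 := by positivity
  apply quad_nonneg hρ hD
  have hkey : ∀ c s : ℝ, c ^ 2 + s ^ 2 = 1 → R * y ≤ |(1 + R * y) * s - y * c| →
      ((1 + R * y) * c + y * s) ^ 2 ≤ 1 + 2 * R * y + y ^ 2 := by
    intro c s h1 h2
    have h3 : (R * y) ^ 2 ≤ |(1 + R * y) * s - y * c| ^ 2 := pow_le_pow_left₀ (by positivity) h2 2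
    rw [sq_abs] at h3
    have h4 : ((1 + R * y) * c + y * s) ^ 2 + ((1 + R * y) * s - y * c) ^ 2 =
      ((1 + R * y) ^ 2 + y ^ 2) * (c ^ 2 + s ^ 2) := by ring
    rw [h1] at h4
    nlinarith
  by_cases h1 : Θ ≤ π / 2
  · right
    have hc : cos Θ ≤ cos (2 * α) :=
      Real.cos_le_cos_of_nonneg_of_le_pi (by linarith) (by linarith [Real.pi_pos]) hΘ1
    have hs : sin (2 * α) ≤ sin Θ :=
      Real.sin_le_sin_of_le_of_le_pi_div_two (by linarith [Real.pi_pos]) h1 hΘ1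
    refine hkey _ _ (Real.cos_sq_add_sin_sq _) ?_
    refine le_trans ?_ (le_abs_self _)
    have h3 : (1 + y ^ 2) * (R * y) ≤ (1 + y ^ 2) * ((1 + R * y) * sin (2 * α) - y * cos (2 * α)) := by
      have e : (1 + y ^ 2) * ((1 + R * y) * sin (2 * α) - y * cos (2 * α)) =
        (1 + R * y) * ((1 + y ^ 2) * sin (2 * α)) - y * ((1 + y ^ 2) * cos (2 * α)) := by ring
      rw [e, hc2, hs2]
      have : 0 ≤ (1 + y ^ 2) * y * (1 - R) := by
        have : 0 ≤ 1 - R := by linarith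
        positivity
      nlinarith [mul_pos (mul_pos hR hy) hy]
    have h4 : R * y ≤ (1 + R * y) * sin (2 * α) - y * cos (2 * α) :=
      le_of_mul_le_mul_left h3 (by positivity)
    have h5 : (1 + R * y) * sin (2 * α) ≤ (1 + R * y) * sin Θ :=
      mul_le_mul_of_nonneg_left hs (by positivity)
    have h6 : y * cos Θ ≤ y * cos (2 * α) := mul_le_mul_of_nonneg_left hc hy.le
    linarith
  push Not at h1
  by_cases h2 : Θ ≤ π
  · have hc : cos Θ ≤ 0 := Real.cos_nonpos_of_pi_div_two_le_of_le h1.le (by linarith [Real.pi_pos])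
    by_cases hb : (1 + R * y) * cos Θ + y * sin Θ ≤ 0
    · exact Or.inl hb
    · right
      push Not at hb
      have h4 : (1 + R * y) * cos Θ + y * sin Θ ≤ y := by
        have h5 : (1 + R * y) * cos Θ ≤ 0 := mul_nonpos_of_nonneg_of_nonpos (by positivity) hc
        nlinarith [Real.sin_le_one Θ]
      nlinarith [mul_pos hR hy]
  push Not at h2
  by_cases h3 : Θ ≤ 3 * π / 2
  · left
    have hc : cos Θ ≤ 0 := Real.cos_nonpos_of_pi_div_two_le_of_le h1.le (by linarith [Real.pi_pos])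
    have hs : sin Θ ≤ 0 := by
      have e : sin Θ = - sin (Θ - π) := by rw [Real.sin_sub]; simp
      rw [e]
      have := Real.sin_nonneg_of_nonneg_of_le_pi (x := Θ - π) (by linarith) (by linarith)
      linarith
    have h5 : (1 + R * y) * cos Θ ≤ 0 := mul_nonpos_of_nonneg_of_nonpos (by positivity) hc
    have h6 : y * sin Θ ≤ 0 := mul_nonpos_of_nonneg_of_nonpos hy.le hs
    linarith
  push Not at h3
  · right
    have hθ1 : c * y ≤ 2 * π - Θ := by linarith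
    have hθ2 : 2 * π - Θ ≤ π / 2 := by linarith
    have ec : cos Θ = cos (2 * π - Θ) := by
      rw [Real.cos_sub]; simp
    have es : sin Θ = - sin (2 * π - Θ) := by
      rw [Real.sin_sub]; simp
    refine hkey _ _ (Real.cos_sq_add_sin_sq _) ?_
    rw [ec, es, ← abs_neg]
    refine le_trans ?_ (le_abs_self _)
    set θ := 2 * π - Θ with hθ
    have hc : 0 ≤ cos θ := Real.cos_nonneg_of_neg_pi_div_two_le_of_le (by linarith [Real.pi_pos]) hθ2
    have hs : sin (c * y) ≤ sin θ :=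
      Real.sin_le_sin_of_le_of_le_pi_div_two (by linarith [Real.pi_pos]) hθ2 hθ1
    have hs0 : 0 ≤ sin θ := le_trans (by positivity) (hend.trans hs)
    nlinarith [mul_nonneg hy.le hc, mul_nonneg (mul_nonneg hR.le hy.le) hs0]

/-- Case II: lower bound of the modulus. -/
lemma rho_large {y α ψ c P X : ℝ} {m : ℕ} (hy : 0 < y) (hy' : y ≤ 9 / 20) (hP : P ^ 2 = 1 + y ^ 2)
    (hP0 : 0 < P) (hα : α ≤ y) (hψ0 : 0 ≤ ψ) (hψ : ψ ≤ π / 2) (hX0 : 0 ≤ X)
    (hX : 1 - 87 / 100 * y ≤ X * cos ψ) (hΘ : 2 * π - c * y ≤ m * α + ψ) :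
    exp ((2 * π - c * y) * (y / (2 + y ^ 2))) * (1 - (y / (2 + y ^ 2)) ^ 2) * (1 - 87 / 100 * y) ≤
      P ^ m * X := by
  set κ := y / (2 + y ^ 2) with hκ
  have hd : (0 : ℝ) < 2 + y ^ 2 := by positivity
  have hκ0 : 0 < κ := by positivity
  have hκ1 : κ ≤ 21 / 100 := by
    rw [hκ, div_le_iff₀ hd]; nlinarith
  -- the power of `P`
  have hP1 : exp (y * κ) ≤ P := by
    have h1 := Real.le_log_one_add_of_nonneg (x := y ^ 2) (by positivity)
    rw [← hP, Real.log_pow] at h1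
    have h2 : y * κ ≤ log P := by
      have : 2 * (y * κ) = 2 * y ^ 2 / (y ^ 2 + 2) := by rw [hκ]; field_simp; ring
      push_cast at h1
      linarith
    exact (Real.le_log_iff_exp_le hP0).mp h2
  have hPm : exp ((2 * π - c * y - ψ) * κ) ≤ P ^ m := by
    calc exp ((2 * π - c * y - ψ) * κ) ≤ exp (m * (y * κ)) := by
          apply Real.exp_le_exp.mpr
          have h1 : (m : ℝ) * α ≤ m * y := mul_le_mul_of_nonneg_left hα (Nat.cast_nonneg m)
          have h2 : 2 * π - c * y - ψ ≤ m * y := by linarith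
          calc (2 * π - c * y - ψ) * κ ≤ (m * y) * κ := mul_le_mul_of_nonneg_right h2 hκ0.le
            _ = m * (y * κ) := by ring
      _ = exp (y * κ) ^ m := by rw [Real.exp_nat_mul]
      _ ≤ P ^ m := pow_le_pow_left₀ (exp_pos _).le hP1 m
  -- the cosine
  have hcos : (1 - κ ^ 2) * cos ψ ≤ 1 - ψ * κ := by
    by_cases hψ1 : ψ ≤ 1
    · have h1 : cos ψ ≤ 1 - 43 / 96 * ψ ^ 2 := by
        have h2 := Real.cos_bound (x := ψ) (by rw [abs_of_nonneg hψ0]; exact hψ1)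
        rw [abs_of_nonneg hψ0] at h2
        have h3 := (abs_le.mp h2).2
        have h4 : ψ ^ 4 ≤ ψ ^ 2 := pow_le_pow_of_le_one hψ0 hψ1 (by norm_num)
        nlinarith
      have h2 : 0 ≤ 1 - κ ^ 2 := by nlinarith
      have h3 := mul_le_mul_of_nonneg_left h1 h2
      refine h3.trans ?_
      nlinarith [sq_nonneg (κ - ψ / 2), sq_nonneg ψ, mul_nonneg (sq_nonneg ψ) (sub_nonneg.mpr hκ1)]
    · push Not at hψ1
      have h1 : cos ψ ≤ cos 1 :=
        Real.cos_le_cos_of_nonneg_of_le_pi (by norm_num) (by linarith [Real.pi_pos]) hψ1.le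
      have h2 : cos 1 ≤ 5 / 8 := by
        have h3 := Real.cos_one_le
        linarith
      have h3 : ψ * κ ≤ 3 / 8 := by
        have h4 : ψ ≤ 16 / 10 := by linarith [Real.pi_lt_d2]
        nlinarith
      have h4 : 0 ≤ cos ψ := Real.cos_nonneg_of_neg_pi_div_two_le_of_le (by linarith [Real.pi_pos]) hψ
      nlinarith [mul_nonneg (sq_nonneg κ) h4]
  have hexp : (1 - κ ^ 2) * cos ψ ≤ exp (-(ψ * κ)) := by
    have := Real.add_one_le_exp (-(ψ * κ))
    linarith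
  have h1 : exp ((2 * π - c * y) * κ) * ((1 - κ ^ 2) * cos ψ) ≤ P ^ m := by
    calc exp ((2 * π - c * y) * κ) * ((1 - κ ^ 2) * cos ψ)
        ≤ exp ((2 * π - c * y) * κ) * exp (-(ψ * κ)) := mul_le_mul_of_nonneg_left hexp (exp_pos _).le
      _ = exp ((2 * π - c * y - ψ) * κ) := by rw [← Real.exp_add]; ring_nf
      _ ≤ P ^ m := hPm
  have h2 : 0 ≤ 1 - κ ^ 2 := by nlinarith
  calc exp ((2 * π - c * y) * κ) * (1 - κ ^ 2) * (1 - 87 / 100 * y)
      ≤ exp ((2 * π - c * y) * κ) * (1 - κ ^ 2) * (X * cos ψ) :=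
        mul_le_mul_of_nonneg_left hX (mul_nonneg (exp_pos _).le h2)
    _ = (exp ((2 * π - c * y) * κ) * ((1 - κ ^ 2) * cos ψ)) * X := by ring
    _ ≤ P ^ m * X := mul_le_mul_of_nonneg_right h1 hX0

/-- the polar data -/
lemma polar {y : ℝ} (hy : 0 < y) {h : ℂ} (h1 : 13 / 20 ≤ h.re) (hX : 0 < 1 - h.im * y) (m : ℕ) :
    ∃ α ψ P X : ℝ, 0 < P ∧ P ^ 2 = 1 + y ^ 2 ∧ 0 ≤ α ∧ α ≤ y ∧ 0 ≤ X ∧ 0 ≤ ψ ∧ ψ ≤ π / 2 ∧
      (1 + y ^ 2) * cos (2 * α) = 1 - y ^ 2 ∧ (1 + y ^ 2) * sin (2 * α) = 2 * y ∧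
      X * cos ψ = 1 - h.im * y ∧
      P ^ m * X = ‖(1 + y * Complex.I : ℂ) ^ m * (1 + y * Complex.I * h)‖ ∧
      ((1 + y * Complex.I : ℂ) ^ m * (1 + y * Complex.I * h)).re = P ^ m * X * cos (m * α + ψ) ∧
      ((1 + y * Complex.I : ℂ) ^ m * (1 + y * Complex.I * h)).im = P ^ m * X * sin (m * α + ψ) := by
  set p : ℂ := 1 + y * Complex.I with hp
  set x : ℂ := 1 + y * Complex.I * h with hx
  have hpre : p.re = 1 := by simp [hp]
  have hpim : p.im = y := by simp [hp]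
  have hxre : x.re = 1 - h.im * y := by simp [hx]; ring
  have hxim : x.im = y * h.re := by simp [hx]
  have hxim0 : 0 < y * h.re := mul_pos hy (by linarith)
  have hP2 : ‖p‖ ^ 2 = 1 + y ^ 2 := norm_p_sq y
  have hp0 : p ≠ 0 := by
    intro h0
    rw [h0] at hpre
    simp at hpre
  have hPpos : 0 < ‖p‖ := norm_pos_iff.mpr hp0
  have c1 := Complex.norm_mul_cos_arg p
  have s1 := Complex.norm_mul_sin_arg p
  rw [hpre] at c1
  rw [hpim] at s1
  have hα0 : 0 ≤ Complex.arg p := Complex.arg_nonneg_iff.mpr (by rw [hpim]; exact hy.le)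
  have hcosα : 0 < cos (Complex.arg p) := by
    by_contra hn
    push Not at hn
    nlinarith [mul_nonneg hPpos.le (neg_nonneg.mpr hn)]
  have hα1 : Complex.arg p < π / 2 := by
    by_contra hn
    push Not at hn
    have := Real.cos_nonpos_of_pi_div_two_le_of_le hn
      (by linarith [Complex.arg_le_pi p, Real.pi_pos])
    linarith
  have hα2 : Complex.arg p ≤ y := by
    have h2 := Real.le_tan hα0 hα1
    rw [Complex.tan_arg, hpre, hpim, div_one] at h2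
    exact h2
  have hψ0 : 0 ≤ Complex.arg x := Complex.arg_nonneg_iff.mpr (by rw [hxim]; exact hxim0.le)
  have hψ1 : Complex.arg x ≤ π / 2 :=
    Complex.arg_le_pi_div_two_iff.mpr (Or.inl (by rw [hxre]; exact hX.le))
  refine ⟨Complex.arg p, Complex.arg x, ‖p‖, ‖x‖, hPpos, hP2, hα0, hα2, norm_nonneg _, hψ0, hψ1,
    ?_, ?_, ?_, ?_, ?_⟩
  · rw [Real.cos_two_mul, ← hP2]
    have : ‖p‖ ^ 2 * (2 * cos (Complex.arg p) ^ 2 - 1) =
      2 * (‖p‖ * cos (Complex.arg p)) ^ 2 - ‖p‖ ^ 2 := by ring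
    rw [this, c1, hP2]
    ring
  · rw [Real.sin_two_mul, ← hP2]
    have : ‖p‖ ^ 2 * (2 * sin (Complex.arg p) * cos (Complex.arg p)) =
      2 * (‖p‖ * sin (Complex.arg p)) * (‖p‖ * cos (Complex.arg p)) := by ring
    rw [this, c1, s1]
    ring
  · rw [Complex.norm_mul_cos_arg, hxre]
  · rw [norm_mul, norm_pow]
  · have e : p ^ m * x = ((‖p‖ ^ m * ‖x‖ : ℝ) : ℂ) *
        Complex.exp (((m * Complex.arg p + Complex.arg x : ℝ) : ℂ) * Complex.I) := by
      conv_lhs => rw [← Complex.norm_mul_exp_arg_mul_I p, ← Complex.norm_mul_exp_arg_mul_I x]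
      rw [mul_pow, ← Complex.exp_nat_mul]
      push_cast
      rw [add_mul, Complex.exp_add, mul_assoc (m : ℂ)]
      ring
    rw [e]
    constructor
    · rw [Complex.re_ofReal_mul, Complex.exp_ofReal_mul_I_re]
    · rw [Complex.im_ofReal_mul, Complex.exp_ofReal_mul_I_im]

lemma sin_lower {t : ℝ} (h0 : 0 ≤ t) : t - t ^ 3 / 6 ≤ sin t := by
  rcases h0.eq_or_lt with h | h
  · rw [← h]; simp
  · exact (Real.sin_gt_sub_cube h).le

theorem small (y : ℝ) (h : ℂ) (m : ℕ) (hy : 0 < y) (hy' : y ≤ 9 / 20) (h1 : 13 / 20 ≤ h.re)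
    (h2 : h.im ≤ 87 / 100) (hm : 2 ≤ m) :
    0 ≤ (u (1 + y * Complex.I) h m).re + 7 / 20 * ‖u (1 + y * Complex.I) h m‖ ^ 2 ∧
    0 ≤ (u (1 + y * Complex.I) h m).im + 87 / 100 * ‖u (1 + y * Complex.I) h m‖ ^ 2 := by
  have hX : 0 < 1 - h.im * y := by nlinarith
  obtain ⟨α, ψ, P, X, hP0, hP, hα0, hα, hX0, hψ0, hψ, hc2, hs2, hXc, hnorm, hre, him⟩ :=
    polar hy h1 hX m
  have hXc' : 1 - 87 / 100 * y ≤ X * cos ψ := by rw [hXc]; nlinarith
  have e1 : (7 / 20 : ℝ) = 1 / (2 * (10 / 7)) := by norm_num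
  have e2 : (87 / 100 : ℝ) = 1 / (2 * (50 / 87)) := by norm_num
  rw [e1, e2]
  have hm1 : 1 ≤ m := by omega
  have hΘ1 : 2 * α ≤ m * α + ψ := by
    have : (2 : ℝ) ≤ m := by exact_mod_cast hm
    nlinarith
  have hsin : 21 / 10 * y - (21 / 10 * y) ^ 3 / 6 ≤ sin (21 / 10 * y) := sin_lower (by positivity)
  have hy2 : y ^ 2 ≤ 81 / 400 := by nlinarith
  have hy3 : y ^ 3 ≤ 81 / 400 * y := by nlinarith [mul_le_mul_of_nonneg_left hy2 hy.le]
  by_cases hΘ : m * α + ψ ≤ 2 * π - 21 / 10 * y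
  · constructor
    · refine one_of_quad hy (by norm_num) hm1 (Real.cos_sq_add_sin_sq _) hre him ?_
      refine cases_one (c := 21 / 10) hy (by norm_num) (by linarith) (by positivity) hα0 hc2 hs2 hΘ1 hΘ
        (by positivity) ?_
      have h3 := Real.cos_bound (x := 21 / 10 * y) (by rw [abs_of_nonneg (by positivity)]; linarith)
      rw [abs_of_nonneg (by positivity : (0 : ℝ) ≤ 21 / 10 * y)] at h3
      have h4 := (abs_le.mp h3).2
      have hy5 : y ^ 5 ≤ 81 / 400 * (81 / 400) * y := by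
        have : y ^ 5 = y ^ 3 * y ^ 2 := by ring
        rw [this]
        have h5 : 0 ≤ y ^ 3 := by positivity
        nlinarith
      have h5 : y * cos (21 / 10 * y) ≤
          y * (1 - (21 / 10 * y) ^ 2 / 2 + (21 / 10 * y) ^ 4 * (5 / 96)) :=
        mul_le_mul_of_nonneg_left (by linarith) hy.le
      nlinarith
    · refine two_of_quad hy (by norm_num) hm1 (Real.cos_sq_add_sin_sq _) hre him ?_
      refine cases_two (c := 21 / 10) hy (by norm_num) (by norm_num) (by positivity) hα0 hc2 hs2 hΘ1 hΘ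
        (by positivity) ?_
      nlinarith
  · push Not at hΘ
    have h3 := rho_large (c := 21 / 10) hy hy' hP hP0 hα hψ0 hψ hX0 hXc' hΘ.le
    have h4 := num_far hy.le hy'
    have h5 : 10 / 7 * y + √(1 + (10 / 7 - 1) ^ 2 * y ^ 2) ≤
        ‖(1 + y * Complex.I : ℂ) ^ m * (1 + y * Complex.I * h)‖ := by
      rw [← hnorm]
      have h6 : √(1 + (10 / 7 - 1) ^ 2 * y ^ 2) ≤ 1 + 9 / 98 * y ^ 2 := by
        rw [Real.sqrt_le_left (by positivity)]
        nlinarith [sq_nonneg (y ^ 2)]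
      linarith
    exact ⟨far hy hm1 (by norm_num) h5, far_two hy hm1 (by norm_num) ((radii hy.le).trans h5)⟩

theorem small_near (y : ℝ) (h : ℂ) (m : ℕ) (hy : 0 < y) (hy' : y ≤ 1 / 50) (h1 : 13 / 20 ≤ h.re)
    (h2 : h.im ≤ 87 / 100) (hm : 2 ≤ m) :
    0 ≤ (u (1 + y * Complex.I) h m).re + 6 / 25 * ‖u (1 + y * Complex.I) h m‖ ^ 2 := by
  have hX : 0 < 1 - h.im * y := by nlinarith
  obtain ⟨α, ψ, P, X, hP0, hP, hα0, hα, hX0, hψ0, hψ, hc2, hs2, hXc, hnorm, hre, him⟩ :=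
    polar hy h1 hX m
  have hXc' : 1 - 87 / 100 * y ≤ X * cos ψ := by rw [hXc]; nlinarith
  have e1 : (6 / 25 : ℝ) = 1 / (2 * (25 / 12)) := by norm_num
  rw [e1]
  have hm1 : 1 ≤ m := by omega
  have hΘ1 : 2 * α ≤ m * α + ψ := by
    have : (2 : ℝ) ≤ m := by exact_mod_cast hm
    nlinarith
  have hsin : 16 / 5 * y - (16 / 5 * y) ^ 3 / 6 ≤ sin (16 / 5 * y) := sin_lower (by positivity)
  have hy2 : y ^ 2 ≤ 1 / 2500 := by nlinarith
  have hy3 : y ^ 3 ≤ 1 / 2500 * y := by nlinarith [mul_le_mul_of_nonneg_left hy2 hy.le]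
  by_cases hΘ : m * α + ψ ≤ 2 * π - 16 / 5 * y
  · refine one_of_quad hy (by norm_num) hm1 (Real.cos_sq_add_sin_sq _) hre him ?_
    refine cases_one (c := 16 / 5) hy (by norm_num) (by linarith) (by positivity) hα0 hc2 hs2 hΘ1 hΘ
      (by positivity) ?_
    have h5 : y * cos (16 / 5 * y) ≤ y * 1 := mul_le_mul_of_nonneg_left (Real.cos_le_one _) hy.le
    nlinarith
  · push Not at hΘ
    have h3 := rho_large (c := 16 / 5) hy (by linarith) hP hP0 hα hψ0 hψ hX0 hXc' hΘ.le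
    have h4 := num_near hy.le hy'
    refine far hy hm1 (by norm_num) ?_
    rw [← hnorm]
    have h6 : √(1 + (25 / 12 - 1) ^ 2 * y ^ 2) ≤ 1 + 169 / 288 * y ^ 2 := by
      rw [Real.sqrt_le_left (by positivity)]
      nlinarith [sq_nonneg (y ^ 2)]
    linarith

end Pool.Agent.R945.MK
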