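import Pool.Agent.R945.MK.Defs

/-!
# Project MK, part A3: maximum principle
-/

set_option autoImplicit false

namespace Pool.Agent.R945.MK

open Finset

namespace A3

lemma u_one (p h : ℂ) : u p h 1 = p * h := by
  simp [u]

lemma u_succ (p h : ℂ) (m : ℕ) (hm : 1 ≤ m) : u p h (m + 1) = p * (1 + u p h m) := by
  obtain ⟨k, rfl⟩ := Nat.exists_eq_add_of_le' hm
  have h1 : ∑ j ∈ range (k + 1), p ^ (j + 1) = p + p * ∑ j ∈ range k, p ^ (j + 1) := by
    rw [Finset.sum_range_succ', Finset.mul_sum, add_comm]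
    congr 1
    · simp
    · apply Finset.sum_congr rfl
      intro j _
      ring
  simp only [u, Nat.add_sub_cancel]
  rw [h1]
  ring

lemma u_diff (h : ℂ) (m : ℕ) : Differentiable ℂ (fun p => u p h m) := by
  unfold u
  fun_prop

lemma maxp (c : ℂ) (R B : ℝ) (f : ℂ → ℂ)
    (hf : ∀ z : ℂ, 1 ≤ z.re → 0 ≤ z.im → DifferentiableAt ℂ f z)
    (hb : ∀ z : ℂ, 1 ≤ z.re → 0 ≤ z.im → ‖z - c‖ ≤ R →
      (z.re = 1 ∨ z.im = 0 ∨ ‖z - c‖ = R) → (f z).re ≤ B)
    (z : ℂ) (h1 : 1 ≤ z.re) (h2 : 0 ≤ z.im) (h3 : ‖z - c‖ ≤ R) : (f z).re ≤ B := by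
  by_cases hz : z.re = 1 ∨ z.im = 0 ∨ ‖z - c‖ = R
  · exact hb z h1 h2 h3 hz
  push Not at hz
  set U : Set ℂ := {z | 1 < z.re ∧ 0 < z.im ∧ ‖z - c‖ < R} with hU
  have hcl : closure U ⊆ {z | 1 ≤ z.re ∧ 0 ≤ z.im ∧ ‖z - c‖ ≤ R} := by
    apply closure_minimal
    · rintro w ⟨h1, h2, h3⟩
      exact ⟨h1.le, h2.le, h3.le⟩
    · exact (isClosed_le continuous_const Complex.continuous_re).inter
        ((isClosed_le continuous_const Complex.continuous_im).inter
          (isClosed_le (continuous_norm.comp (continuous_id.sub continuous_const))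
            continuous_const))
  have hopen : IsOpen U := (isOpen_lt continuous_const Complex.continuous_re).inter
        ((isOpen_lt continuous_const Complex.continuous_im).inter
          (isOpen_lt (continuous_norm.comp (continuous_id.sub continuous_const))
            continuous_const))
  have hbd : Bornology.IsBounded U := by
    apply (Metric.isBounded_ball (x := c) (r := R)).subset
    rintro w ⟨_, _, h3⟩
    rwa [mem_ball_iff_norm]
  have hd : DiffContOnCl ℂ (fun z => Complex.exp (f z)) U := by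
    apply DifferentiableOn.diffContOnCl
    intro w hw
    exact ((hf w (hcl hw).1 (hcl hw).2.1).cexp).differentiableWithinAt
  have hzU : z ∈ U := ⟨lt_of_le_of_ne h1 (Ne.symm hz.1), lt_of_le_of_ne h2 (Ne.symm hz.2.1),
    lt_of_le_of_ne h3 hz.2.2⟩
  have hfr : ∀ w ∈ frontier U, ‖Complex.exp (f w)‖ ≤ Real.exp B := by
    intro w hw
    rw [Complex.norm_exp]
    apply Real.exp_le_exp.mpr
    have hw1 := hcl (frontier_subset_closure hw)
    apply hb w hw1.1 hw1.2.1 hw1.2.2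
    by_contra hcon
    push Not at hcon
    have : w ∈ U := ⟨lt_of_le_of_ne hw1.1 (Ne.symm hcon.1), lt_of_le_of_ne hw1.2.1 (Ne.symm hcon.2.1),
      lt_of_le_of_ne hw1.2.2 hcon.2.2⟩
    rw [hopen.frontier_eq] at hw
    exact hw.2 this
  have := Complex.norm_le_of_forall_mem_frontier_norm_le hbd hd hfr (subset_closure hzU)
  rw [Complex.norm_exp] at this
  exact Real.exp_le_exp.mp this

lemma inv_re_ge {v : ℂ} {a : ℝ} (hv : v ≠ 0) (h : 0 ≤ v.re + a * ‖v‖ ^ 2) : -a ≤ (1 / v).re := by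
  rw [one_div, Complex.inv_re, Complex.normSq_eq_norm_sq]
  have : 0 < ‖v‖ ^ 2 := by positivity
  rw [le_div_iff₀ this]
  linarith

lemma inv_im_le {v : ℂ} {a : ℝ} (hv : v ≠ 0) (h : 0 ≤ v.im + a * ‖v‖ ^ 2) : (1 / v).im ≤ a := by
  rw [one_div, Complex.inv_im, Complex.normSq_eq_norm_sq]
  have : 0 < ‖v‖ ^ 2 := by positivity
  rw [div_le_iff₀ this]
  linarith

lemma real_re (x : ℝ) (hx : 1 ≤ x) (h : ℂ) (m : ℕ) (h1 : 13 / 20 ≤ h.re) :
    13 / 20 ≤ (u (x : ℂ) h m).re := by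
  have h2 : u (x : ℂ) h m = ((x ^ m : ℝ) : ℂ) * h + ((∑ j ∈ range (m - 1), x ^ (j + 1) : ℝ) : ℂ) := by
    unfold u
    push_cast
    rfl
  rw [h2, Complex.add_re, Complex.re_ofReal_mul, Complex.ofReal_re]
  have h3 : 1 ≤ x ^ m := one_le_pow₀ hx
  have h4 : 0 ≤ ∑ j ∈ range (m - 1), x ^ (j + 1) := Finset.sum_nonneg fun j _ => by positivity
  nlinarith

lemma real_bd (p h : ℂ) (m : ℕ) (hp : 1 ≤ p.re) (hp' : p.im = 0) (h1 : 13 / 20 ≤ h.re) :
    0 ≤ (1 / u p h m).re ∧ (1 / u p h m).im ≤ 87 / 100 := by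
  have hpx : p = (p.re : ℂ) := by
    apply Complex.ext
    · simp
    · simp [hp']
  have h2 := real_re p.re hp h m h1
  rw [← hpx] at h2
  have h3 : u p h m ≠ 0 := by
    intro h0
    rw [h0] at h2
    simp at h2
    linarith
  constructor
  · have h4 : 0 ≤ (u p h m).re + 0 * ‖u p h m‖ ^ 2 := by linarith
    have := inv_re_ge h3 h4
    linarith
  · apply inv_im_le h3
    rw [← Complex.normSq_eq_norm_sq, Complex.normSq_apply]
    nlinarith [sq_nonneg ((u p h m).im + 50 / 87), mul_self_nonneg ((u p h m).re - 13 / 20)]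

lemma far (p h : ℂ) (m : ℕ) (hm : 1 ≤ m) (hp : 5 ≤ ‖p‖) (h1 : 13 / 20 ≤ h.re) :
    3 ≤ ‖u p h m‖ := by
  induction m, hm using Nat.le_induction with
  | base =>
    rw [u_one, norm_mul]
    have h2 : 13 / 20 ≤ ‖h‖ := h1.trans (Complex.re_le_norm h)
    nlinarith
  | succ m hm ih =>
    rw [u_succ p h m hm, norm_mul]
    have h2 : ‖u p h m‖ - 1 ≤ ‖1 + u p h m‖ := by
      have := norm_sub_norm_le (u p h m) (-1)
      rw [norm_neg, norm_one, sub_neg_eq_add, add_comm (u p h m)] at this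
      exact this
    nlinarith

lemma far_bd (p h : ℂ) (m : ℕ) (hm : 1 ≤ m) (hp : 5 ≤ ‖p‖) (h1 : 13 / 20 ≤ h.re) :
    -(7 / 20) ≤ (1 / u p h m).re ∧ (1 / u p h m).im ≤ 87 / 100 := by
  have h2 := far p h m hm hp h1
  have h3 : ‖1 / u p h m‖ ≤ 1 / 3 := by
    rw [norm_div, norm_one]
    exact one_div_le_one_div_of_le (by norm_num) h2
  have h4 := Complex.abs_re_le_norm (1 / u p h m)
  have h5 := Complex.abs_im_le_norm (1 / u p h m)
  constructor
  · have := neg_abs_le (1 / u p h m).re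
    linarith
  · have := le_abs_self (1 / u p h m).im
    linarith

lemma line_bd (hb : ∀ (y : ℝ) (h : ℂ) (m : ℕ), 0 ≤ y → 13 / 20 ≤ h.re → h.im ≤ 87 / 100 → 1 ≤ m →
      0 ≤ (u (1 + y * Complex.I) h m).re + 7 / 20 * ‖u (1 + y * Complex.I) h m‖ ^ 2 ∧
      0 ≤ (u (1 + y * Complex.I) h m).im + 87 / 100 * ‖u (1 + y * Complex.I) h m‖ ^ 2)
    (p h : ℂ) (m : ℕ) (hp : p.re = 1) (hp' : 0 ≤ p.im) (h1 : 13 / 20 ≤ h.re) (h2 : h.im ≤ 87 / 100)
    (hm : 1 ≤ m) (h0 : u p h m ≠ 0) :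
    -(7 / 20) ≤ (1 / u p h m).re ∧ (1 / u p h m).im ≤ 87 / 100 := by
  have hpy : p = 1 + (p.im : ℂ) * Complex.I := by
    apply Complex.ext <;> simp [hp]
  have h3 := hb p.im h m hp' h1 h2 hm
  rw [← hpy] at h3
  exact ⟨inv_re_ge h0 h3.1, inv_im_le h0 h3.2⟩

end A3

open A3

theorem region (hb : ∀ (y : ℝ) (h : ℂ) (m : ℕ), 0 ≤ y → 13 / 20 ≤ h.re → h.im ≤ 87 / 100 → 1 ≤ m →
      0 ≤ (u (1 + y * Complex.I) h m).re + 7 / 20 * ‖u (1 + y * Complex.I) h m‖ ^ 2 ∧
      0 ≤ (u (1 + y * Complex.I) h m).im + 87 / 100 * ‖u (1 + y * Complex.I) h m‖ ^ 2)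
    (p h : ℂ) (m : ℕ) (hp : 1 ≤ p.re) (hp' : 0 ≤ p.im) (h1 : 13 / 20 ≤ h.re) (h2 : h.im ≤ 87 / 100)
    (hm : 1 ≤ m) :
    u p h m ≠ 0 ∧ -(7 / 20) ≤ (1 / u p h m).re ∧ (1 / u p h m).im ≤ 87 / 100 := by
  -- from non-vanishing to the bounds
  have step : ∀ m : ℕ, 1 ≤ m → (∀ p : ℂ, 1 ≤ p.re → 0 ≤ p.im → u p h m ≠ 0) →
      ∀ p : ℂ, 1 ≤ p.re → 0 ≤ p.im →
        u p h m ≠ 0 ∧ -(7 / 20) ≤ (1 / u p h m).re ∧ (1 / u p h m).im ≤ 87 / 100 := by
    intro m hm h0 p hp hp'
    refine ⟨h0 p hp hp', ?_⟩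
    have hbd : ∀ z : ℂ, 1 ≤ z.re → 0 ≤ z.im → ‖z - 0‖ ≤ 5 →
        (z.re = 1 ∨ z.im = 0 ∨ ‖z - 0‖ = 5) →
        -(7 / 20) ≤ (1 / u z h m).re ∧ (1 / u z h m).im ≤ 87 / 100 := by
      intro z hz1 hz2 _ hz
      rcases hz with hz | hz | hz
      · exact line_bd hb z h m hz hz2 h1 h2 hm (h0 z hz1 hz2)
      · have := real_bd z h m hz1 hz h1
        exact ⟨by linarith [this.1], this.2⟩
      · rw [sub_zero] at hz
        exact far_bd z h m hm hz.ge h1
    rcases le_or_gt 5 ‖p‖ with h5 | h5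
    · exact far_bd p h m hm h5 h1
    have hdiff : ∀ z : ℂ, 1 ≤ z.re → 0 ≤ z.im → DifferentiableAt ℂ (fun p => 1 / u p h m) z := by
      intro z hz1 hz2
      exact (differentiableAt_const _).div (u_diff h m z) (h0 z hz1 hz2)
    have h5' : ‖p - 0‖ ≤ 5 := by
      rw [sub_zero]
      exact h5.le
    constructor
    · have := maxp 0 5 (7 / 20) (fun p => -(1 / u p h m))
        (fun z hz1 hz2 => (hdiff z hz1 hz2).neg)
        (fun z hz1 hz2 hz3 hz => by
          have := (hbd z hz1 hz2 hz3 hz).1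
          rw [Complex.neg_re]
          linarith) p hp hp' h5'
      rw [Complex.neg_re] at this
      linarith
    · have key : ∀ w : ℂ, (-Complex.I * w).re = w.im := by
        intro w
        simp
      have := maxp 0 5 (87 / 100) (fun p => -Complex.I * (1 / u p h m))
        (fun z hz1 hz2 => (hdiff z hz1 hz2).const_mul _)
        (fun z hz1 hz2 hz3 hz => by
          have := (hbd z hz1 hz2 hz3 hz).2
          rw [key]
          exact this) p hp hp' h5'
      rwa [key] at this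
  have main : ∀ m : ℕ, 1 ≤ m → ∀ p : ℂ, 1 ≤ p.re → 0 ≤ p.im →
        u p h m ≠ 0 ∧ -(7 / 20) ≤ (1 / u p h m).re ∧ (1 / u p h m).im ≤ 87 / 100 := by
    intro m hm
    induction m, hm using Nat.le_induction with
    | base =>
      apply step 1 le_rfl
      intro p hp hp'
      rw [u_one]
      apply mul_ne_zero
      · intro h0
        rw [h0] at hp
        simp at hp
        linarith
      · intro h0
        rw [h0] at h1
        simp at h1
        linarith
    | succ m hm ih =>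
      apply step (m + 1) (by omega)
      intro p hp hp'
      rw [u_succ p h m hm]
      apply mul_ne_zero
      · intro h0
        rw [h0] at hp
        simp at hp
        linarith
      · intro h0
        have h3 := ih p hp hp'
        have h4 : u p h m = -1 := by
          rw [add_comm] at h0
          exact eq_neg_of_add_eq_zero_left h0
        rw [h4] at h3
        have h5 := h3.2.1
        norm_num at h5
  exact main m hm p hp hp'

theorem region_near (hb : ∀ (y : ℝ) (h : ℂ) (m : ℕ), 0 ≤ y → 13 / 20 ≤ h.re → h.im ≤ 87 / 100 →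
      1 ≤ m →
      0 ≤ (u (1 + y * Complex.I) h m).re + 7 / 20 * ‖u (1 + y * Complex.I) h m‖ ^ 2 ∧
      0 ≤ (u (1 + y * Complex.I) h m).im + 87 / 100 * ‖u (1 + y * Complex.I) h m‖ ^ 2)
    (r : ℝ) (hr : 0 < r)
    (hn : ∀ (y : ℝ) (h : ℂ) (m : ℕ), 0 ≤ y → y ≤ r → 13 / 20 ≤ h.re → h.im ≤ 87 / 100 → 1 ≤ m →
      0 ≤ (u (1 + y * Complex.I) h m).re + 6 / 25 * ‖u (1 + y * Complex.I) h m‖ ^ 2)
    (p h : ℂ) (m : ℕ) (hp : 1 ≤ p.re) (hp' : 0 ≤ p.im) (h1 : 13 / 20 ≤ h.re) (h2 : h.im ≤ 87 / 100)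
    (hm : 1 ≤ m) :
    -(6 / 25) - (11 / 100) / r * ((p.re - 1) + p.im) ≤ (1 / u p h m).re := by
  have hreg := fun (p : ℂ) (hp : 1 ≤ p.re) (hp' : 0 ≤ p.im) => region hb p h m hp hp' h1 h2 hm
  have hcr : (11 / 100) / r * r = 11 / 100 := by
    field_simp
  have hc0 : 0 < (11 / 100) / r := by positivity
  have hout : ∀ z : ℂ, 1 ≤ z.re → 0 ≤ z.im → r ≤ (z.re - 1) + z.im →
      -(6 / 25) - (11 / 100) / r * ((z.re - 1) + z.im) ≤ (1 / u z h m).re := by
    intro z hz1 hz2 hz3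
    have h3 := (hreg z hz1 hz2).2.1
    have h4 : (11 / 100) / r * r ≤ (11 / 100) / r * ((z.re - 1) + z.im) :=
      mul_le_mul_of_nonneg_left hz3 hc0.le
    rw [hcr] at h4
    linarith
  rcases le_or_gt r ((p.re - 1) + p.im) with h3 | h3
  · exact hout p hp hp' h3
  have hnorm : ∀ z : ℂ, 1 ≤ z.re → 0 ≤ z.im → ‖z - 1‖ ≤ (z.re - 1) + z.im := by
    intro z hz1 hz2
    have := Complex.norm_le_abs_re_add_abs_im (z - 1)
    rw [Complex.sub_re, Complex.sub_im, Complex.one_re, Complex.one_im, sub_zero,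
      abs_of_nonneg (by linarith : (0 : ℝ) ≤ z.re - 1), abs_of_nonneg hz2] at this
    exact this
  have key : ∀ z : ℂ, (-(1 / u z h m) - (((11 / 100) / r : ℝ) : ℂ) * ((1 - Complex.I) * (z - 1))).re
      = -(1 / u z h m).re - (11 / 100) / r * ((z.re - 1) + z.im) := by
    intro z
    rw [Complex.sub_re, Complex.neg_re, Complex.re_ofReal_mul]
    congr 2
    simp
  have hmax := maxp 1 r (6 / 25)
    (fun z => -(1 / u z h m) - (((11 / 100) / r : ℝ) : ℂ) * ((1 - Complex.I) * (z - 1)))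
    (fun z hz1 hz2 => by
      have hd : DifferentiableAt ℂ (fun p => 1 / u p h m) z :=
        (differentiableAt_const _).div (u_diff h m z) (hreg z hz1 hz2).1
      exact hd.neg.sub (by fun_prop))
    (fun z hz1 hz2 hz3 hz => by
      rw [key]
      rcases hz with hz | hz | hz
      · have hpy : z = 1 + (z.im : ℂ) * Complex.I := by
          apply Complex.ext <;> simp [hz]
        have hy : z.im ≤ r := by
          have h4 := Complex.abs_im_le_norm (z - 1)
          rw [Complex.sub_im, Complex.one_im, sub_zero, abs_of_nonneg hz2] at h4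
          exact h4.trans hz3
        have h5 := hn z.im h m hz2 hy h1 h2 hm
        rw [← hpy] at h5
        have h6 := inv_re_ge (hreg z hz1 hz2).1 h5
        have h7 : 0 ≤ (11 / 100) / r * ((z.re - 1) + z.im) :=
          mul_nonneg hc0.le (by linarith)
        linarith
      · have h5 := (real_bd z h m hz1 hz h1).1
        have h7 : 0 ≤ (11 / 100) / r * ((z.re - 1) + z.im) :=
          mul_nonneg hc0.le (by linarith)
        linarith
      · have h5 := hout z hz1 hz2 (hz ▸ hnorm z hz1 hz2)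
        linarith) p hp hp' ((hnorm p hp hp').trans h3.le)
  rw [key] at hmax
  linarith

end Pool.Agent.R945.MK
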