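import Pool.Agent.R945.MK.A0
import Pool.Agent.R945.MK.A2

/-!
# Project MK (MP_07db0e_nt), part A4: the boundary inequalities
-/

set_option autoImplicit false

namespace Pool.Agent.R945.MK

lemma le_of_sq_le_sq₀' {x z : ℝ} (h : x ^ 2 ≤ z ^ 2) (hz : 0 ≤ z) : x ≤ z :=
  abs_le_of_sq_le_sq' h hz |>.2

lemma sm2 {y : ℝ} {h : ℂ} (hy : 9 / 20 ≤ y) (hy2 : y ≤ 2) (h1 : 13 / 20 ≤ h.re)
    (h2 : h.im ≤ 87 / 100) :
    0 ≤ (u (1 + y * Complex.I) h 2).re + 7 / 20 * ‖u (1 + y * Complex.I) h 2‖ ^ 2 ∧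
    0 ≤ (u (1 + y * Complex.I) h 2).im + 87 / 100 * ‖u (1 + y * Complex.I) h 2‖ ^ 2 := by
  have e1 : (rr y h.re h.im 1).1 = 1 + h.re * (1 + (-1) * y ^ 2) - h.im * (2 * y) := by
    simp only [rr]
    ring
  have e2 : (rr y h.re h.im 1).2 = 1 * y + h.re * (2 * y) + h.im * (1 + (-1) * y ^ 2) := by
    simp only [rr]
    ring
  have a1 := u_rr y h 1
  have a2 := norm_sq_rr y h 1
  norm_num only at a1 a2
  rw [a1.1, a1.2, a2, e1, e2]
  exact ⟨r2_1 hy hy2 h1 h2, r2_2 hy hy2 h1 h2⟩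

lemma sm3 {y : ℝ} {h : ℂ} (hy : 9 / 20 ≤ y) (hy2 : y ≤ (3 / 2)) (h1 : 13 / 20 ≤ h.re)
    (h2 : h.im ≤ 87 / 100) :
    0 ≤ (u (1 + y * Complex.I) h 3).re + 7 / 20 * ‖u (1 + y * Complex.I) h 3‖ ^ 2 ∧
    0 ≤ (u (1 + y * Complex.I) h 3).im + 87 / 100 * ‖u (1 + y * Complex.I) h 3‖ ^ 2 := by
  have e1 : (rr y h.re h.im 2).1 = 2 + (-1) * y ^ 2 + h.re * (1 + (-3) * y ^ 2) - h.im * (3 * y + (-1) * y ^ 3) := by
    simp only [rr]
    ring
  have e2 : (rr y h.re h.im 2).2 = 3 * y + h.re * (3 * y + (-1) * y ^ 3) + h.im * (1 + (-3) * y ^ 2) := by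
    simp only [rr]
    ring
  have a1 := u_rr y h 2
  have a2 := norm_sq_rr y h 2
  norm_num only at a1 a2
  rw [a1.1, a1.2, a2, e1, e2]
  exact ⟨r3_1 hy hy2 h1 h2, r3_2 hy hy2 h1 h2⟩

lemma sm4 {y : ℝ} {h : ℂ} (hy : 9 / 20 ≤ y) (hy2 : y ≤ (23 / 20)) (h1 : 13 / 20 ≤ h.re)
    (h2 : h.im ≤ 87 / 100) :
    0 ≤ (u (1 + y * Complex.I) h 4).re + 7 / 20 * ‖u (1 + y * Complex.I) h 4‖ ^ 2 ∧
    0 ≤ (u (1 + y * Complex.I) h 4).im + 87 / 100 * ‖u (1 + y * Complex.I) h 4‖ ^ 2 := by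
  have e1 : (rr y h.re h.im 3).1 = 3 + (-4) * y ^ 2 + h.re * (1 + (-6) * y ^ 2 + 1 * y ^ 4) - h.im * (4 * y + (-4) * y ^ 3) := by
    simp only [rr]
    ring
  have e2 : (rr y h.re h.im 3).2 = 6 * y + (-1) * y ^ 3 + h.re * (4 * y + (-4) * y ^ 3) + h.im * (1 + (-6) * y ^ 2 + 1 * y ^ 4) := by
    simp only [rr]
    ring
  have a1 := u_rr y h 3
  have a2 := norm_sq_rr y h 3
  norm_num only at a1 a2
  rw [a1.1, a1.2, a2, e1, e2]
  exact ⟨r4_1 hy hy2 h1 h2, r4_2 hy hy2 h1 h2⟩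

lemma sm5 {y : ℝ} {h : ℂ} (hy : 9 / 20 ≤ y) (hy2 : y ≤ (19 / 20)) (h1 : 13 / 20 ≤ h.re)
    (h2 : h.im ≤ 87 / 100) :
    0 ≤ (u (1 + y * Complex.I) h 5).re + 7 / 20 * ‖u (1 + y * Complex.I) h 5‖ ^ 2 ∧
    0 ≤ (u (1 + y * Complex.I) h 5).im + 87 / 100 * ‖u (1 + y * Complex.I) h 5‖ ^ 2 := by
  have e1 : (rr y h.re h.im 4).1 = 4 + (-10) * y ^ 2 + 1 * y ^ 4 + h.re * (1 + (-10) * y ^ 2 + 5 * y ^ 4) - h.im * (5 * y + (-10) * y ^ 3 + 1 * y ^ 5) := by
    simp only [rr]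
    ring
  have e2 : (rr y h.re h.im 4).2 = 10 * y + (-5) * y ^ 3 + h.re * (5 * y + (-10) * y ^ 3 + 1 * y ^ 5) + h.im * (1 + (-10) * y ^ 2 + 5 * y ^ 4) := by
    simp only [rr]
    ring
  have a1 := u_rr y h 4
  have a2 := norm_sq_rr y h 4
  norm_num only at a1 a2
  rw [a1.1, a1.2, a2, e1, e2]
  exact ⟨r5_1 hy hy2 h1 h2, r5_2 hy hy2 h1 h2⟩

lemma sm6 {y : ℝ} {h : ℂ} (hy : 9 / 20 ≤ y) (hy2 : y ≤ (4 / 5)) (h1 : 13 / 20 ≤ h.re)
    (h2 : h.im ≤ 87 / 100) :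
    0 ≤ (u (1 + y * Complex.I) h 6).re + 7 / 20 * ‖u (1 + y * Complex.I) h 6‖ ^ 2 ∧
    0 ≤ (u (1 + y * Complex.I) h 6).im + 87 / 100 * ‖u (1 + y * Complex.I) h 6‖ ^ 2 := by
  have e1 : (rr y h.re h.im 5).1 = 5 + (-20) * y ^ 2 + 6 * y ^ 4 + h.re * (1 + (-15) * y ^ 2 + 15 * y ^ 4 + (-1) * y ^ 6) - h.im * (6 * y + (-20) * y ^ 3 + 6 * y ^ 5) := by
    simp only [rr]
    ring
  have e2 : (rr y h.re h.im 5).2 = 15 * y + (-15) * y ^ 3 + 1 * y ^ 5 + h.re * (6 * y + (-20) * y ^ 3 + 6 * y ^ 5) + h.im * (1 + (-15) * y ^ 2 + 15 * y ^ 4 + (-1) * y ^ 6) := by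
    simp only [rr]
    ring
  have a1 := u_rr y h 5
  have a2 := norm_sq_rr y h 5
  norm_num only at a1 a2
  rw [a1.1, a1.2, a2, e1, e2]
  exact ⟨r6_1 hy hy2 h1 h2, r6_2 hy hy2 h1 h2⟩

lemma sm7 {y : ℝ} {h : ℂ} (hy : 9 / 20 ≤ y) (hy2 : y ≤ (7 / 10)) (h1 : 13 / 20 ≤ h.re)
    (h2 : h.im ≤ 87 / 100) :
    0 ≤ (u (1 + y * Complex.I) h 7).re + 7 / 20 * ‖u (1 + y * Complex.I) h 7‖ ^ 2 ∧
    0 ≤ (u (1 + y * Complex.I) h 7).im + 87 / 100 * ‖u (1 + y * Complex.I) h 7‖ ^ 2 := by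
  have e1 : (rr y h.re h.im 6).1 = 6 + (-35) * y ^ 2 + 21 * y ^ 4 + (-1) * y ^ 6 + h.re * (1 + (-21) * y ^ 2 + 35 * y ^ 4 + (-7) * y ^ 6) - h.im * (7 * y + (-35) * y ^ 3 + 21 * y ^ 5 + (-1) * y ^ 7) := by
    simp only [rr]
    ring
  have e2 : (rr y h.re h.im 6).2 = 21 * y + (-35) * y ^ 3 + 7 * y ^ 5 + h.re * (7 * y + (-35) * y ^ 3 + 21 * y ^ 5 + (-1) * y ^ 7) + h.im * (1 + (-21) * y ^ 2 + 35 * y ^ 4 + (-7) * y ^ 6) := by
    simp only [rr]
    ring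
  have a1 := u_rr y h 6
  have a2 := norm_sq_rr y h 6
  norm_num only at a1 a2
  rw [a1.1, a1.2, a2, e1, e2]
  exact ⟨r7_1 hy hy2 h1 h2, r7_2 hy hy2 h1 h2⟩

lemma sm8 {y : ℝ} {h : ℂ} (hy : 9 / 20 ≤ y) (hy2 : y ≤ (3 / 5)) (h1 : 13 / 20 ≤ h.re)
    (h2 : h.im ≤ 87 / 100) :
    0 ≤ (u (1 + y * Complex.I) h 8).re + 7 / 20 * ‖u (1 + y * Complex.I) h 8‖ ^ 2 ∧
    0 ≤ (u (1 + y * Complex.I) h 8).im + 87 / 100 * ‖u (1 + y * Complex.I) h 8‖ ^ 2 := by
  have e1 : (rr y h.re h.im 7).1 = 7 + (-56) * y ^ 2 + 56 * y ^ 4 + (-8) * y ^ 6 + h.re * (1 + (-28) * y ^ 2 + 70 * y ^ 4 + (-28) * y ^ 6 + 1 * y ^ 8) - h.im * (8 * y + (-56) * y ^ 3 + 56 * y ^ 5 + (-8) * y ^ 7) := by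
    simp only [rr]
    ring
  have e2 : (rr y h.re h.im 7).2 = 28 * y + (-70) * y ^ 3 + 28 * y ^ 5 + (-1) * y ^ 7 + h.re * (8 * y + (-56) * y ^ 3 + 56 * y ^ 5 + (-8) * y ^ 7) + h.im * (1 + (-28) * y ^ 2 + 70 * y ^ 4 + (-28) * y ^ 6 + 1 * y ^ 8) := by
    simp only [rr]
    ring
  have a1 := u_rr y h 7
  have a2 := norm_sq_rr y h 7
  norm_num only at a1 a2
  rw [a1.1, a1.2, a2, e1, e2]
  exact ⟨r8_1 hy hy2 h1 h2, r8_2 hy hy2 h1 h2⟩

lemma sm9 {y : ℝ} {h : ℂ} (hy : 9 / 20 ≤ y) (hy2 : y ≤ (11 / 20)) (h1 : 13 / 20 ≤ h.re)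
    (h2 : h.im ≤ 87 / 100) :
    0 ≤ (u (1 + y * Complex.I) h 9).re + 7 / 20 * ‖u (1 + y * Complex.I) h 9‖ ^ 2 ∧
    0 ≤ (u (1 + y * Complex.I) h 9).im + 87 / 100 * ‖u (1 + y * Complex.I) h 9‖ ^ 2 := by
  have e1 : (rr y h.re h.im 8).1 = 8 + (-84) * y ^ 2 + 126 * y ^ 4 + (-36) * y ^ 6 + 1 * y ^ 8 + h.re * (1 + (-36) * y ^ 2 + 126 * y ^ 4 + (-84) * y ^ 6 + 9 * y ^ 8) - h.im * (9 * y + (-84) * y ^ 3 + 126 * y ^ 5 + (-36) * y ^ 7 + 1 * y ^ 9) := by
    simp only [rr]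
    ring
  have e2 : (rr y h.re h.im 8).2 = 36 * y + (-126) * y ^ 3 + 84 * y ^ 5 + (-9) * y ^ 7 + h.re * (9 * y + (-84) * y ^ 3 + 126 * y ^ 5 + (-36) * y ^ 7 + 1 * y ^ 9) + h.im * (1 + (-36) * y ^ 2 + 126 * y ^ 4 + (-84) * y ^ 6 + 9 * y ^ 8) := by
    simp only [rr]
    ring
  have a1 := u_rr y h 8
  have a2 := norm_sq_rr y h 8
  norm_num only at a1 a2
  rw [a1.1, a1.2, a2, e1, e2]
  exact ⟨r9_1 hy hy2 h1 h2, r9_2 hy hy2 h1 h2⟩

lemma sm10 {y : ℝ} {h : ℂ} (hy : 9 / 20 ≤ y) (hy2 : y ≤ (1 / 2)) (h1 : 13 / 20 ≤ h.re)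
    (h2 : h.im ≤ 87 / 100) :
    0 ≤ (u (1 + y * Complex.I) h 10).re + 7 / 20 * ‖u (1 + y * Complex.I) h 10‖ ^ 2 ∧
    0 ≤ (u (1 + y * Complex.I) h 10).im + 87 / 100 * ‖u (1 + y * Complex.I) h 10‖ ^ 2 := by
  have e1 : (rr y h.re h.im 9).1 = 9 + (-120) * y ^ 2 + 252 * y ^ 4 + (-120) * y ^ 6 + 10 * y ^ 8 + h.re * (1 + (-45) * y ^ 2 + 210 * y ^ 4 + (-210) * y ^ 6 + 45 * y ^ 8 + (-1) * y ^ 10) - h.im * (10 * y + (-120) * y ^ 3 + 252 * y ^ 5 + (-120) * y ^ 7 + 10 * y ^ 9) := by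
    simp only [rr]
    ring
  have e2 : (rr y h.re h.im 9).2 = 45 * y + (-210) * y ^ 3 + 210 * y ^ 5 + (-45) * y ^ 7 + 1 * y ^ 9 + h.re * (10 * y + (-120) * y ^ 3 + 252 * y ^ 5 + (-120) * y ^ 7 + 10 * y ^ 9) + h.im * (1 + (-45) * y ^ 2 + 210 * y ^ 4 + (-210) * y ^ 6 + 45 * y ^ 8 + (-1) * y ^ 10) := by
    simp only [rr]
    ring
  have a1 := u_rr y h 9
  have a2 := norm_sq_rr y h 9
  norm_num only at a1 a2
  rw [a1.1, a1.2, a2, e1, e2]
  exact ⟨r10_1 hy hy2 h1 h2, r10_2 hy hy2 h1 h2⟩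

/-- large modulus -/
lemma big_far {y : ℝ} {h : ℂ} {m : ℕ} (hy : 0 < y) (hm : 1 ≤ m)
    (hZ : 10 / 7 * y + √(1 + (10 / 7 - 1) ^ 2 * y ^ 2) ≤
      ‖(1 + y * Complex.I : ℂ) ^ m * (1 + y * Complex.I * h)‖) :
    0 ≤ (u (1 + y * Complex.I) h m).re + 7 / 20 * ‖u (1 + y * Complex.I) h m‖ ^ 2 ∧
    0 ≤ (u (1 + y * Complex.I) h m).im + 87 / 100 * ‖u (1 + y * Complex.I) h m‖ ^ 2 := by
  constructor
  · have h1 := far hy (h := h) hm (R := 10 / 7) (by norm_num) hZ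
    have e : (1 : ℝ) / (2 * (10 / 7)) = 7 / 20 := by norm_num
    rwa [e] at h1
  · have h1 := far_two hy (h := h) hm (R := 50 / 87) (by norm_num) ((radii hy.le).trans hZ)
    have e : (1 : ℝ) / (2 * (50 / 87)) = 87 / 100 := by norm_num
    rwa [e] at h1

lemma norm_Z_sq (y : ℝ) (h : ℂ) (m : ℕ) :
    ‖(1 + y * Complex.I : ℂ) ^ m * (1 + y * Complex.I * h)‖ ^ 2 =
      (1 + y ^ 2) ^ m * ((1 - h.im * y) ^ 2 + (h.re * y) ^ 2) := by
  rw [norm_mul, mul_pow, norm_X_sq, norm_pow, ← pow_mul, mul_comm m 2, pow_mul, norm_p_sq]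

lemma big {y : ℝ} {h : ℂ} {m : ℕ} (l r c : ℝ) (m0 : ℕ) (hl : 0 < l) (hly : l ≤ y) (hyr : y ≤ r)
    (hm0 : m0 ≤ m) (hm : 1 ≤ m) (h1 : 13 / 20 ≤ h.re) (h2 : h.im ≤ 87 / 100) (hc0 : 0 ≤ c)
    (hc : c = 0 ∨ c ≤ 1 - 87 / 100 * r)
    (hnum : (10 / 7 * r + 1 + 9 / 98 * r ^ 2) ^ 2 ≤ (1 + l ^ 2) ^ m0 * (c ^ 2 + 169 / 400 * l ^ 2)) :
    0 ≤ (u (1 + y * Complex.I) h m).re + 7 / 20 * ‖u (1 + y * Complex.I) h m‖ ^ 2 ∧
    0 ≤ (u (1 + y * Complex.I) h m).im + 87 / 100 * ‖u (1 + y * Complex.I) h m‖ ^ 2 := by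
  have hy : 0 < y := hl.trans_le hly
  refine big_far hy hm ?_
  have h3 : √(1 + (10 / 7 - 1) ^ 2 * y ^ 2) ≤ 1 + 9 / 98 * y ^ 2 := by
    rw [Real.sqrt_le_left (by positivity)]
    nlinarith [sq_nonneg (y ^ 2)]
  have h4 : 10 / 7 * y + (1 + 9 / 98 * y ^ 2) ≤ 10 / 7 * r + 1 + 9 / 98 * r ^ 2 := by
    have : y ^ 2 ≤ r ^ 2 := pow_le_pow_left₀ hy.le hyr 2
    linarith
  refine (add_le_add_right h3 _).trans (h4.trans ?_)
  refine le_of_sq_le_sq₀' ?_ (norm_nonneg _)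
  rw [norm_Z_sq]
  refine hnum.trans ?_
  have h5 : (1 + l ^ 2) ^ m0 ≤ (1 + y ^ 2) ^ m := by
    calc (1 + l ^ 2) ^ m0 ≤ (1 + y ^ 2) ^ m0 := by
          refine pow_le_pow_left₀ (by positivity) ?_ m0
          have : l ^ 2 ≤ y ^ 2 := pow_le_pow_left₀ hl.le hly 2
          linarith
      _ ≤ (1 + y ^ 2) ^ m := pow_le_pow_right₀ (by nlinarith [sq_nonneg y]) hm0
  have h6 : c ^ 2 ≤ (1 - h.im * y) ^ 2 := by
    rcases hc with hc | hc
    · rw [hc, zero_pow two_ne_zero]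
      positivity
    · refine pow_le_pow_left₀ hc0 ?_ 2
      have h7 : h.im * y ≤ 87 / 100 * y := mul_le_mul_of_nonneg_right h2 hy.le
      linarith
  have h7 : 169 / 400 * l ^ 2 ≤ (h.re * y) ^ 2 := by
    have h8 : 13 / 20 * l ≤ h.re * y := mul_le_mul h1 hly hl.le (by linarith)
    have h9 := pow_le_pow_left₀ (by positivity) h8 2
    have e : (13 / 20 * l) ^ 2 = 169 / 400 * l ^ 2 := by ring
    rwa [e] at h9
  exact mul_le_mul h5 (add_le_add h6 h7) (by positivity) (by positivity)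

lemma big2 {y : ℝ} {h : ℂ} {m : ℕ} (hy2 : 2 ≤ y) (hm : 2 ≤ m) (h1 : 13 / 20 ≤ h.re) :
    0 ≤ (u (1 + y * Complex.I) h m).re + 7 / 20 * ‖u (1 + y * Complex.I) h m‖ ^ 2 ∧
    0 ≤ (u (1 + y * Complex.I) h m).im + 87 / 100 * ‖u (1 + y * Complex.I) h m‖ ^ 2 := by
  have hy : 0 < y := by linarith
  refine big_far hy (by omega) ?_
  have h3 : √(1 + (10 / 7 - 1) ^ 2 * y ^ 2) ≤ 1 + 3 / 7 * y := by
    rw [Real.sqrt_le_left (by positivity)]
    nlinarith
  refine (add_le_add_right h3 _).trans ?_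
  refine le_of_sq_le_sq₀' ?_ (norm_nonneg _)
  rw [norm_Z_sq]
  have h5 : (1 + y ^ 2) ^ 2 ≤ (1 + y ^ 2) ^ m := pow_le_pow_right₀ (by nlinarith [sq_nonneg y]) hm
  have h7 : (13 / 20 * y) ^ 2 ≤ (1 - h.im * y) ^ 2 + (h.re * y) ^ 2 := by
    have h8 : 13 / 20 * y ≤ h.re * y := mul_le_mul_of_nonneg_right h1 hy.le
    have h9 := pow_le_pow_left₀ (by positivity) h8 2
    have := sq_nonneg (1 - h.im * y)
    linarith
  refine le_trans ?_ (mul_le_mul h5 h7 (by positivity) (by positivity))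
  rw [← mul_pow]
  refine pow_le_pow_left₀ (by positivity) ?_ 2
  nlinarith [mul_nonneg hy.le (sub_nonneg.2 hy2), mul_pos hy hy]

theorem large (y : ℝ) (h : ℂ) (m : ℕ) (hy : 9 / 20 ≤ y) (h1 : 13 / 20 ≤ h.re) (h2 : h.im ≤ 87 / 100) (hm : 2 ≤ m) :
    0 ≤ (u (1 + y * Complex.I) h m).re + 7 / 20 * ‖u (1 + y * Complex.I) h m‖ ^ 2 ∧
    0 ≤ (u (1 + y * Complex.I) h m).im + 87 / 100 * ‖u (1 + y * Complex.I) h m‖ ^ 2 := by
  by_cases c111012 : y ≤ 1/2
  · by_cases hM : m ≤ 10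
    · interval_cases m
      · exact sm2 (by linarith) (by linarith) h1 h2
      · exact sm3 (by linarith) (by linarith) h1 h2
      · exact sm4 (by linarith) (by linarith) h1 h2
      · exact sm5 (by linarith) (by linarith) h1 h2
      · exact sm6 (by linarith) (by linarith) h1 h2
      · exact sm7 (by linarith) (by linarith) h1 h2
      · exact sm8 (by linarith) (by linarith) h1 h2
      · exact sm9 (by linarith) (by linarith) h1 h2
      · exact sm10 (by linarith) (by linarith) h1 h2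
    · refine big (9/20) (1/2) (113 / 200) 11 (by norm_num) (by linarith) (by linarith) (by omega) (by omega) h1 h2 (by norm_num) ?_ (by norm_num)
      first | (left; norm_num; done) | (right; norm_num; done)
  push Not at c111012
  by_cases c1091120 : y ≤ 11/20
  · by_cases hM : m ≤ 9
    · interval_cases m
      · exact sm2 (by linarith) (by linarith) h1 h2
      · exact sm3 (by linarith) (by linarith) h1 h2
      · exact sm4 (by linarith) (by linarith) h1 h2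
      · exact sm5 (by linarith) (by linarith) h1 h2
      · exact sm6 (by linarith) (by linarith) h1 h2
      · exact sm7 (by linarith) (by linarith) h1 h2
      · exact sm8 (by linarith) (by linarith) h1 h2
      · exact sm9 (by linarith) (by linarith) h1 h2
    · refine big (1/2) (11/20) (1043 / 2000) 10 (by norm_num) (by linarith) (by linarith) (by omega) (by omega) h1 h2 (by norm_num) ?_ (by norm_num)
      first | (left; norm_num; done) | (right; norm_num; done)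
  push Not at c1091120
  by_cases c9835 : y ≤ 3/5
  · by_cases hM : m ≤ 8
    · interval_cases m
      · exact sm2 (by linarith) (by linarith) h1 h2
      · exact sm3 (by linarith) (by linarith) h1 h2
      · exact sm4 (by linarith) (by linarith) h1 h2
      · exact sm5 (by linarith) (by linarith) h1 h2
      · exact sm6 (by linarith) (by linarith) h1 h2
      · exact sm7 (by linarith) (by linarith) h1 h2
      · exact sm8 (by linarith) (by linarith) h1 h2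
    · refine big (11/20) (3/5) (239 / 500) 9 (by norm_num) (by linarith) (by linarith) (by omega) (by omega) h1 h2 (by norm_num) ?_ (by norm_num)
      first | (left; norm_num; done) | (right; norm_num; done)
  push Not at c9835
  by_cases c871320 : y ≤ 13/20
  · by_cases hM : m ≤ 7
    · interval_cases m
      · exact sm2 (by linarith) (by linarith) h1 h2
      · exact sm3 (by linarith) (by linarith) h1 h2
      · exact sm4 (by linarith) (by linarith) h1 h2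
      · exact sm5 (by linarith) (by linarith) h1 h2
      · exact sm6 (by linarith) (by linarith) h1 h2
      · exact sm7 (by linarith) (by linarith) h1 h2
    · refine big (3/5) (13/20) (869 / 2000) 8 (by norm_num) (by linarith) (by linarith) (by omega) (by omega) h1 h2 (by norm_num) ?_ (by norm_num)
      first | (left; norm_num; done) | (right; norm_num; done)
  push Not at c871320
  by_cases c87710 : y ≤ 7/10
  · by_cases hM : m ≤ 7
    · interval_cases m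
      · exact sm2 (by linarith) (by linarith) h1 h2
      · exact sm3 (by linarith) (by linarith) h1 h2
      · exact sm4 (by linarith) (by linarith) h1 h2
      · exact sm5 (by linarith) (by linarith) h1 h2
      · exact sm6 (by linarith) (by linarith) h1 h2
      · exact sm7 (by linarith) (by linarith) h1 h2
    · refine big (13/20) (7/10) (391 / 1000) 8 (by norm_num) (by linarith) (by linarith) (by omega) (by omega) h1 h2 (by norm_num) ?_ (by norm_num)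
      first | (left; norm_num; done) | (right; norm_num; done)
  push Not at c87710
  by_cases c7645 : y ≤ 4/5
  · by_cases hM : m ≤ 6
    · interval_cases m
      · exact sm2 (by linarith) (by linarith) h1 h2
      · exact sm3 (by linarith) (by linarith) h1 h2
      · exact sm4 (by linarith) (by linarith) h1 h2
      · exact sm5 (by linarith) (by linarith) h1 h2
      · exact sm6 (by linarith) (by linarith) h1 h2
    · refine big (7/10) (4/5) (38 / 125) 7 (by norm_num) (by linarith) (by linarith) (by omega) (by omega) h1 h2 (by norm_num) ?_ (by norm_num)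
      first | (left; norm_num; done) | (right; norm_num; done)
  push Not at c7645
  by_cases c65910 : y ≤ 9/10
  · by_cases hM : m ≤ 5
    · interval_cases m
      · exact sm2 (by linarith) (by linarith) h1 h2
      · exact sm3 (by linarith) (by linarith) h1 h2
      · exact sm4 (by linarith) (by linarith) h1 h2
      · exact sm5 (by linarith) (by linarith) h1 h2
    · refine big (4/5) (9/10) (217 / 1000) 6 (by norm_num) (by linarith) (by linarith) (by omega) (by omega) h1 h2 (by norm_num) ?_ (by norm_num)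
      first | (left; norm_num; done) | (right; norm_num; done)
  push Not at c65910
  by_cases c651920 : y ≤ 19/20
  · by_cases hM : m ≤ 5
    · interval_cases m
      · exact sm2 (by linarith) (by linarith) h1 h2
      · exact sm3 (by linarith) (by linarith) h1 h2
      · exact sm4 (by linarith) (by linarith) h1 h2
      · exact sm5 (by linarith) (by linarith) h1 h2
    · refine big (9/10) (19/20) (347 / 2000) 6 (by norm_num) (by linarith) (by linarith) (by omega) (by omega) h1 h2 (by norm_num) ?_ (by norm_num)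
      first | (left; norm_num; done) | (right; norm_num; done)
  push Not at c651920
  by_cases c542320 : y ≤ 23/20
  · by_cases hM : m ≤ 4
    · interval_cases m
      · exact sm2 (by linarith) (by linarith) h1 h2
      · exact sm3 (by linarith) (by linarith) h1 h2
      · exact sm4 (by linarith) (by linarith) h1 h2
    · refine big (19/20) (23/20) 0 5 (by norm_num) (by linarith) (by linarith) (by omega) (by omega) h1 h2 (by norm_num) ?_ (by norm_num)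
      first | (left; norm_num; done) | (right; norm_num; done)
  push Not at c542320
  by_cases c4332 : y ≤ 3/2
  · by_cases hM : m ≤ 3
    · interval_cases m
      · exact sm2 (by linarith) (by linarith) h1 h2
      · exact sm3 (by linarith) (by linarith) h1 h2
    · refine big (23/20) (3/2) 0 4 (by norm_num) (by linarith) (by linarith) (by omega) (by omega) h1 h2 (by norm_num) ?_ (by norm_num)
      first | (left; norm_num; done) | (right; norm_num; done)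
  push Not at c4332
  by_cases c3221 : y ≤ 2
  · by_cases hM : m ≤ 2
    · interval_cases m
      · exact sm2 (by linarith) (by linarith) h1 h2
    · refine big (3/2) (2) 0 3 (by norm_num) (by linarith) (by linarith) (by omega) (by omega) h1 h2 (by norm_num) ?_ (by norm_num)
      first | (left; norm_num; done) | (right; norm_num; done)
  push Not at c3221
  exact big2 (by linarith) hm h1

lemma one_second {a b : ℝ} (ha : 13 / 20 ≤ a) : 0 ≤ b + 87 / 100 * (a ^ 2 + b ^ 2) := by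
  nlinarith [sq_nonneg (b + 50 / 87), mul_self_nonneg (a - 13 / 20)]

theorem m_one (y : ℝ) (h : ℂ) (hy : 0 ≤ y) (h1 : 13 / 20 ≤ h.re) (h2 : h.im ≤ 87 / 100) :
    0 ≤ (u (1 + y * Complex.I) h 1).re + 7 / 20 * ‖u (1 + y * Complex.I) h 1‖ ^ 2 ∧
    0 ≤ (u (1 + y * Complex.I) h 1).im + 87 / 100 * ‖u (1 + y * Complex.I) h 1‖ ^ 2 := by
  have _ := h2
  have a1 := u_rr y h 0
  have a2 := norm_sq_rr y h 0
  norm_num only at a1 a2
  rw [a1.1, a1.2, a2]
  simp only [rr]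
  set a := h.re
  set b := h.im
  have hs : (a - y * b) ^ 2 + (b + y * a) ^ 2 = (1 + y ^ 2) * (a ^ 2 + b ^ 2) := by ring
  rw [hs]
  have hs0 : 169 / 400 ≤ a ^ 2 + b ^ 2 := by nlinarith [sq_nonneg b]
  set s := a ^ 2 + b ^ 2 with hsdef
  have hbs : b ^ 2 ≤ s := by nlinarith [sq_nonneg a]
  constructor
  · have h3 : b ^ 2 ≤ 7 / 5 * s * (a + 7 / 20 * s) := by
      have h4 : 1 ≤ 7 / 5 * (a + 7 / 20 * s) := by linarith
      have h5 : s * 1 ≤ s * (7 / 5 * (a + 7 / 20 * s)) := mul_le_mul_of_nonneg_left h4 (by linarith)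
      linarith
    have h4 : 0 ≤ (7 / 5 * s) * (a - y * b + 7 / 20 * ((1 + y ^ 2) * s)) := by
      nlinarith [sq_nonneg (7 / 10 * s * y - b)]
    exact (mul_nonneg_iff_of_pos_left (by linarith)).1 h4
  · have h3 := one_second (a := a) (b := b) h1
    have h4 : 0 ≤ y * a := mul_nonneg hy (by linarith)
    have h5 : 0 ≤ y ^ 2 * s := mul_nonneg (sq_nonneg y) (by linarith)
    nlinarith

lemma rr_zero (a b : ℝ) (n : ℕ) : rr 0 a b n = (a + n, b) := by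
  induction n with
  | zero => simp [rr]
  | succ n ih =>
    simp only [rr, ih]
    ext
    · push_cast
      simp
      ring
    · simp

theorem y_zero (h : ℂ) (m : ℕ) (h1 : 13 / 20 ≤ h.re) (h2 : h.im ≤ 87 / 100) (hm : 1 ≤ m) :
    0 ≤ (u (1 + ((0 : ℝ) : ℂ) * Complex.I) h m).re +
      7 / 20 * ‖u (1 + ((0 : ℝ) : ℂ) * Complex.I) h m‖ ^ 2 ∧
    0 ≤ (u (1 + ((0 : ℝ) : ℂ) * Complex.I) h m).im +
      87 / 100 * ‖u (1 + ((0 : ℝ) : ℂ) * Complex.I) h m‖ ^ 2 := by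
  have _ := h2
  obtain ⟨n, rfl⟩ : ∃ n, m = n + 1 := ⟨m - 1, by omega⟩
  rw [(u_rr 0 h n).1, (u_rr 0 h n).2, norm_sq_rr 0 h n, rr_zero]
  simp only
  have hn : (0 : ℝ) ≤ n := Nat.cast_nonneg n
  constructor
  · have : 0 ≤ h.re := by linarith
    positivity
  · exact one_second (by linarith)

theorem m_one_near (y : ℝ) (h : ℂ) (hy : 0 ≤ y) (hy' : y ≤ 1 / 50) (h1 : 13 / 20 ≤ h.re) (h2 : h.im ≤ 87 / 100) :
    0 ≤ (u (1 + y * Complex.I) h 1).re + 6 / 25 * ‖u (1 + y * Complex.I) h 1‖ ^ 2 := by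
  have a1 := u_rr y h 0
  norm_num only at a1
  rw [a1.1]
  simp only [rr]
  have h3 : y * h.im ≤ y * (87 / 100) := mul_le_mul_of_nonneg_left h2 hy
  have h4 : 0 ≤ 6 / 25 * ‖u (1 + y * Complex.I) h 1‖ ^ 2 := by positivity
  linarith

theorem y_zero_near (h : ℂ) (m : ℕ) (h1 : 13 / 20 ≤ h.re) (h2 : h.im ≤ 87 / 100) (hm : 1 ≤ m) :
    0 ≤ (u (1 + ((0 : ℝ) : ℂ) * Complex.I) h m).re + 6 / 25 * ‖u (1 + ((0 : ℝ) : ℂ) * Complex.I) h m‖ ^ 2 := by
  have _ := h2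
  obtain ⟨n, rfl⟩ : ∃ n, m = n + 1 := ⟨m - 1, by omega⟩
  rw [(u_rr 0 h n).1, rr_zero]
  simp only
  have hn : (0 : ℝ) ≤ n := Nat.cast_nonneg n
  have : 0 ≤ h.re := by linarith
  positivity

end Pool.Agent.R945.MK
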