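import Pool.Agent.R945.MK.Defs

/-!
# MK-C: the question mark function is a Stieltjes function, its measure is invariant (helper91)
-/

set_option autoImplicit false

namespace Pool.Agent.R945.MK

open Finset Filter Topology

namespace PC

lemma gauss_zero : gauss 0 = 0 := by
  unfold gauss
  rw [inv_zero, Int.fract_zero]

lemma gauss_mem (x : ℝ) : 0 ≤ gauss x ∧ gauss x < 1 := ⟨Int.fract_nonneg _, Int.fract_lt_one _⟩

lemma iter_zero (k : ℕ) : gauss^[k] 0 = 0 := by
  induction k with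
  | zero => rfl
  | succ k ih => rw [Function.iterate_succ_apply', ih, gauss_zero]

lemma iter_mem {x : ℝ} (hx : x ∈ Set.Icc (0 : ℝ) 1) (k : ℕ) : gauss^[k] x ∈ Set.Icc (0 : ℝ) 1 := by
  cases k with
  | zero => exact hx
  | succ k =>
    rw [Function.iterate_succ_apply']
    exact ⟨(gauss_mem _).1, (gauss_mem _).2.le⟩

/-- the terms -/
noncomputable def tm (x : ℝ) (k : ℕ) : ℝ :=
  if gauss^[k] x = 0 then 0 else (-1) ^ k * (2 * (1 / 2) ^ (∑ i ∈ range (k + 1), pq x i))

lemma qm_eq (x : ℝ) : qm x = ∑' k, tm x k := rfl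

lemma iter_ne {x : ℝ} {k : ℕ} (h : gauss^[k] x ≠ 0) : ∀ i ≤ k, gauss^[i] x ≠ 0 := by
  intro i hi h0
  apply h
  obtain ⟨j, rfl⟩ := Nat.exists_eq_add_of_le hi
  rw [add_comm, Function.iterate_add_apply, h0, iter_zero]

lemma pq_pos {x : ℝ} (hx : x ∈ Set.Icc (0 : ℝ) 1) {k : ℕ} (h : gauss^[k] x ≠ 0) : 1 ≤ pq x k := by
  unfold pq
  obtain ⟨h0, h1⟩ := iter_mem hx k
  have hpos : 0 < gauss^[k] x := lt_of_le_of_ne h0 (Ne.symm h)
  rw [Nat.one_le_floor_iff]
  exact (one_le_inv₀ hpos).2 h1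

lemma tm_bound {x : ℝ} (hx : x ∈ Set.Icc (0 : ℝ) 1) (k : ℕ) : |tm x k| ≤ (1 / 2) ^ k := by
  unfold tm
  split_ifs with h
  · rw [abs_zero]; positivity
  · rw [abs_mul, abs_pow, abs_neg, abs_one, one_pow, one_mul, abs_of_nonneg (by positivity)]
    have h1 : k + 1 ≤ ∑ i ∈ range (k + 1), pq x i := by
      calc k + 1 = ∑ i ∈ range (k + 1), 1 := by simp
        _ ≤ _ := Finset.sum_le_sum fun i hi =>
            pq_pos hx (iter_ne h i (by have := Finset.mem_range.1 hi; omega))
    calc 2 * (1 / 2 : ℝ) ^ (∑ i ∈ range (k + 1), pq x i) ≤ 2 * (1 / 2 : ℝ) ^ (k + 1) :=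
          mul_le_mul_of_nonneg_left (pow_le_pow_of_le_one (by norm_num) (by norm_num) h1)
            (by norm_num)
      _ = (1 / 2) ^ k := by rw [pow_succ]; ring

lemma tm_summable {x : ℝ} (hx : x ∈ Set.Icc (0 : ℝ) 1) : Summable (tm x) :=
  Summable.of_norm_bounded (g := fun k : ℕ => (1 / 2 : ℝ) ^ k)
    (summable_geometric_of_lt_one (by norm_num) (by norm_num))
    (fun k => by rw [Real.norm_eq_abs]; exact tm_bound hx k)

lemma qm_bound {x : ℝ} (hx : x ∈ Set.Icc (0 : ℝ) 1) : |qm x| ≤ 2 := by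
  have h1 : HasSum (fun k : ℕ => (1 / 2 : ℝ) ^ k) 2 := by
    have := hasSum_geometric_of_lt_one (r := (1 / 2 : ℝ)) (by norm_num) (by norm_num)
    norm_num at this ⊢
    exact this
  rw [qm_eq, ← Real.norm_eq_abs]
  exact tsum_of_norm_bounded h1 (fun k => by rw [Real.norm_eq_abs]; exact tm_bound hx k)

lemma qm_zero : qm 0 = 0 := by
  rw [qm_eq]
  have : ∀ k, tm 0 k = 0 := fun k => by unfold tm; rw [if_pos (iter_zero k)]
  simp [this]

lemma pq_succ (x : ℝ) (i : ℕ) : pq x (i + 1) = pq (gauss x) i := by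
  unfold pq
  rw [Function.iterate_succ_apply]

lemma qm_rec {x : ℝ} (hx : x ∈ Set.Icc (0 : ℝ) 1) (h0 : x ≠ 0) :
    qm x = (1 / 2) ^ ⌊x⁻¹⌋₊ * (2 - qm (gauss x)) := by
  have hg : gauss x ∈ Set.Icc (0 : ℝ) 1 := ⟨(gauss_mem x).1, (gauss_mem x).2.le⟩
  rw [qm_eq, (tm_summable hx).tsum_eq_zero_add]
  have e0 : tm x 0 = (1 / 2) ^ ⌊x⁻¹⌋₊ * 2 := by
    unfold tm
    rw [if_neg (by simpa using h0)]
    simp [pq]
    ring
  have e1 : ∀ k, tm x (k + 1) = -((1 / 2) ^ ⌊x⁻¹⌋₊) * tm (gauss x) k := by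
    intro k
    unfold tm
    rw [Function.iterate_succ_apply]
    split_ifs with h
    · rw [mul_zero]
    · rw [Finset.sum_range_succ' _ (k + 1), pow_add, pow_succ]
      have : ∑ i ∈ range (k + 1), pq x (i + 1) = ∑ i ∈ range (k + 1), pq (gauss x) i :=
        Finset.sum_congr rfl fun i _ => pq_succ x i
      rw [this]
      have e2 : pq x 0 = ⌊x⁻¹⌋₊ := rfl
      rw [e2]
      ring
  rw [e0, tsum_congr e1, tsum_mul_left, ← qm_eq]
  ring

lemma qm_one : qm 1 = 1 := by
  rw [qm_rec ⟨zero_le_one, le_rfl⟩ one_ne_zero]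
  have h1 : gauss 1 = 0 := by
    unfold gauss
    rw [inv_one]
    exact Int.fract_one
  rw [h1, qm_zero, inv_one, Nat.floor_one]
  norm_num

lemma fe_left {t : ℝ} (ht : t ∈ Set.Icc (0 : ℝ) 1) : qm (t / (1 + t)) = qm t / 2 := by
  obtain ⟨h0, h1⟩ := ht
  rcases h0.eq_or_lt with h | h
  · rw [← h, zero_div, qm_zero, zero_div]
  · have hy : t / (1 + t) ∈ Set.Icc (0 : ℝ) 1 :=
      ⟨by positivity, by rw [div_le_one (by positivity)]; linarith⟩
    have hyne : t / (1 + t) ≠ 0 := by positivity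
    have hinv : (t / (1 + t))⁻¹ = t⁻¹ + 1 := by
      field_simp
    have hg : gauss (t / (1 + t)) = gauss t := by
      unfold gauss
      rw [hinv, Int.fract_add_one]
    have hf : ⌊(t / (1 + t))⁻¹⌋₊ = ⌊t⁻¹⌋₊ + 1 := by
      rw [hinv, Nat.floor_add_one (by positivity)]
    rw [qm_rec hy hyne, qm_rec ⟨h0, h1⟩ h.ne', hg, hf, pow_succ]
    ring

lemma fe_right {t : ℝ} (ht : t ∈ Set.Icc (0 : ℝ) 1) : qm (1 / (1 + t)) = 1 - qm t / 2 := by
  obtain ⟨h0, h1⟩ := ht
  rcases h1.eq_or_lt with h | h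
  · subst h
    have e : (1 : ℝ) / (1 + 1) = 1 / (1 + 1) := rfl
    have := fe_left (t := 1) ⟨zero_le_one, le_rfl⟩
    rw [this, qm_one]
    norm_num
  · have hy : 1 / (1 + t) ∈ Set.Icc (0 : ℝ) 1 :=
      ⟨by positivity, by rw [div_le_one (by positivity)]; linarith⟩
    have hyne : 1 / (1 + t) ≠ 0 := by positivity
    have hinv : (1 / (1 + t))⁻¹ = t + 1 := by
      field_simp
      ring
    have hg : gauss (1 / (1 + t)) = t := by
      unfold gauss
      rw [hinv, Int.fract_add_one, Int.fract_eq_self.2 ⟨h0, h⟩]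
    have hf : ⌊(1 / (1 + t))⁻¹⌋₊ = 1 := by
      rw [hinv, Nat.floor_add_one h0, Nat.floor_eq_zero.2 h]
    rw [qm_rec hy hyne, hg, hf]
    ring

/-- the glueing operator -/
noncomputable def Ps (φ : ℝ → ℝ) (y : ℝ) : ℝ :=
  φ (min y (1 / 2) / (1 - min y (1 / 2))) / 2 +
    (1 / 2 - φ ((1 - max y (1 / 2)) / max y (1 / 2)) / 2)

lemma Ps_left {φ : ℝ → ℝ} (h1 : φ 1 = 1) {y : ℝ} (hy : y ≤ 1 / 2) :
    Ps φ y = φ (y / (1 - y)) / 2 := by
  unfold Ps
  rw [min_eq_left hy, max_eq_right hy]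
  have : (1 - (1 / 2 : ℝ)) / (1 / 2) = 1 := by norm_num
  rw [this, h1]
  ring

lemma Ps_right {φ : ℝ → ℝ} (h1 : φ 1 = 1) {y : ℝ} (hy : 1 / 2 ≤ y) :
    Ps φ y = 1 - φ ((1 - y) / y) / 2 := by
  unfold Ps
  rw [min_eq_right hy, max_eq_left hy]
  have : (1 / 2 : ℝ) / (1 - 1 / 2) = 1 := by norm_num
  rw [this, h1]
  ring

lemma Ps_cont {φ : ℝ → ℝ} (hφ : Continuous φ) : Continuous (Ps φ) := by
  unfold Ps
  have h1 : Continuous fun y : ℝ => min y (1 / 2) / (1 - min y (1 / 2)) := by
    refine (continuous_id.min continuous_const).div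
      (continuous_const.sub (continuous_id.min continuous_const)) fun y => ?_
    have h : min y (1 / 2) ≤ 1 / 2 := min_le_right _ _
    have h' : 0 < 1 - min y (1 / 2) := by linarith
    exact h'.ne'
  have h2 : Continuous fun y : ℝ => (1 - max y (1 / 2)) / max y (1 / 2) := by
    refine (continuous_const.sub (continuous_id.max continuous_const)).div
      (continuous_id.max continuous_const) fun y => ?_
    have h : 1 / 2 ≤ max y (1 / 2) := le_max_right _ _
    have h' : 0 < max y (1 / 2) := by linarith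
    exact h'.ne'
  exact ((hφ.comp h1).div_const 2).add (continuous_const.sub ((hφ.comp h2).div_const 2))

lemma Ps_mono {φ : ℝ → ℝ} (hφ : Monotone φ) : Monotone (Ps φ) := by
  intro y z hyz
  unfold Ps
  have h1 : min y (1 / 2) / (1 - min y (1 / 2)) ≤ min z (1 / 2) / (1 - min z (1 / 2)) := by
    have a1 : min y (1 / 2) ≤ min z (1 / 2) := min_le_min hyz le_rfl
    have a2 : min z (1 / 2) ≤ 1 / 2 := min_le_right _ _
    rw [div_le_div_iff₀ (by linarith) (by linarith)]
    nlinarith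
  have h2 : (1 - max z (1 / 2)) / max z (1 / 2) ≤ (1 - max y (1 / 2)) / max y (1 / 2) := by
    have a1 : max y (1 / 2) ≤ max z (1 / 2) := max_le_max hyz le_rfl
    have a2 : 1 / 2 ≤ max y (1 / 2) := le_max_right _ _
    rw [div_le_div_iff₀ (by linarith) (by linarith)]
    nlinarith
  have h3 := hφ h1
  have h4 := hφ h2
  linarith

lemma approx (n : ℕ) : ∃ φ : ℝ → ℝ, Continuous φ ∧ Monotone φ ∧ φ 0 = 0 ∧ φ 1 = 1 ∧
    ∀ x ∈ Set.Icc (0 : ℝ) 1, |qm x - φ x| ≤ 4 * (1 / 2) ^ n := by
  induction n with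
  | zero =>
    refine ⟨id, continuous_id, monotone_id, rfl, rfl, fun x hx => ?_⟩
    have h1 := qm_bound hx
    have h2 := abs_sub (qm x) x
    have h3 : |x| ≤ 1 := abs_le.2 ⟨by linarith [hx.1], hx.2⟩
    simp only [id, pow_zero]
    linarith
  | succ n ih =>
    obtain ⟨φ, hc, hm, h0, h1, hφ⟩ := ih
    refine ⟨Ps φ, Ps_cont hc, Ps_mono hm, ?_, ?_, fun x hx => ?_⟩
    · rw [Ps_left h1 (by norm_num)]; simp [h0]
    · rw [Ps_right h1 (by norm_num)]; simp [h0]
    · rcases le_total x (1 / 2) with h | h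
      · have ht : x / (1 - x) ∈ Set.Icc (0 : ℝ) 1 := by
          refine ⟨div_nonneg hx.1 (by linarith), ?_⟩
          rw [div_le_one (by linarith)]; linarith
        have hx2 : x = (x / (1 - x)) / (1 + x / (1 - x)) := by
          have : (1 : ℝ) - x ≠ 0 := by linarith
          field_simp
          ring
        have e1 : qm x = qm (x / (1 - x)) / 2 := by
          conv_lhs => rw [hx2]
          exact fe_left ht
        rw [Ps_left h1 h, e1, ← sub_div, abs_div, abs_two, pow_succ]
        have := hφ _ ht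
        linarith
      · have hx0 : 0 < x := by linarith
        have ht : (1 - x) / x ∈ Set.Icc (0 : ℝ) 1 := by
          refine ⟨div_nonneg (by linarith [hx.2]) hx0.le, ?_⟩
          rw [div_le_one hx0]; linarith
        have hx2 : x = 1 / (1 + (1 - x) / x) := by
          field_simp
          ring
        have e1 : qm x = 1 - qm ((1 - x) / x) / 2 := by
          conv_lhs => rw [hx2]
          exact fe_right ht
        rw [Ps_right h1 h, e1]
        have e2 : 1 - qm ((1 - x) / x) / 2 - (1 - φ ((1 - x) / x) / 2) =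
            -((qm ((1 - x) / x) - φ ((1 - x) / x)) / 2) := by ring
        rw [e2, abs_neg, abs_div, abs_two, pow_succ]
        have := hφ _ ht
        linarith

lemma pow_tend : Tendsto (fun n : ℕ => 4 * (1 / 2 : ℝ) ^ n) atTop (𝓝 0) := by
  have := (tendsto_pow_atTop_nhds_zero_of_lt_one (r := (1 / 2 : ℝ)) (by norm_num)
    (by norm_num)).const_mul 4
  rwa [mul_zero] at this

lemma qm_contOn : ContinuousOn qm (Set.Icc 0 1) := by
  choose φ hc hm h0 h1 hφ using approx
  have hu : TendstoUniformlyOn φ qm atTop (Set.Icc 0 1) := by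
    rw [Metric.tendstoUniformlyOn_iff]
    intro ε hε
    filter_upwards [(tendsto_order.1 pow_tend).2 ε hε] with n hn x hx
    rw [Real.dist_eq]
    exact lt_of_le_of_lt (hφ n x hx) hn
  exact hu.continuousOn (Frequently.of_forall fun n => (hc n).continuousOn)

lemma qm_monoOn : MonotoneOn qm (Set.Icc 0 1) := by
  choose φ hc hm h0 h1 hφ using approx
  intro x hx y hy hxy
  have hl : ∀ z ∈ Set.Icc (0 : ℝ) 1, Tendsto (fun n => φ n z) atTop (𝓝 (qm z)) := by
    intro z hz
    rw [tendsto_iff_norm_sub_tendsto_zero]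
    refine squeeze_zero (fun _ => norm_nonneg _) (fun n => ?_) pow_tend
    rw [Real.norm_eq_abs, abs_sub_comm]
    exact hφ n z hz
  exact le_of_tendsto_of_tendsto' (hl x hx) (hl y hy) fun n => hm n hxy

/-- the extension by constants -/
noncomputable def qe (x : ℝ) : ℝ := qm (max 0 (min x 1))

lemma cl_mem (x : ℝ) : max 0 (min x 1) ∈ Set.Icc (0 : ℝ) 1 :=
  ⟨le_max_left _ _, max_le zero_le_one (min_le_right _ _)⟩

lemma qe_cont : Continuous qe :=
  qm_contOn.comp_continuous (continuous_const.max (continuous_id.min continuous_const)) cl_mem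

lemma qe_mono : Monotone qe := fun x y h =>
  qm_monoOn (cl_mem x) (cl_mem y) (max_le_max le_rfl (min_le_min h le_rfl))

lemma qe_neg {x : ℝ} (hx : x ≤ 0) : qe x = 0 := by
  unfold qe
  rw [min_eq_left (by linarith), max_eq_left hx, qm_zero]

lemma qe_mid {x : ℝ} (hx : x ∈ Set.Icc (0 : ℝ) 1) : qe x = qm x := by
  unfold qe
  rw [min_eq_left hx.2, max_eq_right hx.1]

lemma qe_big {x : ℝ} (hx : 1 ≤ x) : qe x = 1 := by
  unfold qe
  rw [min_eq_right hx, max_eq_right zero_le_one, qm_one]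

end PC

open PC

theorem qm_stieltjes : ∃ F : StieltjesFunction ℝ, (∀ x < 0, F x = 0) ∧
    (∀ x ∈ Set.Icc (0 : ℝ) 1, F x = qm x) ∧ (∀ x, 1 < x → F x = 1) :=
  ⟨⟨qe, qe_mono, fun _ => qe_cont.continuousWithinAt⟩, fun _ hx => qe_neg hx.le,
    fun _ hx => qe_mid hx, fun _ hx => qe_big hx.le⟩

namespace PC

open MeasureTheory

lemma half_ofReal {a : ℝ} : (1 / 2 : ENNReal) * ENNReal.ofReal a = ENNReal.ofReal (a / 2) := by
  have h : (1 / 2 : ENNReal) = ENNReal.ofReal (1 / 2) := by
    rw [ENNReal.ofReal_div_of_pos (by norm_num), ENNReal.ofReal_one, ENNReal.ofReal_ofNat]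
  rw [h, ← ENNReal.ofReal_mul (by norm_num)]
  congr 1
  ring

end PC

open MeasureTheory in
theorem qm_inv (F : StieltjesFunction ℝ) (h0 : ∀ x < 0, F x = 0)
    (h1 : ∀ x ∈ Set.Icc (0 : ℝ) 1, F x = qm x) (h2 : ∀ x, 1 < x → F x = 1) :
    MeasureTheory.IsProbabilityMeasure F.measure ∧ F.measure (Set.Icc 0 1)ᶜ = 0 ∧
    F.measure = (1 / 2 : ENNReal) • (F.measure.map (fun x => 1 / (1 + x)))
      + (1 / 2 : ENNReal) • (F.measure.map (fun x => x / (1 + x))) := by
  have hF : ∀ x, F x = qe x := by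
    intro x
    rcases lt_or_ge x 0 with h | h
    · rw [h0 x h, qe_neg h.le]
    · rcases le_or_gt x 1 with h' | h'
      · rw [h1 x ⟨h, h'⟩, qe_mid ⟨h, h'⟩]
      · rw [h2 x h', qe_big h'.le]
  have hbot : Tendsto F atBot (𝓝 0) := by
    refine tendsto_const_nhds.congr' ?_
    filter_upwards [eventually_lt_atBot (0 : ℝ)] with x hx
    exact (h0 x hx).symm
  have htop : Tendsto F atTop (𝓝 1) := by
    refine tendsto_const_nhds.congr' ?_
    filter_upwards [eventually_gt_atTop (1 : ℝ)] with x hx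
    exact (h2 x hx).symm
  have hP : IsProbabilityMeasure F.measure := F.isProbabilityMeasure hbot htop
  have hIic : ∀ x, F.measure (Set.Iic x) = ENNReal.ofReal (qe x) := by
    intro x
    rw [F.measure_Iic hbot, sub_zero, hF]
  have hcF : Continuous F := by
    have : (F : ℝ → ℝ) = qe := funext hF
    rw [this]; exact qe_cont
  have hIci : ∀ x, F.measure (Set.Ici x) = ENNReal.ofReal (1 - qe x) := by
    intro x
    rw [F.measure_Ici htop, hcF.continuousAt.continuousWithinAt.leftLim_eq, hF]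
  have hC : F.measure (Set.Icc 0 1)ᶜ = 0 := by
    have hsub : (Set.Icc (0 : ℝ) 1)ᶜ ⊆ Set.Iic 0 ∪ Set.Ici 1 := by
      intro x hx
      simp only [Set.mem_compl_iff, Set.mem_Icc, not_and, not_le] at hx
      rcases lt_or_ge x 0 with h | h
      · exact Or.inl h.le
      · exact Or.inr (hx h).le
    refine measure_mono_null hsub (measure_union_null ?_ ?_)
    · rw [hIic, qe_neg le_rfl, ENNReal.ofReal_zero]
    · rw [hIci, qe_big le_rfl, sub_self, ENNReal.ofReal_zero]
  refine ⟨hP, hC, ?_⟩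
  have hae : ∀ᵐ t ∂F.measure, t ∈ Set.Icc (0 : ℝ) 1 := by
    rw [ae_iff]; exact hC
  have huniv : F.measure Set.univ = 1 := measure_univ
  refine Measure.ext_of_Iic _ _ fun x => ?_
  rw [Measure.add_apply, Measure.smul_apply, Measure.smul_apply,
    Measure.map_apply (by fun_prop) measurableSet_Iic,
    Measure.map_apply (by fun_prop) measurableSet_Iic, hIic, smul_eq_mul, smul_eq_mul]
  -- replace the sets
  have key : ∀ (A B : Set ℝ), (∀ t ∈ Set.Icc (0 : ℝ) 1, t ∈ A ↔ t ∈ B) →
      F.measure A = F.measure B := by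
    intro A B hAB
    refine measure_congr ?_
    filter_upwards [hae] with t ht
    exact propext (hAB t ht)
  have hhalf1 : (1 / 2 : ENNReal) * 1 = ENNReal.ofReal (1 / 2) := by
    have := half_ofReal (a := 1)
    rwa [ENNReal.ofReal_one] at this
  rcases lt_or_ge x 0 with hx | hx
  · have e1 : F.measure ((fun t : ℝ => 1 / (1 + t)) ⁻¹' Set.Iic x) = F.measure ∅ := by
      refine key _ _ fun t ht => ?_
      simp only [Set.mem_preimage, Set.mem_Iic, Set.mem_empty_iff_false, iff_false, not_le]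
      have : 0 < 1 / (1 + t) := by have := ht.1; positivity
      linarith
    have e2 : F.measure ((fun t : ℝ => t / (1 + t)) ⁻¹' Set.Iic x) = F.measure ∅ := by
      refine key _ _ fun t ht => ?_
      simp only [Set.mem_preimage, Set.mem_Iic, Set.mem_empty_iff_false, iff_false, not_le]
      have : 0 ≤ t / (1 + t) := by have := ht.1; positivity
      linarith
    rw [e1, e2, measure_empty, mul_zero, add_zero, qe_neg hx.le, ENNReal.ofReal_zero]
  rcases lt_or_ge x (1 / 2) with hx2 | hx2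
  · have hs : x / (1 - x) ∈ Set.Icc (0 : ℝ) 1 := by
      refine ⟨div_nonneg hx (by linarith), ?_⟩
      rw [div_le_one (by linarith)]; linarith
    have e1 : F.measure ((fun t : ℝ => 1 / (1 + t)) ⁻¹' Set.Iic x) = F.measure ∅ := by
      refine key _ _ fun t ht => ?_
      simp only [Set.mem_preimage, Set.mem_Iic, Set.mem_empty_iff_false, iff_false, not_le]
      have : 1 / 2 ≤ 1 / (1 + t) := one_div_le_one_div_of_le (by linarith [ht.1]) (by linarith [ht.2])
      linarith
    have e2 : F.measure ((fun t : ℝ => t / (1 + t)) ⁻¹' Set.Iic x) =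
        F.measure (Set.Iic (x / (1 - x))) := by
      refine key _ _ fun t ht => ?_
      simp only [Set.mem_preimage, Set.mem_Iic]
      have ht0 := ht.1
      rw [div_le_iff₀ (by linarith), le_div_iff₀ (by linarith)]
      constructor <;> intro h <;> nlinarith
    rw [e1, e2, measure_empty, mul_zero, zero_add, hIic, half_ofReal, qe_mid hs,
      qe_mid ⟨hx, by linarith⟩]
    have hxe : x = (x / (1 - x)) / (1 + x / (1 - x)) := by
      have : (1 : ℝ) - x ≠ 0 := by linarith
      field_simp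
      ring
    have := fe_left hs
    rw [← hxe] at this
    rw [this]
  rcases le_or_gt x 1 with hx3 | hx3
  · have hx0 : 0 < x := by linarith
    have hs : (1 - x) / x ∈ Set.Icc (0 : ℝ) 1 := by
      refine ⟨div_nonneg (by linarith) hx0.le, ?_⟩
      rw [div_le_one hx0]; linarith
    have e1 : F.measure ((fun t : ℝ => 1 / (1 + t)) ⁻¹' Set.Iic x) =
        F.measure (Set.Ici ((1 - x) / x)) := by
      refine key _ _ fun t ht => ?_
      simp only [Set.mem_preimage, Set.mem_Iic, Set.mem_Ici]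
      have ht0 := ht.1
      rw [div_le_iff₀ (by linarith), div_le_iff₀ hx0]
      constructor <;> intro h <;> nlinarith
    have e2 : F.measure ((fun t : ℝ => t / (1 + t)) ⁻¹' Set.Iic x) = F.measure Set.univ := by
      refine key _ _ fun t ht => ?_
      simp only [Set.mem_preimage, Set.mem_Iic, Set.mem_univ, iff_true]
      have ht0 := ht.1
      have ht1 := ht.2
      rw [div_le_iff₀ (by linarith)]
      nlinarith
    rw [e1, e2, huniv, hIci, half_ofReal, hhalf1, qe_mid hs, qe_mid ⟨hx, hx3⟩]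
    have hq : qm ((1 - x) / x) ≤ 1 := by
      have := qm_monoOn hs (Set.right_mem_Icc.2 zero_le_one) hs.2
      rwa [qm_one] at this
    rw [← ENNReal.ofReal_add (by linarith) (by norm_num)]
    have hxe : x = 1 / (1 + (1 - x) / x) := by
      field_simp
      ring
    have := fe_right hs
    rw [← hxe] at this
    rw [this]
    congr 1
    ring
  · have e1 : F.measure ((fun t : ℝ => 1 / (1 + t)) ⁻¹' Set.Iic x) = F.measure Set.univ := by
      refine key _ _ fun t ht => ?_
      simp only [Set.mem_preimage, Set.mem_Iic, Set.mem_univ, iff_true]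
      have ht0 := ht.1
      rw [div_le_iff₀ (by linarith)]
      nlinarith
    have e2 : F.measure ((fun t : ℝ => t / (1 + t)) ⁻¹' Set.Iic x) = F.measure Set.univ := by
      refine key _ _ fun t ht => ?_
      simp only [Set.mem_preimage, Set.mem_Iic, Set.mem_univ, iff_true]
      have ht0 := ht.1
      have ht1 := ht.2
      rw [div_le_iff₀ (by linarith)]
      nlinarith
    rw [e1, e2, huniv, hhalf1, qe_big hx3.le, ← ENNReal.ofReal_add (by norm_num) (by norm_num)]
    congr 1
    norm_num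

end Pool.Agent.R945.MK
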