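import Mathlib

/-!
# Project MK (MP_07db0e_nt): definitions

The second moment of the Minkowski question mark function by Borel summation.
-/

set_option autoImplicit false

namespace Pool.Agent.R945.MK

open Finset

/-! ### The random maps -/

/-- first map: `ξ ↦ 1 / (1 + w ξ)` -/
noncomputable def f1 (w ξ : ℂ) : ℂ := 1 / (1 + w * ξ)

/-- second map: `ξ ↦ w ξ / (1 + w ξ)` -/
noncomputable def f2 (w ξ : ℂ) : ℂ := w * ξ / (1 + w * ξ)

/-- the average of `g` over the `2 ^ n` words of length `n` in the two maps, started at `ξ` -/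
noncomputable def av (w : ℂ) (g : ℂ → ℂ) : ℕ → ℂ → ℂ
  | 0, ξ => g ξ
  | n + 1, ξ => (av w g n (f1 w ξ) + av w g n (f2 w ξ)) / 2

/-- the quantity `p^m h + p^{m-1} + ... + p` -/
noncomputable def u (p h : ℂ) (m : ℕ) : ℂ := p ^ m * h + ∑ j ∈ range (m - 1), p ^ (j + 1)

/-! ### The rational functions `Q_n` and the numbers `Q_n^{(j)}(-1) / j!` -/

/-- The rational functions `Q_n` (as functions on the reals):
`Q_0(z) = -1/(2z)`, `Q_n(z) = (1/2) ∑_{j<n} (1/j!) Q_{n-j-1}^{(j)}(-1) (z^j - 1/z^{j+2})`. -/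
noncomputable def Q : ℕ → ℝ → ℝ
  | 0 => fun z => -1 / (2 * z)
  | n + 1 => fun z => (1 / 2) * ∑ j : Fin (n + 1),
      (1 / (Nat.factorial j : ℝ)) * iteratedDeriv j (Q (n - j)) (-1) * (z ^ (j : ℕ) - 1 / z ^ ((j : ℕ) + 2))
  termination_by n => n
  decreasing_by omega

/-- The entire function `Λ(t) = ∑ Q_n'(-1) t^n / n!`. -/
noncomputable def Lam (t : ℝ) : ℝ := ∑' n : ℕ, deriv (Q n) (-1) / (Nat.factorial n : ℝ) * t ^ n

/-! ### The question mark function -/

/-- the Gauss map (with value `0` at `0`) -/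
noncomputable def gauss (x : ℝ) : ℝ := Int.fract x⁻¹

/-- the `k`-th partial quotient (`k = 0, 1, ...`) of `x ∈ [0,1]`; meaningful if `gauss^[k] x ≠ 0` -/
noncomputable def pq (x : ℝ) (k : ℕ) : ℕ := ⌊(gauss^[k] x)⁻¹⌋₊

/-- The Minkowski question mark function on `[0,1]`:
`?(x) = 2^{1-a₁} - 2^{1-(a₁+a₂)} + 2^{1-(a₁+a₂+a₃)} - ⋯` where `x = [0; a₁, a₂, ...]`; the sum stops
when the continued fraction stops, that is, when an iterate of the Gauss map is `0`. -/
noncomputable def qm (x : ℝ) : ℝ :=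
  ∑' k : ℕ, if gauss^[k] x = 0 then 0 else (-1) ^ k * (2 * (1 / 2) ^ (∑ i ∈ range (k + 1), pq x i))

end Pool.Agent.R945.MK
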