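import Mathlib
import Pool.Agent.R945.MK.Defs

set_option autoImplicit false

namespace Pool.Agent.R945.MK

open Finset Asymptotics Topology Filter

/-! ### MK-D: the numbers `b n i = Q_n^{(i)}(-1) / i!` -/

/-- `Q_n^{(i)}(-1) / i!` -/
noncomputable def bq (n i : ℕ) : ℝ := (1 / (Nat.factorial i : ℝ)) * iteratedDeriv i (Q n) (-1)

/-- the coefficients of `(1/2) (1 + z^(i+1)) (1+z)^(-(i+1))` -/
noncomputable def cq (i : ℕ) : ℕ → ℝ
  | 0 => 1 / 2
  | j + 1 => (1 / 2) * ((-1) ^ j * ((-1) ^ i * (j.choose i : ℝ) - ((j + 1 + i).choose i : ℝ)))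

theorem itd_pow (j i : ℕ) : iteratedDeriv i (fun z : ℝ => z ^ j) (-1) =
    (i.factorial : ℝ) * ((-1) ^ j * ((-1) ^ i * (j.choose i : ℝ))) := by
  rw [iteratedDeriv_eq_iterate, iter_deriv_pow]
  have h : ∏ l ∈ range i, ((j : ℝ) - l) = (i.factorial : ℝ) * (j.choose i : ℝ) := by
    have h1 := Nat.descFactorial_eq_factorial_mul_choose j i
    have h2 : ((j.descFactorial i : ℕ) : ℝ) = ∏ l ∈ range i, ((j : ℝ) - l) := by
      rw [Nat.descFactorial_eq_prod_range]
      push_cast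
      by_cases hij : i ≤ j
      · apply Finset.prod_congr rfl
        intro l hl
        rw [Finset.mem_range] at hl
        rw [Nat.cast_sub (by omega)]
      · rw [not_le] at hij
        rw [Finset.prod_eq_zero (Finset.mem_range.2 hij), Finset.prod_eq_zero (Finset.mem_range.2 hij)]
        · simp
        · simp
    rw [← h2, h1]
    push_cast
    ring
  rw [h]
  by_cases hij : i ≤ j
  · have h3 : (-1 : ℝ) ^ (j - i) = (-1) ^ j * (-1) ^ i := by
      have h4 : (-1 : ℝ) ^ j = (-1) ^ (j - i) * (-1) ^ i := by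
        rw [← pow_add, Nat.sub_add_cancel hij]
      rw [h4, mul_assoc, ← mul_pow]
      simp
    rw [h3]
    ring
  · rw [Nat.choose_eq_zero_of_lt (not_le.1 hij)]
    simp

theorem itd_inv (j i : ℕ) : iteratedDeriv i (fun z : ℝ => 1 / z ^ (j + 2)) (-1) =
    (i.factorial : ℝ) * ((-1) ^ j * ((j + 1 + i).choose i : ℝ)) := by
  have h0 : (fun z : ℝ => 1 / z ^ (j + 2)) = fun z : ℝ => z ^ (-((j : ℤ) + 2)) := by
    funext z
    rw [zpow_neg, one_div]
    congr 1
  rw [h0, iteratedDeriv_eq_iterate, iter_deriv_zpow]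
  have h : ∏ l ∈ range i, (((-((j : ℤ) + 2) : ℤ) : ℝ) - l) =
      (-1) ^ i * ((i.factorial : ℝ) * ((j + 1 + i).choose i : ℝ)) := by
    have h1 := Nat.ascFactorial_eq_factorial_mul_choose (j + 1) i
    have h2 : (((j + 1 + 1).ascFactorial i : ℕ) : ℝ) = ∏ l ∈ range i, ((j : ℝ) + 2 + l) := by
      rw [Nat.ascFactorial_eq_prod_range]
      push_cast
      apply Finset.prod_congr rfl
      intro l _
      ring
    have h3 : ∏ l ∈ range i, (((-((j : ℤ) + 2) : ℤ) : ℝ) - l) =
        ∏ l ∈ range i, (-1 : ℝ) * ((j : ℝ) + 2 + l) := by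
      apply Finset.prod_congr rfl
      intro l _
      push_cast
      ring
    rw [h3, Finset.prod_mul_distrib, ← h2, h1, Finset.prod_const, Finset.card_range]
    push_cast
    ring
  rw [h]
  have h4 : (-1 : ℝ) ^ (-((j : ℤ) + 2) - (i : ℤ)) = (-1) ^ j * (-1) ^ i := by
    have h5 : (-((j : ℤ) + 2) - (i : ℤ)) = -(((j + 2 + i : ℕ)) : ℤ) := by push_cast; ring
    rw [h5, zpow_neg, zpow_natCast, pow_add, pow_add]
    have h6 : ((-1 : ℝ) ^ j * (-1) ^ 2 * (-1) ^ i) * ((-1 : ℝ) ^ j * (-1) ^ i) = 1 := by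
      have a1 : (-1 : ℝ) ^ j * (-1) ^ j = 1 := by rw [← mul_pow]; simp
      have a2 : (-1 : ℝ) ^ i * (-1) ^ i = 1 := by rw [← mul_pow]; simp
      calc _ = ((-1 : ℝ) ^ j * (-1) ^ j) * ((-1 : ℝ) ^ i * (-1) ^ i) := by ring
        _ = 1 := by rw [a1, a2, one_mul]
    exact inv_eq_of_mul_eq_one_right h6
  rw [h4]
  have a2 : (-1 : ℝ) ^ i * (-1) ^ i = 1 := by rw [← mul_pow]; simp
  calc (-1 : ℝ) ^ i * ((i.factorial : ℝ) * ((j + 1 + i).choose i : ℝ)) * ((-1) ^ j * (-1) ^ i)
      = ((-1 : ℝ) ^ i * (-1) ^ i) * ((i.factorial : ℝ) * ((-1) ^ j * ((j + 1 + i).choose i : ℝ))) := by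
        ring
    _ = _ := by rw [a2, one_mul]

theorem itd_sum (n i : ℕ) (c : Fin n → ℝ) (f : Fin n → ℝ → ℝ)
    (hf : ∀ j, ContDiffAt ℝ i (f j) (-1)) :
    iteratedDeriv i (fun z => ∑ j : Fin n, c j * f j z) (-1) =
      ∑ j : Fin n, c j * iteratedDeriv i (f j) (-1) := by
  have key : ∀ s : Finset (Fin n), ContDiffAt ℝ i (fun z => ∑ j ∈ s, c j * f j z) (-1) ∧
      iteratedDeriv i (fun z => ∑ j ∈ s, c j * f j z) (-1) =
      ∑ j ∈ s, c j * iteratedDeriv i (f j) (-1) := by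
    intro s
    induction s using Finset.induction_on with
    | empty =>
      simp only [Finset.sum_empty]
      refine ⟨contDiffAt_const, ?_⟩
      have : iteratedDeriv i (fun _ : ℝ => (0 : ℝ)) (-1) = 0 := by
        rw [iteratedDeriv_const]; split_ifs <;> rfl
      exact this
    | insert a s ha ih =>
      simp only [Finset.sum_insert ha]
      have h1 : ContDiffAt ℝ i (fun z => c a * f a z) (-1) := contDiffAt_const.mul (hf a)
      refine ⟨h1.add ih.1, ?_⟩
      rw [iteratedDeriv_fun_add h1 ih.1, ih.2, iteratedDeriv_const_mul_field]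
  exact (key univ).2

theorem cda_pow (j i : ℕ) : ContDiffAt ℝ i (fun z : ℝ => z ^ j) (-1) := contDiffAt_id.pow j

theorem cda_inv (j i : ℕ) : ContDiffAt ℝ i (fun z : ℝ => 1 / z ^ (j + 2)) (-1) := by
  apply ContDiffAt.div contDiffAt_const (contDiffAt_id.pow (j + 2))
  simp

theorem bq_zero (i : ℕ) : bq 0 i = 1 / 2 := by
  unfold bq
  have h0 : Q 0 = fun z : ℝ => (-1 / 2) * z ^ (-1 : ℤ) := by
    funext z
    rw [Q, zpow_neg, zpow_one]
    by_cases hz : z = 0
    · subst hz; simp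
    · field_simp
  rw [h0, iteratedDeriv_const_mul_field, iteratedDeriv_eq_iterate, iter_deriv_zpow]
  have h : ∏ l ∈ range i, (((-1 : ℤ) : ℝ) - l) = (-1) ^ i * (i.factorial : ℝ) := by
    induction i with
    | zero => simp
    | succ i ih =>
      rw [Finset.prod_range_succ, ih, Nat.factorial_succ]
      push_cast
      ring
  rw [h]
  have h4 : (-1 : ℝ) ^ ((-1 : ℤ) - (i : ℤ)) = -(-1) ^ i := by
    have h5 : ((-1 : ℤ) - (i : ℤ)) = -(((i + 1 : ℕ)) : ℤ) := by push_cast; ring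
    rw [h5, zpow_neg, zpow_natCast, pow_succ]
    have a2 : (-1 : ℝ) ^ i * (-1) ^ i = 1 := by rw [← mul_pow]; simp
    apply inv_eq_of_mul_eq_one_right
    calc _ = (-1 : ℝ) ^ i * (-1) ^ i := by ring
      _ = 1 := a2
  rw [h4]
  have a2 : (-1 : ℝ) ^ i * (-1) ^ i = 1 := by rw [← mul_pow]; simp
  have h6 : (i.factorial : ℝ) ≠ 0 := by positivity
  calc 1 / (i.factorial : ℝ) * (-1 / 2 * ((-1) ^ i * (i.factorial : ℝ) * -(-1) ^ i))
      = 1 / (i.factorial : ℝ) * (i.factorial : ℝ) * (1 / 2) * ((-1 : ℝ) ^ i * (-1) ^ i) := by ring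
    _ = 1 / 2 := by rw [a2]; field_simp

theorem bq_succ (n i : ℕ) : bq (n + 1) i = ∑ j ∈ range (n + 1), cq i (j + 1) * bq (n - j) j := by
  have h0 : Q (n + 1) = fun z : ℝ => ∑ j : Fin (n + 1),
      ((1 / 2) * bq (n - j) j) * (z ^ (j : ℕ) - 1 / z ^ ((j : ℕ) + 2)) := by
    funext z
    rw [Q]
    simp only
    rw [Finset.mul_sum]
    apply Finset.sum_congr rfl
    intro j _
    unfold bq
    ring
  have h1 : bq (n + 1) i = (1 / (i.factorial : ℝ)) * iteratedDeriv i (Q (n + 1)) (-1) := rfl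
  rw [h1, h0, itd_sum (n + 1) i (fun j => (1 / 2) * bq (n - j) j)
    (fun j z => z ^ (j : ℕ) - 1 / z ^ ((j : ℕ) + 2))
    (fun j => (cda_pow j i).sub (cda_inv j i)), Finset.mul_sum,
    ← Fin.sum_univ_eq_sum_range (fun j => cq i (j + 1) * bq (n - j) j) (n + 1)]
  apply Finset.sum_congr rfl
  intro j _
  rw [iteratedDeriv_fun_sub (cda_pow j i) (cda_inv j i), itd_pow, itd_inv]
  simp only [cq]
  have h6 : (i.factorial : ℝ) ≠ 0 := by positivity
  field_simp

/-! ### the bound -/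

theorem s1_le (i : ℕ) : ∀ m : ℕ, ∑ j ∈ range m, (j.choose i : ℝ) / 2 ^ j ≤ 2 := by
  induction i with
  | zero =>
    intro m
    have : ∑ j ∈ range m, ((j.choose 0 : ℕ) : ℝ) / 2 ^ j = 2 - 2 / 2 ^ m := by
      induction m with
      | zero => simp
      | succ m ih =>
        rw [Finset.sum_range_succ, ih, pow_succ]
        simp only [Nat.choose_zero_right, Nat.cast_one]
        field_simp
        ring
    rw [this]
    have : (0 : ℝ) < 2 / 2 ^ m := by positivity
    linarith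
  | succ i ih =>
    intro m
    induction m with
    | zero => simp
    | succ m ihm =>
      rw [Finset.sum_range_succ']
      have h1 : ∀ j ∈ range m, (((j + 1).choose (i + 1) : ℕ) : ℝ) / 2 ^ (j + 1) =
          (1 / 2) * ((j.choose i : ℝ) / 2 ^ j + (j.choose (i + 1) : ℝ) / 2 ^ j) := by
        intro j _
        rw [Nat.choose_succ_succ, pow_succ]
        push_cast
        field_simp
      rw [Finset.sum_congr rfl h1, ← Finset.mul_sum, Finset.sum_add_distrib]
      have h2 := ih m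
      simp only [Nat.choose_zero_succ, Nat.cast_zero, zero_div, add_zero]
      linarith

theorem s2_le (i : ℕ) : ∀ m : ℕ,
    ∑ j ∈ range m, ((j + 1 + i).choose i : ℝ) / 2 ^ j ≤ 2 ^ (i + 2) - 2 := by
  induction i with
  | zero =>
    intro m
    have := s1_le 0 m
    simp only [Nat.choose_zero_right] at this ⊢
    norm_num
    simpa using this
  | succ i ih =>
    intro m
    induction m with
    | zero =>
      simp only [Finset.range_zero, Finset.sum_empty]
      have : (1 : ℝ) ≤ 2 ^ (i + 1 + 2 - 1) := one_le_pow₀ (by norm_num)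
      have h2 : (2 : ℝ) ^ (i + 1 + 2) = 2 * 2 ^ (i + 1 + 2 - 1) := by
        rw [← pow_succ']; rfl
      rw [h2]
      linarith
    | succ m ihm =>
      have h1 : ∀ j ∈ range (m + 1), (((j + 1 + (i + 1)).choose (i + 1) : ℕ) : ℝ) / 2 ^ j =
          ((j + 1 + i).choose i : ℝ) / 2 ^ j + ((j + 1 + i).choose (i + 1) : ℝ) / 2 ^ j := by
        intro j _
        rw [show j + 1 + (i + 1) = (j + 1 + i) + 1 by ring, Nat.choose_succ_succ]
        push_cast
        ring
      rw [Finset.sum_congr rfl h1, Finset.sum_add_distrib]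
      have h2 : ∑ j ∈ range (m + 1), ((j + 1 + i).choose (i + 1) : ℝ) / 2 ^ j =
          (1 / 2) * (∑ j ∈ range m, ((j + 1 + (i + 1)).choose (i + 1) : ℝ) / 2 ^ j) + 1 := by
        rw [Finset.sum_range_succ', Finset.mul_sum]
        congr 1
        · apply Finset.sum_congr rfl
          intro j _
          rw [show j + 1 + 1 + i = j + 1 + (i + 1) by ring, pow_succ]
          field_simp
        · rw [show 0 + 1 + i = i + 1 by ring, Nat.choose_self]
          simp
      rw [h2]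
      have h3 := ih (m + 1)
      have h4 : (2 : ℝ) ^ (i + 1 + 2) = 2 * 2 ^ (i + 2) := by ring
      rw [h4] at ihm ⊢
      linarith

theorem bq_bound (n : ℕ) : ∀ i, |bq n i| ≤ (1 / 2) * 4 ^ n * 2 ^ i := by
  induction n using Nat.strong_induction_on with
  | _ n ih =>
    intro i
    cases n with
    | zero =>
      rw [bq_zero, abs_of_pos (by norm_num)]
      have : (1 : ℝ) ≤ 2 ^ i := one_le_pow₀ (by norm_num)
      linarith
    | succ n =>
      rw [bq_succ]
      have h1 : |∑ j ∈ range (n + 1), cq i (j + 1) * bq (n - j) j| ≤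
          ∑ j ∈ range (n + 1), (1 / 4 * 4 ^ n) *
            ((j.choose i : ℝ) / 2 ^ j + ((j + 1 + i).choose i : ℝ) / 2 ^ j) := by
        refine (Finset.abs_sum_le_sum_abs _ _).trans (Finset.sum_le_sum ?_)
        intro j hj
        rw [Finset.mem_range] at hj
        rw [abs_mul]
        have h2 := ih (n - j) (by omega) j
        have h3 : |cq i (j + 1)| ≤ (1 / 2) * ((j.choose i : ℝ) + ((j + 1 + i).choose i : ℝ)) := by
          unfold cq
          rw [abs_mul, abs_mul, abs_pow, abs_neg, abs_one, one_pow, one_mul,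
            abs_of_pos (by norm_num : (0 : ℝ) < 1 / 2)]
          apply mul_le_mul_of_nonneg_left _ (by norm_num)
          refine (abs_sub _ _).trans ?_
          rw [abs_mul, abs_pow, abs_neg, abs_one, one_pow, one_mul,
            abs_of_nonneg (by positivity : (0 : ℝ) ≤ (j.choose i : ℝ)),
            abs_of_nonneg (by positivity : (0 : ℝ) ≤ ((j + 1 + i).choose i : ℝ))]
        have h4 : (4 : ℝ) ^ (n - j) * 2 ^ j = 4 ^ n / 2 ^ j := by
          have e : (4 : ℝ) ^ n = 4 ^ (n - j) * (2 ^ j * 2 ^ j) := by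
            rw [← mul_pow]
            norm_num
            rw [← pow_add, Nat.sub_add_cancel (by omega)]
          rw [e]
          field_simp
        calc |cq i (j + 1)| * |bq (n - j) j|
            ≤ ((1 / 2) * ((j.choose i : ℝ) + ((j + 1 + i).choose i : ℝ))) *
              ((1 / 2) * 4 ^ (n - j) * 2 ^ j) := by
              apply mul_le_mul h3 h2 (abs_nonneg _) (by positivity)
          _ = (1 / 4) * ((j.choose i : ℝ) + ((j + 1 + i).choose i : ℝ)) *
              (4 ^ (n - j) * 2 ^ j) := by ring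
          _ = _ := by rw [h4]; ring
      refine h1.trans ?_
      rw [← Finset.mul_sum, Finset.sum_add_distrib]
      have h5 := s1_le i (n + 1)
      have h6 := s2_le i (n + 1)
      have h7 : (0 : ℝ) < 1 / 4 * 4 ^ n := by positivity
      calc (1 / 4 * (4 : ℝ) ^ n) * (∑ j ∈ range (n + 1), (j.choose i : ℝ) / 2 ^ j +
            ∑ j ∈ range (n + 1), ((j + 1 + i).choose i : ℝ) / 2 ^ j)
          ≤ (1 / 4 * (4 : ℝ) ^ n) * (2 + (2 ^ (i + 2) - 2)) := by
            apply mul_le_mul_of_nonneg_left _ h7.le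
            linarith
        _ = 4 ^ n * 2 ^ i := by ring
        _ ≤ 2 * (4 ^ n * 2 ^ i) := by
            have : (0 : ℝ) < 4 ^ n * 2 ^ i := by positivity
            linarith
        _ = 1 / 2 * 4 ^ (n + 1) * 2 ^ i := by ring

theorem bq_one (n : ℕ) : bq n 1 = deriv (Q n) (-1) := by
  unfold bq
  rw [iteratedDeriv_one]
  simp

theorem coeff_bound (n : ℕ) : |deriv (Q n) (-1)| ≤ 4 ^ n := by
  rw [← bq_one]
  refine (bq_bound n 1).trans (le_of_eq ?_)
  ring

/-! ### the expansion of the averages -/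

/-- `(1/2) (1 + z^(i+1)) (1+z)^(-(i+1))` -/
noncomputable def gq (i : ℕ) (z : ℂ) : ℂ := (1 + z ^ (i + 1)) / (2 * (1 + z) ^ (i + 1))

theorem gq_hasSum (i : ℕ) (z : ℂ) (hz : ‖z‖ < 1) :
    HasSum (fun l => ((cq i l : ℝ) : ℂ) * z ^ l) (gq i z) := by
  have hA := hasSum_choose_mul_geometric_of_norm_lt_one i (r := -z) (by rwa [norm_neg])
  rw [sub_neg_eq_add] at hA
  -- the second series
  let f : ℕ → ℂ := fun l => if l = 0 then 0 else (-1) ^ (l + i + 1) * ((l - 1).choose i : ℂ) * z ^ l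
  have hB : HasSum f (z ^ (i + 1) * (1 / (1 + z) ^ (i + 1))) := by
    have h1 : HasSum (fun n => f (n + (i + 1))) (z ^ (i + 1) * (1 / (1 + z) ^ (i + 1))) := by
      have h2 := hA.mul_left (z ^ (i + 1))
      refine h2.congr_fun ?_
      intro n
      simp only [f]
      rw [if_neg (by omega)]
      have e1 : n + (i + 1) - 1 = n + i := by omega
      rw [e1]
      have e2 : (-1 : ℂ) ^ (n + (i + 1) + i + 1) = (-1) ^ n := by
        have : n + (i + 1) + i + 1 = n + 2 * (i + 1) := by ring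
        rw [this, pow_add, pow_mul]
        norm_num
      rw [e2, neg_pow z n, pow_add]
      ring
    have h3 := (hasSum_nat_add_iff (i + 1)).1 h1
    have h4 : ∑ l ∈ range (i + 1), f l = 0 := by
      apply Finset.sum_eq_zero
      intro l hl
      rw [Finset.mem_range] at hl
      simp only [f]
      split_ifs with h
      · rfl
      · rw [Nat.choose_eq_zero_of_lt (by omega)]
        simp
    rw [h4, add_zero] at h3
    exact h3
  have hC := (hA.add hB).mul_left (1 / 2 : ℂ)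
  have hv : (1 / 2 : ℂ) * (1 / (1 + z) ^ (i + 1) + z ^ (i + 1) * (1 / (1 + z) ^ (i + 1))) =
      gq i z := by
    unfold gq
    have hne : (1 + z) ≠ 0 := by
      intro h
      have : z = -1 := by linear_combination h
      rw [this] at hz
      simp at hz
    field_simp
  rw [hv] at hC
  refine hC.congr_fun ?_
  intro l
  cases l with
  | zero =>
    simp only [f, cq]
    simp
  | succ j =>
    simp only [f, cq]
    rw [if_neg (by omega)]
    have e1 : j + 1 - 1 = j := by omega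
    rw [e1]
    have e2 : (-1 : ℂ) ^ (j + 1 + i + 1) = (-1) ^ j * (-1) ^ i := by
      have : j + 1 + i + 1 = j + i + 2 := by ring
      rw [this, pow_add, pow_add]
      norm_num
    rw [e2, neg_pow z (j + 1), pow_succ (-1 : ℂ) j]
    push_cast
    ring

theorem gq_rem (i n : ℕ) : ∃ K : ℝ, 0 ≤ K ∧ ∀ z : ℂ, ‖z‖ ≤ 1 / 2 →
    ‖gq i z - ∑ l ∈ range (n + 1), ((cq i l : ℝ) : ℂ) * z ^ l‖ ≤ K * ‖z‖ ^ (n + 1) := by
  have hs : Summable (fun l => ‖((cq i l : ℝ) : ℂ) * (1 / 2 : ℂ) ^ l‖) :=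
    (gq_hasSum i (1 / 2) (by norm_num)).summable.norm
  have hs2 : Summable (fun l => ‖((cq i (l + (n + 1)) : ℝ) : ℂ)‖ * (1 / 2 : ℝ) ^ l) := by
    have h1 := ((summable_nat_add_iff (n + 1)).2 hs).mul_left (2 ^ (n + 1))
    refine h1.congr ?_
    intro l
    rw [norm_mul, norm_pow]
    have : ‖(1 / 2 : ℂ)‖ = 1 / 2 := by norm_num
    rw [this, pow_add (1 / 2 : ℝ) l (n + 1)]
    have h2 : (2 : ℝ) ^ (n + 1) * (1 / 2) ^ (n + 1) = 1 := by rw [← mul_pow]; norm_num
    calc (2 : ℝ) ^ (n + 1) * (‖((cq i (l + (n + 1)) : ℝ) : ℂ)‖ * ((1 / 2) ^ l * (1 / 2) ^ (n + 1)))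
        = ‖((cq i (l + (n + 1)) : ℝ) : ℂ)‖ * (1 / 2) ^ l * (2 ^ (n + 1) * (1 / 2) ^ (n + 1)) := by
          ring
      _ = _ := by rw [h2, mul_one]
  refine ⟨∑' l, ‖((cq i (l + (n + 1)) : ℝ) : ℂ)‖ * (1 / 2 : ℝ) ^ l, tsum_nonneg (fun l => by positivity), ?_⟩
  intro z hz
  have h1 := gq_hasSum i z (lt_of_le_of_lt hz (by norm_num))
  have h2 := (hasSum_nat_add_iff' (n + 1)).2 h1
  have h3 := (hs2.hasSum).mul_right (‖z‖ ^ (n + 1))
  refine h2.norm_le_of_bounded h3 ?_
  intro l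
  rw [norm_mul, norm_pow, pow_add]
  have h4 : ‖z‖ ^ l ≤ (1 / 2) ^ l := pow_le_pow_left₀ (norm_nonneg _) hz l
  calc ‖((cq i (l + (n + 1)) : ℝ) : ℂ)‖ * (‖z‖ ^ l * ‖z‖ ^ (n + 1))
      = ‖((cq i (l + (n + 1)) : ℝ) : ℂ)‖ * ‖z‖ ^ l * ‖z‖ ^ (n + 1) := by ring
    _ ≤ _ := by gcongr

theorem f_bound (w ξ : ℂ) (hw : ‖w‖ ≤ 1 / 8) (hξ : ‖ξ‖ ≤ 2) : ‖f1 w ξ‖ ≤ 2 ∧ ‖f2 w ξ‖ ≤ 2 := by
  have h1 : ‖w * ξ‖ ≤ 1 / 4 := by
    rw [norm_mul]
    calc ‖w‖ * ‖ξ‖ ≤ (1 / 8) * 2 := by gcongr
      _ = 1 / 4 := by norm_num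
  have h2 : 3 / 4 ≤ ‖1 + w * ξ‖ := by
    have h3 := norm_sub_norm_le (1 : ℂ) (-(w * ξ))
    rw [norm_one, norm_neg, sub_neg_eq_add] at h3
    linarith
  have h3 : 0 < ‖1 + w * ξ‖ := by linarith
  unfold f1 f2
  rw [norm_div, norm_div, norm_one]
  constructor
  · rw [div_le_iff₀ h3]; linarith
  · rw [div_le_iff₀ h3]; linarith

theorem av_close (w : ℂ) (hw : ‖w‖ ≤ 1 / 8) (g g' : ℂ → ℂ) (ε : ℝ)
    (h : ∀ x : ℂ, ‖x‖ ≤ 2 → ‖g x - g' x‖ ≤ ε) : ∀ (N : ℕ) (ξ : ℂ), ‖ξ‖ ≤ 2 →
    ‖av w g N ξ - av w g' N ξ‖ ≤ ε := by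
  intro N
  induction N with
  | zero => intro ξ hξ; exact h ξ hξ
  | succ N ih =>
    intro ξ hξ
    obtain ⟨h1, h2⟩ := f_bound w ξ hw hξ
    have a1 := ih _ h1
    have a2 := ih _ h2
    have e : av w g (N + 1) ξ - av w g' (N + 1) ξ =
        ((av w g N (f1 w ξ) - av w g' N (f1 w ξ)) + (av w g N (f2 w ξ) - av w g' N (f2 w ξ))) / 2 := by
      simp only [av]
      ring
    rw [e, norm_div]
    have : ‖(2 : ℂ)‖ = 2 := by norm_num
    rw [this, div_le_iff₀ (by norm_num)]
    refine (norm_add_le _ _).trans ?_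
    linarith

theorem av_succ (w : ℂ) (g : ℂ → ℂ) : ∀ (N : ℕ) (ξ : ℂ),
    av w g (N + 1) ξ = av w (fun y => (g (f1 w y) + g (f2 w y)) / 2) N ξ := by
  intro N
  induction N with
  | zero => intro ξ; rfl
  | succ N ih =>
    intro ξ
    have h1 : av w g (N + 1 + 1) ξ = (av w g (N + 1) (f1 w ξ) + av w g (N + 1) (f2 w ξ)) / 2 := rfl
    rw [h1, ih, ih]
    rfl

theorem av_sum (w : ℂ) {ι : Type*} (s : Finset ι) (c : ι → ℂ) (g : ι → ℂ → ℂ) :
    ∀ (N : ℕ) (ξ : ℂ), av w (fun y => ∑ l ∈ s, c l * g l y) N ξ = ∑ l ∈ s, c l * av w (g l) N ξ := by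
  intro N
  induction N with
  | zero => intro ξ; rfl
  | succ N ih =>
    intro ξ
    simp only [av]
    rw [ih, ih, ← Finset.sum_add_distrib, Finset.sum_div]
    apply Finset.sum_congr rfl
    intro l _
    ring

theorem av_one (w : ℂ) : ∀ (N : ℕ) (ξ : ℂ), av w (fun _ => 1) N ξ = 1 := by
  intro N
  induction N with
  | zero => intro ξ; rfl
  | succ N ih =>
    intro ξ
    simp only [av]
    rw [ih, ih]
    norm_num

theorem expand (n : ℕ) : ∀ (i N : ℕ), n + 1 ≤ N →
    (fun w : ℂ => av w (fun ξ => ξ ^ (i + 1)) N 0 - ∑ m ∈ range (n + 1), ((bq m i : ℝ) : ℂ) * w ^ m)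
      =O[𝓝 0] (fun w => w ^ (n + 1)) := by
  induction n using Nat.strong_induction_on with
  | _ n ih =>
    intro i N hN
    obtain ⟨N', rfl⟩ : ∃ N', N = N' + 1 := ⟨N - 1, by omega⟩
    -- first step
    obtain ⟨K, hK0, hK⟩ := gq_rem i n
    have hstep : (fun w : ℂ => av w (fun ξ => ξ ^ (i + 1)) (N' + 1) 0 -
        ∑ l ∈ range (n + 1), (((cq i l : ℝ) : ℂ) * w ^ l) * av w (fun y => y ^ l) N' 0)
        =O[𝓝 0] (fun w => w ^ (n + 1)) := by
      apply IsBigO.of_bound (K * 2 ^ (n + 1))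
      have hmem : Metric.closedBall (0 : ℂ) (1 / 8) ∈ 𝓝 (0 : ℂ) :=
        Metric.closedBall_mem_nhds _ (by norm_num)
      filter_upwards [hmem] with w hw
      rw [mem_closedBall_zero_iff] at hw
      have e1 : av w (fun ξ => ξ ^ (i + 1)) (N' + 1) 0 = av w (fun y => gq i (w * y)) N' 0 := by
        rw [av_succ]
        congr 1
        funext y
        unfold f1 f2 gq
        rw [div_pow, div_pow, one_pow, ← add_div, div_div, mul_comm (2 : ℂ)]
      have e2 : ∑ l ∈ range (n + 1), (((cq i l : ℝ) : ℂ) * w ^ l) * av w (fun y => y ^ l) N' 0 =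
          av w (fun y => ∑ l ∈ range (n + 1), ((cq i l : ℝ) : ℂ) * (w * y) ^ l) N' 0 := by
        rw [← av_sum]
        congr 1
        funext y
        apply Finset.sum_congr rfl
        intro l _
        rw [mul_pow]
        ring
      rw [e1, e2]
      have h3 := av_close w hw (fun y => gq i (w * y))
        (fun y => ∑ l ∈ range (n + 1), ((cq i l : ℝ) : ℂ) * (w * y) ^ l)
        (K * (2 ^ (n + 1) * ‖w‖ ^ (n + 1))) (by
          intro x hx
          have h4 : ‖w * x‖ ≤ 2 * ‖w‖ := by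
            rw [norm_mul]
            calc ‖w‖ * ‖x‖ ≤ ‖w‖ * 2 := by gcongr
              _ = _ := by ring
          have h5 : ‖w * x‖ ≤ 1 / 2 := by linarith
          refine (hK _ h5).trans ?_
          rw [← mul_pow]
          gcongr) N' 0 (by simp)
      refine h3.trans (le_of_eq ?_)
      rw [norm_pow]
      ring
    -- second step
    have hsecond : (fun w : ℂ =>
        (∑ l ∈ range (n + 1), (((cq i l : ℝ) : ℂ) * w ^ l) * av w (fun y => y ^ l) N' 0) -
        ∑ m ∈ range (n + 1), ((bq m i : ℝ) : ℂ) * w ^ m) =O[𝓝 0] (fun w => w ^ (n + 1)) := by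
      have e1 : (fun w : ℂ =>
        (∑ l ∈ range (n + 1), (((cq i l : ℝ) : ℂ) * w ^ l) * av w (fun y => y ^ l) N' 0) -
        ∑ m ∈ range (n + 1), ((bq m i : ℝ) : ℂ) * w ^ m) = fun w : ℂ =>
        ∑ j ∈ range n, (((cq i (j + 1) : ℝ) : ℂ) * w ^ (j + 1)) *
          (av w (fun y => y ^ (j + 1)) N' 0 - ∑ m ∈ range (n - j), ((bq m j : ℝ) : ℂ) * w ^ m) := by
        funext w
        rw [Finset.sum_range_succ' _ n, Finset.sum_range_succ' _ n]
        have a1 : av w (fun y : ℂ => y ^ 0) N' 0 = 1 := by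
          simp only [pow_zero]
          exact av_one w N' 0
        rw [a1, bq_zero]
        have a2 : (((cq i 0 : ℝ) : ℂ) * w ^ 0) * 1 = (((1 / 2 : ℝ)) : ℂ) * w ^ 0 := by
          simp only [cq, mul_one]
        rw [a2, add_sub_add_right_eq_sub]
        have a3 : ∑ m ∈ range n, ((bq (m + 1) i : ℝ) : ℂ) * w ^ (m + 1) =
            ∑ m ∈ range n, ∑ k ∈ range (m + 1),
              (fun k l => (((cq i (k + 1) : ℝ) : ℂ) * w ^ (k + 1)) * (((bq l k : ℝ) : ℂ) * w ^ l))
                k (m - k) := by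
          apply Finset.sum_congr rfl
          intro m _
          rw [bq_succ]
          push_cast
          rw [Finset.sum_mul]
          apply Finset.sum_congr rfl
          intro k hk
          rw [Finset.mem_range] at hk
          have a4 : m + 1 = (k + 1) + (m - k) := by omega
          rw [a4, pow_add]
          ring
        have a5 := Finset.sum_range_diag_flip n
          (fun k l => (((cq i (k + 1) : ℝ) : ℂ) * w ^ (k + 1)) * (((bq l k : ℝ) : ℂ) * w ^ l))
        rw [a3, a5, ← Finset.sum_sub_distrib]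
        apply Finset.sum_congr rfl
        intro j _
        rw [← Finset.mul_sum, mul_sub]
      rw [e1]
      apply IsBigO.fun_sum
      intro j hj
      rw [Finset.mem_range] at hj
      have h1 := ih (n - 1 - j) (by omega) j N' (by omega)
      have e2 : n - 1 - j + 1 = n - j := by omega
      rw [e2] at h1
      have h2 : (fun w : ℂ => ((cq i (j + 1) : ℝ) : ℂ) * w ^ (j + 1)) =O[𝓝 0]
          (fun w => w ^ (j + 1)) := (isBigO_refl _ _).const_mul_left _
      have h3 := h2.mul h1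
      refine h3.congr_right ?_
      intro w
      rw [← pow_add]
      congr 1
      omega
    have := hstep.add hsecond
    refine this.congr_left ?_
    intro w
    ring

theorem taylor (n N : ℕ) (h : n + 1 ≤ N) :
    (fun w : ℂ => av w (fun ξ => ξ ^ 2) N 0 - ∑ m ∈ range (n + 1), ((deriv (Q m) (-1) : ℝ) : ℂ) * w ^ m)
      =O[nhds 0] (fun w => w ^ (n + 1)) := by
  have := expand n 1 N h
  simp only [bq_one] at this
  exact this

end Pool.Agent.R945.MK
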