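import Pool.Agent.R273.MK.E3

/-!
Part MK-E (analysis), proof in Pool.Agent.R273.MK.E1, E2, E3 (helper273).
-/

set_option autoImplicit false

namespace Pool.Agent.R945.MK

theorem borel (C : ℝ) : ∃ K : ℝ, ∀ (a : ℕ → ℂ) (B : ℂ → ℂ) (β : ℂ), (∀ n, ‖a n‖ ≤ C * 8 ^ n) →
    DifferentiableOn ℂ B {p | 1 < p.re} → (∀ p : ℂ, 1 < p.re → ‖B p‖ ≤ C) →
    (∀ p : ℂ, 1 < p.re → 8 < ‖p‖ → HasSum (fun n => a n * (p⁻¹) ^ n) (B p)) →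
    (∀ p : ℂ, 1 < p.re → ‖B p - β‖ ≤ C * ‖p - 1‖) →
    ∀ H : ℝ → ℂ, (∀ T, H T = (∫ t in (0 : ℝ)..T, (∑' n : ℕ, a n / (n.factorial : ℂ) * (t : ℂ) ^ n) * Real.exp (-t))
        - β * (1 - Real.exp (-T))) →
      (∀ S T, 0 ≤ S → 0 ≤ T → ‖H T - H S‖ ≤ K * |T - S|) ∧
      (∀ R, 0 ≤ R → ∫ T in (0 : ℝ)..R, ‖H T‖ ^ 2 ≤ K) :=
  Pool.Agent.R273.MK.borel C

end Pool.Agent.R945.MK
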