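import Mathlib
import Pool.Agent.R945.MK.Defs
import Pool.Agent.R945.MK.D

/-!
# MK-F1: Cauchy estimates and identification of the Taylor coefficients (helper699)
-/

set_option autoImplicit false

namespace Pool.Agent.R945.MK

open Finset Asymptotics Topology Filter

namespace F1

theorem av_bound (w : ℂ) (hw : ‖w‖ ≤ 1 / 8) : ∀ (N : ℕ) (ξ : ℂ), ‖ξ‖ ≤ 2 →
    ‖av w (fun ξ => ξ ^ 2) N ξ‖ ≤ 4 := by
  intro N
  induction N with
  | zero =>
    intro ξ hξ
    change ‖ξ ^ 2‖ ≤ 4
    rw [norm_pow]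
    nlinarith [norm_nonneg ξ]
  | succ N ih =>
    intro ξ hξ
    obtain ⟨h1, h2⟩ := f_bound w ξ hw hξ
    have a1 := ih _ h1
    have a2 := ih _ h2
    change ‖(av w (fun ξ => ξ ^ 2) N (f1 w ξ) + av w (fun ξ => ξ ^ 2) N (f2 w ξ)) / 2‖ ≤ 4
    rw [norm_div]
    have : ‖(2 : ℂ)‖ = 2 := by norm_num
    rw [this, div_le_iff₀ (by norm_num)]
    refine (norm_add_le _ _).trans ?_
    linarith

theorem ne_zero (w ξ : ℂ) (hw : ‖w‖ ≤ 1 / 8) (hξ : ‖ξ‖ ≤ 2) : 1 + w * ξ ≠ 0 := by
  have h1 : ‖w * ξ‖ ≤ 1 / 4 := by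
    rw [norm_mul]
    calc ‖w‖ * ‖ξ‖ ≤ (1 / 8) * 2 := by gcongr
      _ = 1 / 4 := by norm_num
  intro h
  have h2 : w * ξ = -1 := by linear_combination h
  rw [h2] at h1
  norm_num at h1

theorem av_diff (w : ℂ) (hw : ‖w‖ ≤ 1 / 8) : ∀ (N : ℕ) (x : ℂ → ℂ), DifferentiableAt ℂ x w →
    ‖x w‖ ≤ 2 → DifferentiableAt ℂ (fun w => av w (fun ξ => ξ ^ 2) N (x w)) w := by
  intro N
  induction N with
  | zero =>
    intro x hx _
    exact hx.pow 2
  | succ N ih =>
    intro x hx hb
    obtain ⟨h1, h2⟩ := f_bound w (x w) hw hb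
    have hne := ne_zero w (x w) hw hb
    have hd : DifferentiableAt ℂ (fun w => 1 + w * x w) w :=
      (differentiableAt_const _).add (differentiableAt_id.mul hx)
    have d1 : DifferentiableAt ℂ (fun w => f1 w (x w)) w := by
      unfold f1
      exact (differentiableAt_const _).div hd hne
    have d2 : DifferentiableAt ℂ (fun w => f2 w (x w)) w := by
      unfold f2
      exact (differentiableAt_id.mul hx).div hd hne
    have a1 := ih _ d1 h1
    have a2 := ih _ d2 h2
    exact (a1.add a2).div_const 2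

/-- a coefficient comparison -/
theorem coeff_eq (f : ℂ → ℂ) (a q : ℕ → ℂ) (N : ℕ)
    (ha : ∀ n : ℕ, (fun w : ℂ => f w - ∑ m ∈ range n, a m * w ^ m) =O[nhds 0] (fun w => w ^ n))
    (hq : ∀ n : ℕ, n + 1 ≤ N →
      (fun w : ℂ => f w - ∑ m ∈ range (n + 1), q m * w ^ m) =O[nhds 0] (fun w => w ^ (n + 1))) :
    ∀ n, n < N → a n = q n := by
  intro n
  induction n using Nat.strong_induction_on with
  | _ n ih =>
    intro hn
    have h1 := (ha (n + 1)).sub (hq n hn)
    have h2 : (fun w : ℂ => (q n - a n) * w ^ n) =O[nhds 0] (fun w => w ^ (n + 1)) := by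
      refine h1.congr_left ?_
      intro w
      rw [sum_range_succ, sum_range_succ]
      have : ∑ m ∈ range n, a m * w ^ m = ∑ m ∈ range n, q m * w ^ m := by
        apply Finset.sum_congr rfl
        intro m hm
        rw [Finset.mem_range] at hm
        rw [ih m hm (by omega)]
      rw [this]
      ring
    have h3 : (fun _ : ℂ => (q n - a n)) =O[nhdsWithin 0 {0}ᶜ] (fun w : ℂ => w) := by
      have h4 := (h2.mono (nhdsWithin_le_nhds (s := {(0 : ℂ)}ᶜ))).mul
        (isBigO_refl (fun w : ℂ => (w ^ n)⁻¹) (nhdsWithin 0 {0}ᶜ))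
      refine (h4.congr' ?_ ?_)
      · filter_upwards [self_mem_nhdsWithin] with w hw
        have hw' : w ≠ 0 := hw
        field_simp
      · filter_upwards [self_mem_nhdsWithin] with w hw
        have hw' : w ≠ 0 := hw
        field_simp
        ring
    have h5 : Tendsto (fun _ : ℂ => (q n - a n)) (nhdsWithin 0 {0}ᶜ) (nhds 0) := by
      refine h3.trans_tendsto ?_
      exact tendsto_id.mono_left nhdsWithin_le_nhds
    have h6 : q n - a n = 0 := tendsto_nhds_unique tendsto_const_nhds h5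
    linear_combination -h6

end F1

open F1 in
theorem coeffs : ∃ a : ℕ → ℕ → ℂ, (∀ N n, ‖a N n‖ ≤ 4 * 8 ^ n) ∧
    (∀ N n, n < N → a N n = ((deriv (Q n) (-1) : ℝ) : ℂ)) ∧
    (∀ N (p : ℂ), 8 < ‖p‖ → HasSum (fun n => a N n * (p⁻¹) ^ n) (av p⁻¹ (fun ξ => ξ ^ 2) N 0)) := by
  set A : ℕ → ℂ → ℂ := fun N w => av w (fun ξ => ξ ^ 2) N 0 with hA
  have hR : ((1 / 8 : NNReal) : ℝ) = 1 / 8 := by norm_num
  have hdiff : ∀ N, DifferentiableOn ℂ (A N) (Metric.closedBall 0 ((1 / 8 : NNReal) : ℝ)) := by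
    intro N w hw
    rw [hR, mem_closedBall_zero_iff] at hw
    exact (av_diff w hw N (fun _ => 0) (differentiableAt_const _) (by simp)).differentiableWithinAt
  have hps : ∀ N, HasFPowerSeriesOnBall (A N) (cauchyPowerSeries (A N) 0 ((1 / 8 : NNReal) : ℝ)) 0
      (1 / 8 : NNReal) := fun N => (hdiff N).hasFPowerSeriesOnBall (by norm_num)
  have hbd : ∀ N n, ‖(cauchyPowerSeries (A N) 0 ((1 / 8 : NNReal) : ℝ)).coeff n‖ ≤ 4 * 8 ^ n := by
    intro N n
    rw [← FormalMultilinearSeries.norm_apply_eq_norm_coef]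
    refine (norm_cauchyPowerSeries_le _ _ _ _).trans ?_
    rw [hR]
    have h1 : |(1 / 8 : ℝ)|⁻¹ ^ n = 8 ^ n := by norm_num
    rw [h1]
    gcongr
    have h2 : ∫ θ in (0 : ℝ)..(2 * Real.pi), ‖A N (circleMap 0 (1 / 8) θ)‖ ≤ 4 * (2 * Real.pi - 0) := by
      have h3 : ‖∫ θ in (0 : ℝ)..(2 * Real.pi), ‖A N (circleMap 0 (1 / 8) θ)‖‖ ≤
          4 * |2 * Real.pi - 0| := by
        apply intervalIntegral.norm_integral_le_of_norm_le_const
        intro θ _
        rw [norm_norm]
        apply av_bound _ _ N 0 (by simp)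
        rw [norm_circleMap_zero]
        norm_num [abs_le]
      rw [abs_of_nonneg (by rw [sub_zero]; positivity)] at h3
      exact (le_abs_self _).trans h3
    rw [inv_mul_le_iff₀ (by positivity)]
    linarith
  refine ⟨fun N n => (cauchyPowerSeries (A N) 0 ((1 / 8 : NNReal) : ℝ)).coeff n, hbd, ?_, ?_⟩
  · intro N
    apply coeff_eq (A N) _ _ N
    · intro n
      have h1 := (hps N).hasFPowerSeriesAt.isBigO_sub_partialSum_pow n
      have h2 : (fun y : ℂ => A N (0 + y) -
          (cauchyPowerSeries (A N) 0 ((1 / 8 : NNReal) : ℝ)).partialSum n y) =O[nhds 0]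
          (fun y => y ^ n) := by
        refine h1.trans (IsBigO.of_norm_right ?_)
        simp only [norm_pow]
        exact isBigO_refl _ _
      refine h2.congr_left ?_
      intro w
      rw [zero_add, FormalMultilinearSeries.partialSum]
      congr 1
      apply Finset.sum_congr rfl
      intro m _
      rw [FormalMultilinearSeries.apply_eq_pow_smul_coeff, smul_eq_mul, mul_comm]
    · intro n hn
      exact taylor n N hn
  · intro N p hp
    have h1 : p⁻¹ ∈ Metric.eball (0 : ℂ) ((1 / 8 : NNReal) : ENNReal) := by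
      rw [Metric.eball_coe, mem_ball_zero_iff, norm_inv, hR]
      rw [inv_lt_comm₀ (by linarith) (by norm_num)]
      norm_num
      exact hp
    have h2 := (hps N).hasSum h1
    rw [zero_add] at h2
    refine h2.congr_fun ?_
    intro n
    rw [FormalMultilinearSeries.apply_eq_pow_smul_coeff, smul_eq_mul, mul_comm]

end Pool.Agent.R945.MK
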