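import Mathlib
import Pool.Agent.R945.MK.Defs
import Pool.Agent.R945.MK.C

/-!
# MK-F2: the averages at `w = 1` converge to the second moment of `?(x)` (helper699)
-/

set_option autoImplicit false

namespace Pool.Agent.R945.MK

open Finset Filter Topology MeasureTheory

namespace F2

/-- the real version of `av 1` -/
noncomputable def avr : ℕ → ℝ → ℝ
  | 0, x => x ^ 2
  | n + 1, x => (avr n (1 / (1 + x)) + avr n (x / (1 + x))) / 2

theorem av_eq : ∀ (N : ℕ) (x : ℝ), av 1 (fun ξ => ξ ^ 2) N (x : ℂ) = (avr N x : ℂ) := by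
  intro N
  induction N with
  | zero => intro x; simp [av, avr]
  | succ N ih =>
    intro x
    have e1 : f1 1 (x : ℂ) = ((1 / (1 + x) : ℝ) : ℂ) := by
      unfold f1; push_cast; rw [one_mul]
    have e2 : f2 1 (x : ℂ) = ((x / (1 + x) : ℝ) : ℂ) := by
      unfold f2; push_cast; rw [one_mul]
    simp only [av, avr]
    rw [e1, e2, ih, ih]
    push_cast
    ring

theorem map_mem (x : ℝ) (hx : x ∈ Set.Icc (0 : ℝ) 1) :
    1 / (1 + x) ∈ Set.Icc (0 : ℝ) 1 ∧ x / (1 + x) ∈ Set.Icc (0 : ℝ) 1 := by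
  obtain ⟨h0, h1⟩ := hx
  have hp : 0 < 1 + x := by linarith
  refine ⟨⟨by positivity, ?_⟩, ⟨by positivity, ?_⟩⟩
  · rw [div_le_one hp]; linarith
  · rw [div_le_one hp]; linarith

theorem contr : ∀ (N : ℕ) (x y : ℝ), x ∈ Set.Icc (0 : ℝ) 1 → y ∈ Set.Icc (0 : ℝ) 1 →
    |avr N x - avr N y| ≤ 4 * (3 / 4) ^ N * |x - y| * (1 - x / 2) := by
  intro N
  induction N with
  | zero =>
    intro x y hx hy
    obtain ⟨h0, h1⟩ := hx
    obtain ⟨h2, h3⟩ := hy
    simp only [avr]
    have e : x ^ 2 - y ^ 2 = (x - y) * (x + y) := by ring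
    rw [e, abs_mul, abs_of_nonneg (by linarith : 0 ≤ x + y)]
    have := abs_nonneg (x - y)
    nlinarith
  | succ N ih =>
    intro x y hx hy
    obtain ⟨a1, a2⟩ := map_mem x hx
    obtain ⟨b1, b2⟩ := map_mem y hy
    obtain ⟨h0, h1⟩ := hx
    obtain ⟨h2, h3⟩ := hy
    have i1 := ih _ _ a1 b1
    have i2 := ih _ _ a2 b2
    have px : 0 < 1 + x := by linarith
    have py : 0 < 1 + y := by linarith
    have d1 : |1 / (1 + x) - 1 / (1 + y)| = |x - y| / ((1 + x) * (1 + y)) := by
      rw [← abs_of_pos (mul_pos px py), ← abs_div, ← abs_neg]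
      congr 1
      field_simp
      ring
    have d2 : |x / (1 + x) - y / (1 + y)| = |x - y| / ((1 + x) * (1 + y)) := by
      rw [← abs_of_pos (mul_pos px py), ← abs_div]
      congr 1
      field_simp
      ring
    rw [d1] at i1
    rw [d2] at i2
    have e : avr (N + 1) x - avr (N + 1) y = ((avr N (1 / (1 + x)) - avr N (1 / (1 + y))) +
        (avr N (x / (1 + x)) - avr N (y / (1 + y)))) / 2 := by
      simp only [avr]
      ring
    rw [e, abs_div, abs_of_pos (by norm_num : (0 : ℝ) < 2), div_le_iff₀ (by norm_num)]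
    refine (abs_add_le _ _).trans ?_
    set c : ℝ := 4 * (3 / 4) ^ N with hc
    have hc0 : 0 ≤ c := by positivity
    have e3 : c * (|x - y| / ((1 + x) * (1 + y))) * (1 - 1 / (1 + x) / 2) +
        c * (|x - y| / ((1 + x) * (1 + y))) * (1 - x / (1 + x) / 2) =
        c * |x - y| * (3 / 2) * (1 / ((1 + x) * (1 + y))) := by
      field_simp
      ring
    have h4 : 1 / ((1 + x) * (1 + y)) ≤ 1 - x / 2 := by
      rw [div_le_iff₀ (by positivity)]
      nlinarith [mul_nonneg h0 h2, mul_nonneg h0 (by linarith : 0 ≤ 1 - x)]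
    calc |avr N (1 / (1 + x)) - avr N (1 / (1 + y))| + |avr N (x / (1 + x)) - avr N (y / (1 + y))|
        ≤ c * |x - y| * (3 / 2) * (1 / ((1 + x) * (1 + y))) := by rw [← e3]; linarith
      _ ≤ c * |x - y| * (3 / 2) * (1 - x / 2) := by gcongr
      _ = 4 * (3 / 4) ^ (N + 1) * |x - y| * (1 - x / 2) * 2 := by
        rw [hc, pow_succ]; ring

theorem avr_mem : ∀ (N : ℕ) (x : ℝ), x ∈ Set.Icc (0 : ℝ) 1 → avr N x ∈ Set.Icc (0 : ℝ) 1 := by
  intro N
  induction N with
  | zero =>
    intro x hx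
    obtain ⟨h0, h1⟩ := hx
    simp only [avr]
    exact ⟨by positivity, by nlinarith⟩
  | succ N ih =>
    intro x hx
    obtain ⟨a1, a2⟩ := map_mem x hx
    obtain ⟨b1, b2⟩ := ih _ a1
    obtain ⟨b3, b4⟩ := ih _ a2
    simp only [avr]
    constructor <;> linarith

theorem avr_meas : ∀ (N : ℕ), Measurable (avr N) := by
  intro N
  induction N with
  | zero =>
    have e : avr 0 = fun x => x ^ 2 := by
      funext x; simp only [avr]
    rw [e]
    fun_prop
  | succ N ih =>
    have e : avr (N + 1) = fun x => (avr N (1 / (1 + x)) + avr N (x / (1 + x))) / 2 := by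
      funext x; simp only [avr]
    rw [e]
    have m1 : Measurable (fun x : ℝ => 1 / (1 + x)) := by fun_prop
    have m2 : Measurable (fun x : ℝ => x / (1 + x)) := by fun_prop
    exact ((ih.comp m1).add (ih.comp m2)).div_const 2

theorem integrable_of (μ : Measure ℝ) [IsProbabilityMeasure μ] (hμ : μ (Set.Icc 0 1)ᶜ = 0)
    (g : ℝ → ℝ) (hg : Measurable g) (hb : ∀ x ∈ Set.Icc (0 : ℝ) 1, g x ∈ Set.Icc (0 : ℝ) 1) :
    Integrable g μ := by
  apply Integrable.of_bound hg.aestronglyMeasurable 1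
  have : ∀ᵐ x ∂μ, x ∈ Set.Icc (0 : ℝ) 1 := by
    rw [ae_iff]; exact hμ
  filter_upwards [this] with x hx
  obtain ⟨h1, h2⟩ := hb x hx
  rw [Real.norm_eq_abs, abs_of_nonneg h1]
  exact h2

theorem int_step (μ : Measure ℝ) [IsProbabilityMeasure μ] (hμ : μ (Set.Icc 0 1)ᶜ = 0)
    (hinv : μ = (1 / 2 : ENNReal) • (μ.map (fun x => 1 / (1 + x)))
      + (1 / 2 : ENNReal) • (μ.map (fun x => x / (1 + x)))) (N : ℕ) :
    ∫ x, avr (N + 1) x ∂μ = ∫ x, avr N x ∂μ := by
  have m1 : Measurable (fun x : ℝ => 1 / (1 + x)) := by fun_prop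
  have m2 : Measurable (fun x : ℝ => x / (1 + x)) := by fun_prop
  have i1 : Integrable (fun x => avr N (1 / (1 + x))) μ :=
    integrable_of μ hμ _ ((avr_meas N).comp m1) (fun x hx => avr_mem N _ (map_mem x hx).1)
  have i2 : Integrable (fun x => avr N (x / (1 + x))) μ :=
    integrable_of μ hμ _ ((avr_meas N).comp m2) (fun x hx => avr_mem N _ (map_mem x hx).2)
  have j1 : Integrable (avr N) (μ.map (fun x => 1 / (1 + x))) := by
    rw [integrable_map_measure (avr_meas N).aestronglyMeasurable m1.aemeasurable]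
    exact i1
  have j2 : Integrable (avr N) (μ.map (fun x => x / (1 + x))) := by
    rw [integrable_map_measure (avr_meas N).aestronglyMeasurable m2.aemeasurable]
    exact i2
  have e1 : ∫ x, avr N x ∂μ = (1 / 2) * ∫ x, avr N (1 / (1 + x)) ∂μ +
      (1 / 2) * ∫ x, avr N (x / (1 + x)) ∂μ := by
    have half : ((1 / 2 : ENNReal)) ≠ ⊤ := by norm_num
    conv_lhs => rw [hinv]
    rw [integral_add_measure (j1.smul_measure half) (j2.smul_measure half),
      integral_smul_measure, integral_smul_measure,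
      integral_map m1.aemeasurable (avr_meas N).aestronglyMeasurable,
      integral_map m2.aemeasurable (avr_meas N).aestronglyMeasurable]
    simp
  have e2 : ∫ x, avr (N + 1) x ∂μ = (1 / 2) * ∫ x, avr N (1 / (1 + x)) ∂μ +
      (1 / 2) * ∫ x, avr N (x / (1 + x)) ∂μ := by
    rw [← integral_const_mul, ← integral_const_mul, ← integral_add (i1.const_mul _) (i2.const_mul _)]
    congr 1
    funext x
    simp only [avr]
    ring
  rw [e1, e2]

theorem int_eq (μ : Measure ℝ) [IsProbabilityMeasure μ] (hμ : μ (Set.Icc 0 1)ᶜ = 0)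
    (hinv : μ = (1 / 2 : ENNReal) • (μ.map (fun x => 1 / (1 + x)))
      + (1 / 2 : ENNReal) • (μ.map (fun x => x / (1 + x)))) (N : ℕ) :
    ∫ x, avr N x ∂μ = ∫ x, x ^ 2 ∂μ := by
  induction N with
  | zero => rfl
  | succ N ih => rw [int_step μ hμ hinv, ih]

end F2

open F2 in
theorem beta_lim (F : StieltjesFunction ℝ) (h0 : ∀ x < 0, F x = 0)
    (h1 : ∀ x ∈ Set.Icc (0 : ℝ) 1, F x = qm x) (h2 : ∀ x, 1 < x → F x = 1) :
    Filter.Tendsto (fun N => av 1 (fun ξ => ξ ^ 2) N 0) Filter.atTop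
      (nhds ((∫ x, x ^ 2 ∂F.measure : ℝ) : ℂ)) := by
  obtain ⟨hP, hμ, hinv⟩ := qm_inv F h0 h1 h2
  have key : ∀ N, |avr N 0 - ∫ x, x ^ 2 ∂F.measure| ≤ 4 * (3 / 4) ^ N := by
    intro N
    have hint := integrable_of F.measure hμ (avr N) (avr_meas N) (avr_mem N)
    rw [← int_eq F.measure hμ hinv N]
    have e : avr N 0 - ∫ x, avr N x ∂F.measure = ∫ x, (avr N 0 - avr N x) ∂F.measure := by
      rw [integral_sub (integrable_const _) hint]
      simp
    rw [e, ← Real.norm_eq_abs]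
    have hae : ∀ᵐ x ∂F.measure, ‖avr N 0 - avr N x‖ ≤ 4 * (3 / 4) ^ N := by
      have : ∀ᵐ x ∂F.measure, x ∈ Set.Icc (0 : ℝ) 1 := by
        rw [ae_iff]; exact hμ
      filter_upwards [this] with x hx
      have h3 := contr N 0 x ⟨le_refl _, zero_le_one⟩ hx
      rw [Real.norm_eq_abs]
      refine h3.trans ?_
      have h4 : |0 - x| ≤ 1 := by
        rw [zero_sub, abs_neg, abs_of_nonneg hx.1]; exact hx.2
      calc 4 * (3 / 4) ^ N * |0 - x| * (1 - 0 / 2) ≤ 4 * (3 / 4) ^ N * 1 * (1 - 0 / 2) := by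
            gcongr
        _ = _ := by ring
    refine (norm_integral_le_of_norm_le_const hae).trans ?_
    simp
  have lim : Tendsto (fun N => avr N 0) atTop (nhds (∫ x, x ^ 2 ∂F.measure)) := by
    rw [tendsto_iff_norm_sub_tendsto_zero]
    have h5 : Tendsto (fun N : ℕ => 4 * (3 / 4 : ℝ) ^ N) atTop (nhds 0) := by
      have := (tendsto_pow_atTop_nhds_zero_of_lt_one (by norm_num : (0 : ℝ) ≤ 3 / 4)
        (by norm_num)).const_mul 4
      rwa [mul_zero] at this
    exact squeeze_zero (fun _ => norm_nonneg _) key h5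
  have lim2 := (Complex.continuous_ofReal.tendsto _).comp lim
  refine lim2.congr ?_
  intro N
  have := av_eq N 0
  rw [Complex.ofReal_zero] at this
  exact this.symm

end Pool.Agent.R945.MK
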