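import Mathlib

/-!
# Project MK (MP_07db0e_nt), part F3: passage to the limit
-/

set_option autoImplicit false

namespace Pool.Agent.R945.MK

open Filter Topology MeasureTheory

section F3

/-- the exponential series with coefficients `c` -/
noncomputable def f3S (c : ℕ → ℂ) (t : ℝ) : ℂ := ∑' n : ℕ, c n / (n.factorial : ℂ) * (t : ℂ) ^ n

theorem f3_term {C : ℝ} {c : ℕ → ℂ} (hc : ∀ n, ‖c n‖ ≤ C * 8 ^ n) {T t : ℝ} (ht : |t| ≤ T) (n : ℕ) :
    ‖c n / (n.factorial : ℂ) * (t : ℂ) ^ n‖ ≤ C * ((8 * T) ^ n / n.factorial) := by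
  have hC : 0 ≤ C := by
    have := (norm_nonneg _).trans (hc 0)
    simpa using this
  have hf : (0 : ℝ) < n.factorial := by exact_mod_cast n.factorial_pos
  rw [norm_mul, norm_div, norm_pow, Complex.norm_natCast, Complex.norm_real, Real.norm_eq_abs]
  calc ‖c n‖ / (n.factorial : ℝ) * |t| ^ n ≤ (C * 8 ^ n) / n.factorial * T ^ n := by
        refine mul_le_mul ?_ ?_ (by positivity) (by positivity)
        · exact div_le_div_of_nonneg_right (hc n) hf.le
        · exact pow_le_pow_left₀ (abs_nonneg t) ht n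
    _ = C * ((8 * T) ^ n / n.factorial) := by
        rw [mul_pow]
        ring

theorem f3_summable (C T : ℝ) : Summable fun n : ℕ => C * ((8 * T) ^ n / n.factorial) :=
  (Real.summable_pow_div_factorial (8 * T)).mul_left C

theorem f3_cont {C : ℝ} {c : ℕ → ℂ} (hc : ∀ n, ‖c n‖ ≤ C * 8 ^ n) : Continuous (f3S c) := by
  rw [continuous_iff_continuousAt]
  intro t0
  have h1 : ContinuousOn (f3S c) {t : ℝ | |t| < |t0| + 1} := by
    refine continuousOn_tsum (u := fun n : ℕ => C * ((8 * (|t0| + 1)) ^ n / n.factorial)) ?_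
      (f3_summable C _) ?_
    · intro n
      fun_prop
    · intro n t ht
      exact f3_term hc (le_of_lt ht) n
  refine h1.continuousAt ?_
  refine IsOpen.mem_nhds ?_ ?_
  · exact isOpen_lt continuous_abs continuous_const
  · show |t0| < |t0| + 1
    linarith

/-- convergence of the series -/
theorem f3_lim {C : ℝ} {q : ℕ → ℂ} {a : ℕ → ℕ → ℂ} (ha : ∀ N n, ‖a N n‖ ≤ C * 8 ^ n)
    (haq : ∀ N n, n < N → a N n = q n) (t : ℝ) :
    Tendsto (fun N => f3S (a N) t) atTop (𝓝 (f3S q t)) := by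
  unfold f3S
  refine tendsto_tsum_of_dominated_convergence (f3_summable C |t|) ?_ ?_
  · intro n
    refine tendsto_const_nhds.congr' ?_
    filter_upwards [eventually_gt_atTop n] with N hN
    rw [haq N n hN]
  · exact Eventually.of_forall fun N n => f3_term (ha N) le_rfl n

theorem f3_bound {C : ℝ} {c : ℕ → ℂ} (hc : ∀ n, ‖c n‖ ≤ C * 8 ^ n) {T t : ℝ} (ht : |t| ≤ T) :
    ‖f3S c t‖ ≤ ∑' n : ℕ, C * ((8 * T) ^ n / n.factorial) :=
  tsum_of_norm_bounded (f3_summable C T).hasSum fun n => f3_term hc ht n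

/-- a Lipschitz function with bounded `L²` integrals tends to zero -/
theorem f3_tend {H : ℝ → ℂ} (hH : Continuous H) {K : ℝ}
    (hl : ∀ S T, 0 ≤ S → 0 ≤ T → ‖H T - H S‖ ≤ K * |T - S|)
    (hi : ∀ R, 0 ≤ R → ∫ T in (0 : ℝ)..R, ‖H T‖ ^ 2 ≤ K) : Tendsto H atTop (𝓝 0) := by
  have hcont : Continuous fun T => ‖H T‖ ^ 2 := (hH.norm).pow 2
  have hint : ∀ x y : ℝ, IntervalIntegrable (fun T => ‖H T‖ ^ 2) volume x y := fun x y =>
    hcont.intervalIntegrable x y
  set F : ℝ → ℝ := fun R => ∫ T in (0 : ℝ)..R, ‖H T‖ ^ 2 with hF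
  have hsub : ∀ x y, F y - F x = ∫ T in x..y, ‖H T‖ ^ 2 := fun x y => by
    rw [hF]
    exact intervalIntegral.integral_interval_sub_left (hint _ _) (hint _ _)
  have hmono : Monotone F := by
    intro x y hxy
    have : 0 ≤ F y - F x := by
      rw [hsub]
      exact intervalIntegral.integral_nonneg hxy fun t _ => by positivity
    linarith
  have hbdd : BddAbove (Set.range F) := by
    refine ⟨K, ?_⟩
    rintro _ ⟨R, rfl⟩
    rcases le_total 0 R with h | h
    · exact hi R h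
    · exact (hmono h).trans (hi 0 le_rfl)
  have hlim := tendsto_atTop_ciSup hmono hbdd
  rw [Metric.tendsto_atTop]
  intro ε hε
  set K' := |K| + 1 with hK'
  have hK'0 : 0 < K' := by positivity
  set δ := ε / (2 * K') with hδ
  have hδ0 : 0 < δ := by positivity
  have hlim2 : Tendsto (fun T => F (T + δ) - F T) atTop (𝓝 0) := by
    have h1 := (hlim.comp (tendsto_atTop_add_const_right atTop δ tendsto_id)).sub hlim
    simpa using h1
  have hc0 : 0 < (ε / 2) ^ 2 * δ := by positivity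
  obtain ⟨T0, hT0⟩ := Metric.tendsto_atTop.1 hlim2 _ hc0
  refine ⟨max T0 0, fun T hT => ?_⟩
  have hT1 : T0 ≤ T := (le_max_left _ _).trans hT
  have hT2 : 0 ≤ T := (le_max_right _ _).trans hT
  rw [dist_zero_right]
  by_contra hcon
  push Not at hcon
  have h1 := hT0 T hT1
  rw [Real.dist_eq, sub_zero, hsub] at h1
  have h2 : (ε / 2) ^ 2 * δ ≤ ∫ t in T..(T + δ), ‖H t‖ ^ 2 := by
    have h3 : ∫ _t in T..(T + δ), (ε / 2) ^ 2 = (ε / 2) ^ 2 * δ := by
      rw [intervalIntegral.integral_const]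
      simp
      ring
    rw [← h3]
    refine intervalIntegral.integral_mono_on (by linarith) intervalIntegrable_const (hint _ _) ?_
    intro t ht
    have h4 : ‖H t - H T‖ ≤ ε / 2 := by
      refine (hl T t hT2 (hT2.trans ht.1)).trans ?_
      have h5 : |t - T| ≤ δ := by
        rw [abs_le]
        constructor <;> linarith [ht.1, ht.2]
      calc K * |t - T| ≤ K' * δ := by
            refine mul_le_mul ?_ h5 (abs_nonneg _) hK'0.le
            rw [hK']
            linarith [le_abs_self K]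
        _ = ε / 2 := by
            rw [hδ]
            field_simp
    have h5 : ε / 2 ≤ ‖H t‖ := by
      have h6 : ‖H T‖ - ‖H t‖ ≤ ‖H t - H T‖ := by
        rw [norm_sub_rev]
        exact norm_sub_norm_le _ _
      linarith
    exact pow_le_pow_left₀ (by positivity) h5 2
  have h6 := (le_abs_self _).trans_lt h1
  linarith

end F3

theorem conclusion (C : ℝ) (q : ℕ → ℂ) (a : ℕ → ℕ → ℂ) (ha : ∀ N n, ‖a N n‖ ≤ C * 8 ^ n)
    (haq : ∀ N n, n < N → a N n = q n) (B : ℕ → ℂ → ℂ) (β : ℕ → ℂ) (b : ℂ)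
    (hβ : Filter.Tendsto β Filter.atTop (nhds b)) (hBd : ∀ N, DifferentiableOn ℂ (B N) {p | 1 < p.re})
    (hBb : ∀ N (p : ℂ), 1 < p.re → ‖B N p‖ ≤ C)
    (hBs : ∀ N (p : ℂ), 1 < p.re → 8 < ‖p‖ → HasSum (fun n => a N n * (p⁻¹) ^ n) (B N p))
    (hBl : ∀ N (p : ℂ), 1 < p.re → ‖B N p - β N‖ ≤ C * ‖p - 1‖)
    (hborel : ∃ K : ℝ, ∀ (a : ℕ → ℂ) (B : ℂ → ℂ) (β : ℂ), (∀ n, ‖a n‖ ≤ C * 8 ^ n) →
      DifferentiableOn ℂ B {p | 1 < p.re} → (∀ p : ℂ, 1 < p.re → ‖B p‖ ≤ C) →
      (∀ p : ℂ, 1 < p.re → 8 < ‖p‖ → HasSum (fun n => a n * (p⁻¹) ^ n) (B p)) →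
      (∀ p : ℂ, 1 < p.re → ‖B p - β‖ ≤ C * ‖p - 1‖) →
      ∀ H : ℝ → ℂ, (∀ T, H T = (∫ t in (0 : ℝ)..T, (∑' n : ℕ, a n / (n.factorial : ℂ) * (t : ℂ) ^ n) * Real.exp (-t))
          - β * (1 - Real.exp (-T))) →
        (∀ S T, 0 ≤ S → 0 ≤ T → ‖H T - H S‖ ≤ K * |T - S|) ∧
        (∀ R, 0 ≤ R → ∫ T in (0 : ℝ)..R, ‖H T‖ ^ 2 ≤ K)) :
    Filter.Tendsto (fun T : ℝ => ∫ t in (0 : ℝ)..T, (∑' n : ℕ, q n / (n.factorial : ℂ) * (t : ℂ) ^ n) * Real.exp (-t))
      Filter.atTop (nhds b) := by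
  have hq : ∀ n, ‖q n‖ ≤ C * 8 ^ n := fun n => by
    rw [← haq (n + 1) n (Nat.lt_succ_self n)]
    exact ha _ _
  obtain ⟨K, hK⟩ := hborel
  set HN : ℕ → ℝ → ℂ := fun N T => (∫ t in (0 : ℝ)..T, f3S (a N) t * Real.exp (-t)) -
    β N * (1 - Real.exp (-T)) with hHN
  set H : ℝ → ℂ := fun T => (∫ t in (0 : ℝ)..T, f3S q t * Real.exp (-t)) -
    b * (1 - Real.exp (-T)) with hH
  have hgen : ∀ N, (∀ S T, 0 ≤ S → 0 ≤ T → ‖HN N T - HN N S‖ ≤ K * |T - S|) ∧
      (∀ R, 0 ≤ R → ∫ T in (0 : ℝ)..R, ‖HN N T‖ ^ 2 ≤ K) := fun N =>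
    hK (a N) (B N) (β N) (ha N) (hBd N) (hBb N) (hBs N) (hBl N) (HN N) fun T => rfl
  have hexpc : Continuous fun t : ℝ => ((Real.exp (-t) : ℝ) : ℂ) := by fun_prop
  have hcg : ∀ {c : ℕ → ℂ}, (∀ n, ‖c n‖ ≤ C * 8 ^ n) →
      Continuous fun t : ℝ => f3S c t * ((Real.exp (-t) : ℝ) : ℂ) := fun hc =>
    (f3_cont hc).mul hexpc
  have hcH : ∀ {c : ℕ → ℂ} (_ : ∀ n, ‖c n‖ ≤ C * 8 ^ n) (z : ℂ), Continuous fun T : ℝ =>
      (∫ t in (0 : ℝ)..T, f3S c t * ((Real.exp (-t) : ℝ) : ℂ)) - z * (1 - ((Real.exp (-T) : ℝ) : ℂ)) := by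
    intro c hc z
    refine Continuous.sub ?_ (continuous_const.mul (continuous_const.sub hexpc))
    exact intervalIntegral.continuous_primitive
      (fun x y => (hcg hc).intervalIntegrable x y) 0
  have hHNc : ∀ N, Continuous (HN N) := fun N => hcH (ha N) (β N)
  have hHc : Continuous H := hcH hq b
  -- pointwise convergence
  have hpt : ∀ T, 0 ≤ T → Tendsto (fun N => HN N T) atTop (𝓝 (H T)) := by
    intro T hT
    refine Tendsto.sub ?_ (hβ.mul_const _)
    refine intervalIntegral.tendsto_integral_filter_of_dominated_convergence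
      (fun _ => ∑' n : ℕ, C * ((8 * T) ^ n / n.factorial)) ?_ ?_ intervalIntegrable_const ?_
    · exact Eventually.of_forall fun N => (hcg (ha N)).aestronglyMeasurable
    · refine Eventually.of_forall fun N => Eventually.of_forall fun t ht => ?_
      rw [Set.uIoc_of_le hT] at ht
      rw [norm_mul, Complex.norm_real, Real.norm_eq_abs, abs_of_pos (Real.exp_pos _)]
      have h1 := f3_bound (ha N) (T := T) (t := t) (by rw [abs_of_pos ht.1]; exact ht.2)
      have h2 : Real.exp (-t) ≤ 1 := Real.exp_le_one_iff.2 (by linarith [ht.1])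
      calc ‖f3S (a N) t‖ * Real.exp (-t) ≤ ‖f3S (a N) t‖ * 1 :=
            mul_le_mul_of_nonneg_left h2 (norm_nonneg _)
        _ ≤ _ := by rw [mul_one]; exact h1
    · refine Eventually.of_forall fun t _ => ?_
      exact (f3_lim ha haq t).mul_const _
  have hHl : ∀ S T, 0 ≤ S → 0 ≤ T → ‖H T - H S‖ ≤ K * |T - S| := by
    intro S T hS hT
    exact le_of_tendsto (((hpt T hT).sub (hpt S hS)).norm)
      (Eventually.of_forall fun N => (hgen N).1 S T hS hT)
  have hN0 : ∀ N, HN N 0 = 0 := by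
    intro N
    simp [hHN]
  have hHi : ∀ R, 0 ≤ R → ∫ T in (0 : ℝ)..R, ‖H T‖ ^ 2 ≤ K := by
    intro R hR
    have h1 : Tendsto (fun N => ∫ T in (0 : ℝ)..R, ‖HN N T‖ ^ 2) atTop
        (𝓝 (∫ T in (0 : ℝ)..R, ‖H T‖ ^ 2)) := by
      refine intervalIntegral.tendsto_integral_filter_of_dominated_convergence
        (fun _ => (|K| * R) ^ 2) ?_ ?_ intervalIntegrable_const ?_
      · exact Eventually.of_forall fun N => ((hHNc N).norm.pow 2).aestronglyMeasurable
      · refine Eventually.of_forall fun N => Eventually.of_forall fun T hT => ?_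
        rw [Set.uIoc_of_le hR] at hT
        rw [norm_pow, norm_norm]
        refine pow_le_pow_left₀ (norm_nonneg _) ?_ 2
        have h2 := (hgen N).1 0 T le_rfl hT.1.le
        rw [hN0, sub_zero, sub_zero, abs_of_pos hT.1] at h2
        exact h2.trans (mul_le_mul (le_abs_self K) hT.2 hT.1.le (abs_nonneg K))
      · refine Eventually.of_forall fun T hT => ?_
        rw [Set.uIoc_of_le hR] at hT
        exact ((hpt T hT.1.le).norm).pow 2
    exact le_of_tendsto h1 (Eventually.of_forall fun N => (hgen N).2 R hR)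
  have hH0 := f3_tend hHc hHl hHi
  have hexp0 : Tendsto (fun T : ℝ => ((Real.exp (-T) : ℝ) : ℂ)) atTop (𝓝 0) := by
    have := Real.tendsto_exp_neg_atTop_nhds_zero
    have h2 := (Complex.continuous_ofReal.tendsto 0).comp this
    rw [Complex.ofReal_zero] at h2
    exact h2
  have hfin : Tendsto (fun T : ℝ => H T + b * (1 - ((Real.exp (-T) : ℝ) : ℂ))) atTop (𝓝 b) := by
    have := hH0.add ((tendsto_const_nhds (x := b)).mul ((tendsto_const_nhds (x := (1 : ℂ))).sub hexp0))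
    simpa using this
  refine hfin.congr fun T => ?_
  simp only [hH, f3S]
  ring

end Pool.Agent.R945.MK
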