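import Pool.Agent.R945.MK.Defs

/-!
# MK-G: iterates of the two complex maps
-/

set_option autoImplicit false

namespace Pool.Agent.R945.MK

open Finset ComplexConjugate

lemma g_u_one (p h : ℂ) : u p h 1 = p * h := by
  simp [u]

lemma g_u_succ (p h : ℂ) (k : ℕ) : u p h (k + 2) = p * u p h (k + 1) + p := by
  unfold u
  have e1 : k + 2 - 1 = k + 1 := rfl
  have e2 : k + 1 - 1 = k := rfl
  rw [e1, e2, Finset.sum_range_succ', mul_add, Finset.mul_sum]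
  have : ∀ j ∈ range k, p ^ (j + 1 + 1) = p * p ^ (j + 1) := fun j _ => by ring
  rw [Finset.sum_congr rfl this]
  ring

/-- the invariant -/
def gInv (p ξ : ℂ) : Prop :=
  ξ = 0 ∨ ∃ (k : ℕ) (h : ℂ), 13 / 20 ≤ h.re ∧ h.im ≤ 87 / 100 ∧ ξ = p / u p h (k + 1)

def gGood (p ξ : ℂ) : Prop :=
  (0 ≤ p.im ∧ gInv p ξ) ∨ (p.im < 0 ∧ gInv (conj p) (conj ξ))

/-- the hypotheses -/
def gHreg : Prop := ∀ (p h : ℂ) (m : ℕ), 1 ≤ p.re → 0 ≤ p.im → 13 / 20 ≤ h.re →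
  h.im ≤ 87 / 100 → 1 ≤ m →
    u p h m ≠ 0 ∧ -(7 / 20) ≤ (1 / u p h m).re ∧ (1 / u p h m).im ≤ 87 / 100

def gHnear (r : ℝ) : Prop := ∀ (p h : ℂ) (m : ℕ), 1 ≤ p.re → 0 ≤ p.im → 13 / 20 ≤ h.re →
  h.im ≤ 87 / 100 → 1 ≤ m →
    -(6 / 25) - (11 / 100) / r * ((p.re - 1) + p.im) ≤ (1 / u p h m).re

lemma g_pne {p : ℂ} (hp : 1 ≤ p.re) : p ≠ 0 := by
  intro h
  rw [h] at hp
  simp at hp
  linarith

lemma g_inv_sigma (hreg : gHreg) {r : ℝ} (hr : 0 < r) (hnear : gHnear r) {p ξ : ℂ}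
    (hp : 1 ≤ p.re) (hp2 : 0 ≤ p.im) (h : gInv p ξ) :
    -(7 / 20) ≤ (p⁻¹ * ξ).re ∧ (p⁻¹ * ξ).im ≤ 87 / 100 ∧
      -(6 / 25) - (11 / 100) / r * ((p.re - 1) + p.im) ≤ (p⁻¹ * ξ).re := by
  rcases h with h | ⟨k, h, h1, h2, h3⟩
  · rw [h]
    simp only [mul_zero, Complex.zero_re, Complex.zero_im]
    refine ⟨by norm_num, by norm_num, ?_⟩
    have : 0 ≤ (11 / 100) / r * ((p.re - 1) + p.im) := by
      have : 0 ≤ p.re - 1 := by linarith
      positivity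
    linarith
  · have e : p⁻¹ * ξ = 1 / u p h (k + 1) := by
      rw [h3]
      have := g_pne hp
      field_simp
    rw [e]
    obtain ⟨_, a2, a3⟩ := hreg p h (k + 1) hp hp2 h1 h2 (by omega)
    exact ⟨a2, a3, hnear p h (k + 1) hp hp2 h1 h2 (by omega)⟩

lemma g_inv_f1 (hreg : gHreg) {r : ℝ} (hr : 0 < r) (hnear : gHnear r) {p ξ : ℂ}
    (hp : 1 ≤ p.re) (hp2 : 0 ≤ p.im) (h : gInv p ξ) : gInv p (f1 p⁻¹ ξ) := by
  obtain ⟨a1, a2, _⟩ := g_inv_sigma hreg hr hnear hp hp2 h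
  right
  refine ⟨0, 1 + p⁻¹ * ξ, ?_, ?_, ?_⟩
  · rw [Complex.add_re, Complex.one_re]
    linarith
  · rw [Complex.add_im, Complex.one_im]
    linarith
  · rw [Nat.zero_add, g_u_one]
    unfold f1
    have hpne := g_pne hp
    rw [div_mul_eq_div_div, div_self hpne]

lemma g_inv_f2 (hreg : gHreg) {p ξ : ℂ}
    (hp : 1 ≤ p.re) (hp2 : 0 ≤ p.im) (h : gInv p ξ) : gInv p (f2 p⁻¹ ξ) := by
  have hpne := g_pne hp
  rcases h with h | ⟨k, h, h1, h2, h3⟩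
  · left
    rw [h]
    simp [f2]
  · right
    refine ⟨k + 1, h, h1, h2, ?_⟩
    obtain ⟨b1, _, _⟩ := hreg p h (k + 1) hp hp2 h1 h2 (by omega)
    obtain ⟨b2, _, _⟩ := hreg p h (k + 2) hp hp2 h1 h2 (by omega)
    have e : p⁻¹ * ξ = 1 / u p h (k + 1) := by
      rw [h3]
      field_simp
    unfold f2
    rw [e]
    have e2 : k + 1 + 1 = k + 2 := rfl
    rw [e2]
    rw [g_u_succ] at b2 ⊢
    have b3 : p * (u p h (k + 1) + 1) ≠ 0 := by
      intro hc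
      apply b2
      rw [← hc]
      ring
    have b4 : u p h (k + 1) + 1 ≠ 0 := right_ne_zero_of_mul b3
    have b5 : 1 + 1 / u p h (k + 1) ≠ 0 := by
      intro hc
      apply b4
      field_simp at hc
      simpa using hc
    have e3 : p * u p h (k + 1) + p = p * (u p h (k + 1) + 1) := by ring
    rw [e3]
    field_simp

lemma g_f1_conj (w ξ : ℂ) : conj (f1 w ξ) = f1 (conj w) (conj ξ) := by
  simp [f1]

lemma g_f2_conj (w ξ : ℂ) : conj (f2 w ξ) = f2 (conj w) (conj ξ) := by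
  simp [f2]

lemma g_good_zero (p : ℂ) : gGood p 0 := by
  rcases le_or_gt 0 p.im with h | h
  · exact Or.inl ⟨h, Or.inl rfl⟩
  · exact Or.inr ⟨h, Or.inl (by simp)⟩

lemma g_good_sigma (hreg : gHreg) {r : ℝ} (hr : 0 < r) (hnear : gHnear r) {p ξ : ℂ}
    (hp : 1 ≤ p.re) (h : gGood p ξ) :
    -(7 / 20) ≤ (p⁻¹ * ξ).re ∧
      -(6 / 25) - (11 / 100) / r * ((p.re - 1) + |p.im|) ≤ (p⁻¹ * ξ).re := by
  rcases h with ⟨h1, h2⟩ | ⟨h1, h2⟩
  · obtain ⟨a, _, c⟩ := g_inv_sigma hreg hr hnear hp h1 h2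
    rw [abs_of_nonneg h1]
    exact ⟨a, c⟩
  · have hp' : 1 ≤ (conj p).re := by simpa using hp
    have hp2' : 0 ≤ (conj p).im := by
      rw [Complex.conj_im]
      linarith
    obtain ⟨a, _, c⟩ := g_inv_sigma hreg hr hnear hp' hp2' h2
    have e : (conj p)⁻¹ * conj ξ = conj (p⁻¹ * ξ) := by
      rw [map_mul, map_inv₀]
    rw [e, Complex.conj_re] at a c
    rw [Complex.conj_re, Complex.conj_im] at c
    rw [abs_of_neg h1]
    exact ⟨a, c⟩

lemma g_good_f1 (hreg : gHreg) {r : ℝ} (hr : 0 < r) (hnear : gHnear r) {p ξ : ℂ}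
    (hp : 1 ≤ p.re) (h : gGood p ξ) : gGood p (f1 p⁻¹ ξ) := by
  rcases h with ⟨h1, h2⟩ | ⟨h1, h2⟩
  · exact Or.inl ⟨h1, g_inv_f1 hreg hr hnear hp h1 h2⟩
  · refine Or.inr ⟨h1, ?_⟩
    have hp' : 1 ≤ (conj p).re := by simpa using hp
    have hp2' : 0 ≤ (conj p).im := by
      rw [Complex.conj_im]
      linarith
    rw [g_f1_conj, map_inv₀]
    exact g_inv_f1 hreg hr hnear hp' hp2' h2

lemma g_good_f2 (hreg : gHreg) {p ξ : ℂ}
    (hp : 1 ≤ p.re) (h : gGood p ξ) : gGood p (f2 p⁻¹ ξ) := by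
  rcases h with ⟨h1, h2⟩ | ⟨h1, h2⟩
  · exact Or.inl ⟨h1, g_inv_f2 hreg hp h1 h2⟩
  · refine Or.inr ⟨h1, ?_⟩
    have hp' : 1 ≤ (conj p).re := by simpa using hp
    have hp2' : 0 ≤ (conj p).im := by
      rw [Complex.conj_im]
      linarith
    rw [g_f2_conj, map_inv₀]
    exact g_inv_f2 hreg hp' hp2' h2

lemma g_norm_lower {s : ℂ} {c : ℝ} (h : c - 1 ≤ s.re) : c ≤ ‖1 + s‖ := by
  have h1 := Complex.re_le_norm (1 + s)
  rw [Complex.add_re, Complex.one_re] at h1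
  linarith

lemma g_f1_norm {w ξ : ℂ} (h : -(7 / 20) ≤ (w * ξ).re) : ‖f1 w ξ‖ ≤ 20 / 13 := by
  have h1 : (13 : ℝ) / 20 ≤ ‖1 + w * ξ‖ := g_norm_lower (by linarith)
  unfold f1
  rw [norm_div, norm_one, div_le_div_iff₀ (by linarith) (by norm_num)]
  linarith

lemma g_f2_norm {w ξ : ℂ} (h : -(7 / 20) ≤ (w * ξ).re) : ‖f2 w ξ‖ ≤ 20 / 13 := by
  have h1 : (13 : ℝ) / 20 ≤ ‖1 + w * ξ‖ := g_norm_lower (by linarith)
  unfold f2
  rw [norm_div]
  have h2 : ‖w * ξ‖ ≤ ‖1 + w * ξ‖ := by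
    apply le_of_sq_le_sq _ (norm_nonneg _)
    rw [← Complex.normSq_eq_norm_sq, ← Complex.normSq_eq_norm_sq, Complex.normSq_apply,
      Complex.normSq_apply, Complex.add_re, Complex.add_im, Complex.one_re, Complex.one_im]
    nlinarith
  have h3 : ‖w * ξ‖ / ‖1 + w * ξ‖ ≤ 1 := div_le_one_of_le₀ h2 (norm_nonneg _)
  linarith

lemma g_bound (hreg : gHreg) {r : ℝ} (hr : 0 < r) (hnear : gHnear r) {p : ℂ}
    (hp : 1 ≤ p.re) (N : ℕ) : ∀ ξ, gGood p ξ → ‖ξ‖ ≤ 20 / 13 →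
      ‖av p⁻¹ (fun ξ => ξ ^ 2) N ξ‖ ≤ 4 := by
  induction N with
  | zero =>
    intro ξ _ h
    simp only [av]
    rw [norm_pow]
    nlinarith [norm_nonneg ξ]
  | succ N ih =>
    intro ξ hg _
    have h1 := (g_good_sigma hreg hr hnear hp hg).1
    have h2 := ih _ (g_good_f1 hreg hr hnear hp hg) (g_f1_norm h1)
    have h3 := ih _ (g_good_f2 hreg hp hg) (g_f2_norm h1)
    simp only [av]
    rw [norm_div]
    have h4 := norm_add_le (av p⁻¹ (fun ξ => ξ ^ 2) N (f1 p⁻¹ ξ))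
      (av p⁻¹ (fun ξ => ξ ^ 2) N (f2 p⁻¹ ξ))
    have h5 : ‖(2 : ℂ)‖ = 2 := by norm_num
    rw [h5, div_le_iff₀ (by norm_num)]
    linarith

lemma g_diff (hreg : gHreg) {r : ℝ} (hr : 0 < r) (hnear : gHnear r) (N : ℕ) :
    ∀ φ : ℂ → ℂ, DifferentiableOn ℂ φ {p | 1 < p.re} → (∀ p : ℂ, 1 < p.re → gGood p (φ p)) →
      DifferentiableOn ℂ (fun p : ℂ => av p⁻¹ (fun ξ => ξ ^ 2) N (φ p)) {p | 1 < p.re} := by
  induction N with
  | zero =>
    intro φ hφ _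
    simp only [av]
    exact hφ.pow 2
  | succ N ih =>
    intro φ hφ hg
    have hinv : DifferentiableOn ℂ (fun p : ℂ => p⁻¹) {p | 1 < p.re} := by
      intro p hp
      exact (differentiableAt_inv (g_pne (le_of_lt hp))).differentiableWithinAt
    have hden : ∀ p : ℂ, 1 < p.re → 1 + p⁻¹ * φ p ≠ 0 := by
      intro p hp hc
      have h1 := (g_good_sigma hreg hr hnear hp.le (hg p hp)).1
      have h2 : (13 : ℝ) / 20 ≤ ‖1 + p⁻¹ * φ p‖ := g_norm_lower (by linarith)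
      rw [hc, norm_zero] at h2
      linarith
    have h1 : DifferentiableOn ℂ (fun p => f1 p⁻¹ (φ p)) {p | 1 < p.re} := by
      unfold f1
      exact (differentiableOn_const 1).div ((differentiableOn_const 1).add (hinv.mul hφ)) hden
    have h2 : DifferentiableOn ℂ (fun p => f2 p⁻¹ (φ p)) {p | 1 < p.re} := by
      unfold f2
      exact (hinv.mul hφ).div ((differentiableOn_const 1).add (hinv.mul hφ)) hden
    have h3 := ih _ h1 (fun p hp => g_good_f1 hreg hr hnear hp.le (hg p hp))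
    have h4 := ih _ h2 (fun p hp => g_good_f2 hreg hp.le (hg p hp))
    simp only [av]
    exact (h3.add h4).div_const 2

lemma g_av_one (N : ℕ) : ∀ x : ℝ, 0 ≤ x → x ≤ 1 → ‖av 1 (fun ξ => ξ ^ 2) N (x : ℂ)‖ ≤ 1 := by
  induction N with
  | zero =>
    intro x h0 h1
    simp only [av]
    rw [norm_pow, Complex.norm_real, Real.norm_eq_abs, abs_of_nonneg h0]
    nlinarith
  | succ N ih =>
    intro x h0 h1
    have e1 : f1 1 (x : ℂ) = ((1 / (1 + x) : ℝ) : ℂ) := by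
      simp [f1]
    have e2 : f2 1 (x : ℂ) = ((x / (1 + x) : ℝ) : ℂ) := by
      simp [f2]
    simp only [av]
    rw [e1, e2]
    have h2 := ih (1 / (1 + x)) (by positivity) (by
      rw [div_le_one (by linarith)]
      linarith)
    have h3 := ih (x / (1 + x)) (by positivity) (by
      rw [div_le_one (by linarith)]
      linarith)
    rw [norm_div]
    have h4 := norm_add_le (av 1 (fun ξ => ξ ^ 2) N (((1 / (1 + x) : ℝ) : ℂ)))
      (av 1 (fun ξ => ξ ^ 2) N (((x / (1 + x) : ℝ) : ℂ)))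
    have h5 : ‖(2 : ℂ)‖ = 2 := by norm_num
    rw [h5, div_le_iff₀ (by norm_num)]
    linarith

/-- the contraction constant -/
noncomputable def gk : ℝ := (3 / 4) / (7578 / 10000)

noncomputable def gc : ℝ := 6 * (20 / 13) * gk / (1 - gk)

lemma gk_pos : 0 < gk := by unfold gk; norm_num
lemma gk_lt : gk < 1 := by unfold gk; norm_num

lemma g_step {w ξ : ℂ} {x : ℝ} (h0 : 0 ≤ x) (hs : -(2422 / 10000) ≤ (w * ξ).re)
    (hξ : ‖ξ‖ ≤ 20 / 13) :
    ‖f1 w ξ - f1 1 (x : ℂ)‖ ≤ (‖ξ - x‖ + 20 / 13 * ‖1 - w‖) / ((7578 / 10000) * (1 + x)) ∧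
    ‖f2 w ξ - f2 1 (x : ℂ)‖ ≤ (‖ξ - x‖ + 20 / 13 * ‖1 - w‖) / ((7578 / 10000) * (1 + x)) := by
  have hn : (7578 : ℝ) / 10000 ≤ ‖1 + w * ξ‖ := g_norm_lower (by linarith)
  have hne : 1 + w * ξ ≠ 0 := by
    intro hc
    rw [hc, norm_zero] at hn
    linarith
  have hx1 : (0 : ℝ) < 1 + x := by linarith
  have hxne : (1 : ℂ) + 1 * (x : ℂ) ≠ 0 := by
    rw [one_mul]
    exact_mod_cast hx1.ne'
  have e1 : f1 w ξ - f1 1 (x : ℂ)
      = (((x : ℂ) - ξ) + (1 - w) * ξ) / ((1 + w * ξ) * (1 + 1 * (x : ℂ))) := by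
    unfold f1
    rw [div_sub_div _ _ hne hxne]
    congr 1
    ring
  have e2 : f2 w ξ - f2 1 (x : ℂ) = -(f1 w ξ - f1 1 (x : ℂ)) := by
    have a1 : f2 w ξ = 1 - f1 w ξ := by
      unfold f1 f2
      rw [eq_sub_iff_add_eq, ← add_div, add_comm (w * ξ) 1, div_self hne]
    have a2 : f2 1 (x : ℂ) = 1 - f1 1 (x : ℂ) := by
      unfold f1 f2
      rw [eq_sub_iff_add_eq, ← add_div, add_comm (1 * (x : ℂ)) 1, div_self hxne]
    rw [a1, a2]
    ring
  have hnx : ‖(1 : ℂ) + 1 * (x : ℂ)‖ = 1 + x := by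
    rw [one_mul]
    have : (1 : ℂ) + (x : ℂ) = ((1 + x : ℝ) : ℂ) := by push_cast; ring
    rw [this, Complex.norm_real, Real.norm_eq_abs, abs_of_pos hx1]
  have h1 : ‖f1 w ξ - f1 1 (x : ℂ)‖
      ≤ (‖ξ - x‖ + 20 / 13 * ‖1 - w‖) / ((7578 / 10000) * (1 + x)) := by
    rw [e1, norm_div, norm_mul, hnx]
    have h2 : ‖((x : ℂ) - ξ) + (1 - w) * ξ‖ ≤ ‖ξ - x‖ + 20 / 13 * ‖1 - w‖ := by
      refine (norm_add_le _ _).trans ?_
      rw [norm_sub_rev, norm_mul]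
      have := mul_le_mul_of_nonneg_left hξ (norm_nonneg (1 - w))
      linarith
    apply div_le_div₀ (by positivity) h2 (by positivity)
    exact mul_le_mul_of_nonneg_right hn hx1.le
  refine ⟨h1, ?_⟩
  rw [e2, norm_neg]
  exact h1

lemma g_lip (hreg : gHreg) {r : ℝ} (hr : 0 < r) (hnear : gHnear r) {p : ℂ}
    (hp : 1 ≤ p.re) (hsmall : (p.re - 1) + |p.im| ≤ r / 50) (N : ℕ) :
    ∀ (ξ : ℂ) (x : ℝ), gGood p ξ → ‖ξ‖ ≤ 20 / 13 → 0 ≤ x → x ≤ 1 →
      ‖av p⁻¹ (fun ξ => ξ ^ 2) N ξ - av 1 (fun ξ => ξ ^ 2) N (x : ℂ)‖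
        ≤ 6 * gk ^ N * ‖ξ - x‖ * (1 - x / 2) + gc * (1 - gk ^ N) * ‖1 - p⁻¹‖ := by
  induction N with
  | zero =>
    intro ξ x _ hξ h0 h1
    simp only [av, pow_zero]
    have e : ξ ^ 2 - (x : ℂ) ^ 2 = (ξ - x) * (ξ + x) := by ring
    rw [e, norm_mul]
    have h2 : ‖ξ + (x : ℂ)‖ ≤ 3 := by
      refine (norm_add_le _ _).trans ?_
      rw [Complex.norm_real, Real.norm_eq_abs, abs_of_nonneg h0]
      linarith
    have h3 : ‖ξ - x‖ * ‖ξ + (x : ℂ)‖ ≤ ‖ξ - x‖ * 3 :=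
      mul_le_mul_of_nonneg_left h2 (norm_nonneg _)
    have h4 : 0 ≤ ‖ξ - x‖ := norm_nonneg _
    nlinarith
  | succ N ih =>
    intro ξ x hg hξ h0 h1
    obtain ⟨s1, s2⟩ := g_good_sigma hreg hr hnear hp hg
    have s3 : -(2422 / 10000) ≤ (p⁻¹ * ξ).re := by
      have h2 : (11 / 100) / r * ((p.re - 1) + |p.im|) ≤ (11 / 100) / r * (r / 50) :=
        mul_le_mul_of_nonneg_left hsmall (by positivity)
      have h3 : (11 / 100) / r * (r / 50) = 11 / 5000 := by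
        field_simp
        norm_num
      linarith
    obtain ⟨d1, d2⟩ := g_step h0 s3 hξ
    have e1 : f1 1 (x : ℂ) = ((1 / (1 + x) : ℝ) : ℂ) := by
      simp [f1]
    have e2 : f2 1 (x : ℂ) = ((x / (1 + x) : ℝ) : ℂ) := by
      simp [f2]
    have hx1 : (0 : ℝ) < 1 + x := by linarith
    have i1 := ih (f1 p⁻¹ ξ) (1 / (1 + x)) (g_good_f1 hreg hr hnear hp hg) (g_f1_norm s1)
      (by positivity) (by
        rw [div_le_one hx1]
        linarith)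
    have i2 := ih (f2 p⁻¹ ξ) (x / (1 + x)) (g_good_f2 hreg hp hg) (g_f2_norm s1)
      (by positivity) (by
        rw [div_le_one hx1]
        linarith)
    rw [← e1] at i1
    rw [← e2] at i2
    set E := ‖1 - p⁻¹‖ with hE
    have hE0 : 0 ≤ E := norm_nonneg _
    set X := ‖ξ - x‖ with hX
    have hX0 : 0 ≤ X := norm_nonneg _
    set M := (X + 20 / 13 * E) / ((7578 / 10000) * (1 + x)) with hM
    have hM0 : 0 ≤ M := by positivity
    have hkN : 0 < gk ^ N := pow_pos gk_pos N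
    have j1 : 6 * gk ^ N * ‖f1 p⁻¹ ξ - f1 1 (x : ℂ)‖ * (1 - 1 / (1 + x) / 2)
        ≤ 6 * gk ^ N * M * (1 - 1 / (1 + x) / 2) := by
      have : 0 ≤ 1 - 1 / (1 + x) / 2 := by
        have : 1 / (1 + x) ≤ 1 := by
          rw [div_le_one hx1]
          linarith
        linarith
      gcongr
    have j2 : 6 * gk ^ N * ‖f2 p⁻¹ ξ - f2 1 (x : ℂ)‖ * (1 - x / (1 + x) / 2)
        ≤ 6 * gk ^ N * M * (1 - x / (1 + x) / 2) := by
      have : 0 ≤ 1 - x / (1 + x) / 2 := by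
        have : x / (1 + x) ≤ 1 := by
          rw [div_le_one hx1]
          linarith
        linarith
      gcongr
    have hsum : (1 - 1 / (1 + x) / 2) + (1 - x / (1 + x) / 2) = 3 / 2 := by
      field_simp
      ring
    have hMk : (3 / 4) * M = gk * ((X + 20 / 13 * E) / (1 + x)) := by
      rw [hM]
      unfold gk
      field_simp
    have hV : 1 / (1 + x) ≤ 1 - x / 2 := by
      rw [div_le_iff₀ hx1]
      nlinarith
    have hV1 : 1 / (1 + x) ≤ 1 := by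
      rw [div_le_one hx1]
      linarith
    simp only [av]
    have e5 : (av p⁻¹ (fun ξ => ξ ^ 2) N (f1 p⁻¹ ξ) + av p⁻¹ (fun ξ => ξ ^ 2) N (f2 p⁻¹ ξ)) / 2
        - (av 1 (fun ξ => ξ ^ 2) N (f1 1 (x : ℂ)) + av 1 (fun ξ => ξ ^ 2) N (f2 1 (x : ℂ))) / 2
        = ((av p⁻¹ (fun ξ => ξ ^ 2) N (f1 p⁻¹ ξ) - av 1 (fun ξ => ξ ^ 2) N (f1 1 (x : ℂ)))
          + (av p⁻¹ (fun ξ => ξ ^ 2) N (f2 p⁻¹ ξ) - av 1 (fun ξ => ξ ^ 2) N (f2 1 (x : ℂ)))) / 2 := by
      ring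
    rw [e5, norm_div]
    have h5 : ‖(2 : ℂ)‖ = 2 := by norm_num
    rw [h5, div_le_iff₀ (by norm_num)]
    refine (norm_add_le _ _).trans ((add_le_add i1 i2).trans ?_)
    -- combine
    have k1 : 6 * gk ^ N * ‖f1 p⁻¹ ξ - f1 1 (x : ℂ)‖ * (1 - 1 / (1 + x) / 2)
        + 6 * gk ^ N * ‖f2 p⁻¹ ξ - f2 1 (x : ℂ)‖ * (1 - x / (1 + x) / 2)
        ≤ 6 * gk ^ N * M * (3 / 2) := by
      refine (add_le_add j1 j2).trans (le_of_eq ?_)
      rw [← mul_add, hsum]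
    have k2 : 6 * gk ^ N * M * (3 / 2) = 2 * (6 * gk ^ (N + 1) * ((X + 20 / 13 * E) / (1 + x))) := by
      have : 6 * gk ^ N * M * (3 / 2) = 2 * (6 * gk ^ N * ((3 / 4) * M)) := by ring
      rw [this, hMk, pow_succ]
      ring
    have k3 : (X + 20 / 13 * E) / (1 + x) ≤ X * (1 - x / 2) + 20 / 13 * E := by
      have : (X + 20 / 13 * E) / (1 + x) = X * (1 / (1 + x)) + 20 / 13 * E * (1 / (1 + x)) := by
        ring
      rw [this]
      have a1 : X * (1 / (1 + x)) ≤ X * (1 - x / 2) := mul_le_mul_of_nonneg_left hV hX0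
      have a2 : 20 / 13 * E * (1 / (1 + x)) ≤ 20 / 13 * E * 1 :=
        mul_le_mul_of_nonneg_left hV1 (by positivity)
      linarith
    have k4 : 6 * gk ^ (N + 1) * ((X + 20 / 13 * E) / (1 + x))
        ≤ 6 * gk ^ (N + 1) * (X * (1 - x / 2) + 20 / 13 * E) := by
      have : 0 < gk ^ (N + 1) := pow_pos gk_pos _
      exact mul_le_mul_of_nonneg_left k3 (by positivity)
    have k5 : gc * (1 - gk) = 6 * (20 / 13) * gk := by
      unfold gc
      have : 1 - gk ≠ 0 := by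
        have := gk_lt
        linarith
      field_simp
    have k6 : gc * (1 - gk ^ (N + 1)) = gc * (1 - gk ^ N) + 6 * (20 / 13) * gk ^ (N + 1) := by
      have : gc * (1 - gk ^ (N + 1)) = gc * (1 - gk ^ N) + (gc * (1 - gk)) * gk ^ N := by ring
      rw [this, k5]
      ring
    rw [k6]
    nlinarith

theorem iterates (hreg : ∀ (p h : ℂ) (m : ℕ), 1 ≤ p.re → 0 ≤ p.im → 13 / 20 ≤ h.re →
      h.im ≤ 87 / 100 → 1 ≤ m →
      u p h m ≠ 0 ∧ -(7 / 20) ≤ (1 / u p h m).re ∧ (1 / u p h m).im ≤ 87 / 100)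
    (r : ℝ) (hr : 0 < r)
    (hnear : ∀ (p h : ℂ) (m : ℕ), 1 ≤ p.re → 0 ≤ p.im → 13 / 20 ≤ h.re → h.im ≤ 87 / 100 →
      1 ≤ m → -(6 / 25) - (11 / 100) / r * ((p.re - 1) + p.im) ≤ (1 / u p h m).re) :
    (∀ N, DifferentiableOn ℂ (fun p : ℂ => av p⁻¹ (fun ξ => ξ ^ 2) N 0) {p | 1 < p.re}) ∧
    (∀ N (p : ℂ), 1 < p.re → ‖av p⁻¹ (fun ξ => ξ ^ 2) N 0‖ ≤ 4) ∧
    (∃ C, ∀ N (p : ℂ), 1 < p.re →
      ‖av p⁻¹ (fun ξ => ξ ^ 2) N 0 - av 1 (fun ξ => ξ ^ 2) N 0‖ ≤ C * ‖p - 1‖) := by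
  have hreg' : gHreg := hreg
  have hnear' : gHnear r := hnear
  refine ⟨fun N => ?_, fun N p hp => ?_, ?_⟩
  · exact g_diff hreg' hr hnear' N (fun _ => 0) (differentiableOn_const 0)
      (fun p _ => g_good_zero p)
  · exact g_bound hreg' hr hnear' hp.le N 0 (g_good_zero p) (by norm_num)
  · refine ⟨gc + 500 / r, fun N p hp => ?_⟩
    have hgc : 0 ≤ gc := by
      unfold gc
      have := gk_pos
      have := gk_lt
      have : 0 < 1 - gk := by linarith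
      positivity
    have hn0 : 0 ≤ ‖p - 1‖ := norm_nonneg _
    have hpos : 0 ≤ 500 / r := by positivity
    rcases le_or_gt ((p.re - 1) + |p.im|) (r / 50) with hs | hs
    · have h1 := g_lip hreg' hr hnear' hp.le hs N 0 0 (g_good_zero p) (by norm_num)
        le_rfl zero_le_one
      have e0 : ((0 : ℝ) : ℂ) = 0 := by simp
      rw [e0] at h1
      have h2 : ‖1 - p⁻¹‖ ≤ ‖p - 1‖ := by
        have hpne := g_pne hp.le
        have e1 : 1 - p⁻¹ = (p - 1) / p := by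
          field_simp
        rw [e1, norm_div]
        apply div_le_self hn0
        have := Complex.re_le_norm p
        linarith
      have h3 : 0 < gk ^ N := pow_pos gk_pos N
      have h4 : gc * (1 - gk ^ N) * ‖1 - p⁻¹‖ ≤ gc * ‖p - 1‖ := by
        have a1 : gc * (1 - gk ^ N) ≤ gc := by nlinarith
        calc gc * (1 - gk ^ N) * ‖1 - p⁻¹‖ ≤ gc * ‖1 - p⁻¹‖ :=
              mul_le_mul_of_nonneg_right a1 (norm_nonneg _)
          _ ≤ gc * ‖p - 1‖ := mul_le_mul_of_nonneg_left h2 hgc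
      simp only [sub_zero, norm_zero, mul_zero, zero_mul, zero_add] at h1
      have h5 : 0 ≤ 500 / r * ‖p - 1‖ := mul_nonneg hpos hn0
      linarith
    · have h1 := g_bound hreg' hr hnear' hp.le N 0 (g_good_zero p) (by norm_num)
      have h2 := g_av_one N 0 le_rfl zero_le_one
      have e0 : ((0 : ℝ) : ℂ) = 0 := by simp
      rw [e0] at h2
      have h3 := norm_sub_le (av p⁻¹ (fun ξ => ξ ^ 2) N 0) (av 1 (fun ξ => ξ ^ 2) N 0)
      have h4 : r / 100 ≤ ‖p - 1‖ := by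
        have a1 := Complex.re_le_norm (p - 1)
        have a2 := Complex.abs_im_le_norm (p - 1)
        simp only [Complex.sub_re, Complex.one_re, Complex.sub_im, Complex.one_im, sub_zero] at a1 a2
        linarith
      have h5 : 5 ≤ 500 / r * ‖p - 1‖ := by
        calc (5 : ℝ) = 500 / r * (r / 100) := by
              field_simp
              norm_num
          _ ≤ _ := mul_le_mul_of_nonneg_left h4 hpos
      have h6 : 0 ≤ gc * ‖p - 1‖ := mul_nonneg hgc hn0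
      linarith

end Pool.Agent.R945.MK
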